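import Pool.Agent.Lib_helper96.PNV.Defs

/-! PNI block QA1 (helper53) -/

set_option autoImplicit false

namespace Pool.Agent.PNV

open Finset Pool.Agent.PENT Pool.Agent.PENK Pool.Agent.PNI

variable {q : Prm} {x : ℝ} {u v w : PolyK 11}

/-- BLOCK QA1. Transitivity of being parallel mod p:
`a₁ det(c,d) = c₁ det(a,d) - d₁ det(a,c)`, the same with second coordinates. -/
theorem par_trans {p : ℕ} (hp : p.Prime) {a c d : ℤ × ℤ}
    (ha : ¬ ((p : ℤ) ∣ a.1 ∧ (p : ℤ) ∣ a.2)) (h1 : (p : ℤ) ∣ dt a c) (h2 : (p : ℤ) ∣ dt a d) :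
    (p : ℤ) ∣ dt c d := by
  have hp' : Prime (p : ℤ) := Nat.prime_iff_prime_int.1 hp
  have e1 : a.1 * dt c d = c.1 * dt a d - d.1 * dt a c := by unfold dt; ring
  have e2 : a.2 * dt c d = c.2 * dt a d - d.2 * dt a c := by unfold dt; ring
  have d1 : (p : ℤ) ∣ a.1 * dt c d := by
    rw [e1]
    exact dvd_sub (h2.mul_left _) (h1.mul_left _)
  have d2 : (p : ℤ) ∣ a.2 * dt c d := by
    rw [e2]
    exact dvd_sub (h2.mul_left _) (h1.mul_left _)
  rcases hp'.dvd_or_dvd d1 with h | h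
  · rcases hp'.dvd_or_dvd d2 with h' | h'
    · exact absurd ⟨h, h'⟩ ha
    · exact h'
  · exact h

theorem sqf_dvd {J : ℕ} (hJ : Squarefree J) {z : ℤ}
    (h : ∀ p : ℕ, p.Prime → p ∣ J → (p : ℤ) ∣ z) : (J : ℤ) ∣ z := by
  rw [Int.natCast_dvd, ← Nat.prod_primeFactors_of_squarefree hJ]
  apply Finset.prod_primes_dvd
  · intro p hp
    exact Nat.prime_iff.1 (Nat.prime_of_mem_primeFactors hp)
  · intro p hp
    exact Int.natCast_dvd.1 (h p (Nat.prime_of_mem_primeFactors hp)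
      (Nat.dvd_of_mem_primeFactors hp))

theorem dl_of (u : PolyK 11) {j : Fin 11} (hj : j ≠ 10) : dl u j = dt (u j) (u (j + 1)) := by
  unfold dl
  rw [if_neg hj]

theorem dl_ten (u : PolyK 11) : dl u 10 = -1 := by
  unfold dl
  rw [if_pos rfl]

theorem dn_of (u : PolyK 11) {j : Fin 11} (hj : j ≠ 10) :
    dn u j = (dt (u j) (u (j + 1))).natAbs := by
  unfold dn
  rw [dl_of u hj]

theorem dn10 (u : PolyK 11) : dn u 10 = 1 := by
  unfold dn
  rw [dl_ten]
  rfl

theorem ten_of_dvd {p : ℕ} (hp : p.Prime) {j : Fin 11} (h : p ∣ dn u j) : j ≠ 10 := by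
  rintro rfl
  rw [dn10] at h
  exact hp.one_lt.ne' (Nat.dvd_one.1 h)

theorem cb_of (u : PolyK 11) {b : Fin 11} (hb : b ≠ 10) (k : Fin 11) :
    cb b u k = (dt (u k) (u (b + 1)), dt (u b) (u k)) := by
  unfold cb
  rw [if_neg hb]

theorem cb_ten_of (u : PolyK 11) (k : Fin 11) : cb 10 u k = (-(u k).2, -(u k).1) := by
  unfold cb
  rw [if_pos rfl]

/-- a prime does not divide both coordinates of a vertex (else it divides `dn u k` and
`dn u (k - 1)`, against `co`) -/
theorem vert_ne (h : IsPt q x u) {p : ℕ} (hp : p.Prime) (k : Fin 11) :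
    ¬ ((p : ℤ) ∣ (u k).1 ∧ (p : ℤ) ∣ (u k).2) := by
  have key : ∀ a : ℤ × ℤ, Int.gcd a.1 a.2 = 1 → ¬ ((p : ℤ) ∣ a.1 ∧ (p : ℤ) ∣ a.2) := by
    rintro a ha ⟨h1, h2⟩
    have h3 := Int.dvd_gcd h1 h2
    rw [ha] at h3
    exact hp.one_lt.ne' (Nat.dvd_one.1 (by exact_mod_cast h3))
  by_cases k0 : k = 0
  · rw [k0]
    exact key _ h.p0
  by_cases k1 : k = 10
  · rw [k1]
    exact key _ h.p1
  rintro ⟨h1, h2⟩
  have hk : k - 1 ≠ 10 := by
    intro he
    apply k0
    rw [← sub_add_cancel k 1, he]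
    decide
  have hd1 : p ∣ dn u k := by
    rw [dn_of u k1, ← Int.natCast_dvd]
    unfold dt
    exact dvd_sub (h1.mul_right _) (h2.mul_right _)
  have hd2 : p ∣ dn u (k - 1) := by
    rw [dn_of u hk, ← Int.natCast_dvd, sub_add_cancel]
    unfold dt
    exact dvd_sub (h2.mul_left _) (h1.mul_left _)
  have hne : k ≠ k - 1 := by
    intro he
    have : (1 : Fin 11) = 0 := by
      have := sub_eq_self.1 he.symm
      exact this
    exact absurd this (by decide)
  have := h.co k (k - 1) hne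
  exact hp.one_lt.ne' (Nat.dvd_one.1 (this ▸ Nat.dvd_gcd hd1 hd2))

theorem vert_prim (h : IsPt q x u) (k : Fin 11) : Int.gcd (u k).1 (u k).2 = 1 := by
  by_contra hne
  obtain ⟨p, hp, hpd⟩ := Nat.exists_prime_and_dvd hne
  apply vert_ne h hp k
  exact ⟨(Int.natCast_dvd_natCast.2 hpd).trans (Int.gcd_dvd_left _ _),
    (Int.natCast_dvd_natCast.2 hpd).trans (Int.gcd_dvd_right _ _)⟩

theorem qa1_swap (a b : ℤ × ℤ) : dt b a = -dt a b := by unfold dt; ring

/-- the other end of the edge (`par_trans` with `a = u_(j+1)`) -/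
theorem IsPt.nd' (h : IsPt q x u) (j k : Fin 11) (h1 : k ≠ j) (h2 : k ≠ j + 1) :
    Nat.Coprime (dn u j) (dt (u (j + 1)) (u k)).natAbs := by
  apply Nat.Coprime.symm
  rw [Nat.coprime_comm]
  apply Nat.coprime_of_dvd
  intro p hp hd1 hd2
  have e1 : (p : ℤ) ∣ dt (u (j + 1)) (u j) := by
    rw [qa1_swap, dvd_neg, Int.natCast_dvd, ← dn_of u (ten_of_dvd hp hd1)]
    exact hd1
  have e2 : (p : ℤ) ∣ dt (u (j + 1)) (u k) := by
    rw [Int.natCast_dvd]
    exact hd2
  have e3 := par_trans hp (vert_ne h hp (j + 1)) e1 e2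
  have e4 : p ∣ (dt (u j) (u k)).natAbs := Int.natCast_dvd.1 e3
  have := h.nd j k h1 h2
  exact hp.one_lt.ne' (Nat.dvd_one.1 (this ▸ Nat.dvd_gcd hd1 e4))

theorem dt_cb (b i j : Fin 11) (u : PolyK 11) :
    dt (cb b u i) (cb b u j) = dl u b * dt (u i) (u j) := by
  unfold cb dl dt
  split_ifs
  · simp only
    ring
  · simp only
    ring

/-- two paths with the same frame -/
theorem dt_cb2 (b i j : Fin 11) (u v : PolyK 11) (h0 : v b = u b)
    (h1 : v (b + 1) = u (b + 1)) :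
    dt (cb b u i) (cb b v j) = dl u b * dt (u i) (v j) := by
  unfold cb dl dt
  split_ifs
  · simp only
    ring
  · simp only [h0, h1]
    ring

theorem dt_cb10 (i j : Fin 11) (u v : PolyK 11) :
    dt (cb 10 u i) (cb 10 v j) = - dt (u i) (v j) := by
  rw [cb_ten_of, cb_ten_of]
  unfold dt
  simp only
  ring

theorem cb_base (b : Fin 11) (hb : b ≠ 10) (u : PolyK 11) :
    cb b u b = (dl u b, 0) ∧ cb b u (b + 1) = (0, dl u b) := by
  rw [cb_of u hb, cb_of u hb, dl_of u hb]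
  unfold dt
  constructor
  · ext
    · simp only
    · simp only
      ring
  · ext
    · simp only
      ring
    · simp only

/-- `c_k` is primitive off the base: a prime dividing both coordinates divides `dl u b` (against `nd`,
as then `p ∣ dt (u b) (u k)`), or `u_k = 0` mod `p` (`dl_b u_k = (c_k)₁ u_b + (c_k)₂ u_(b+1)`) -/
theorem cb_prim (h : IsPt q x u) (b k : Fin 11) (hk : k ∈ nb b) :
    Int.gcd (cb b u k).1 (cb b u k).2 = 1 := by
  unfold nb at hk
  rw [Finset.mem_filter] at hk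
  obtain ⟨_, hk1, hk2⟩ := hk
  by_cases hb10 : b = 10
  · rw [hb10, cb_ten_of]
    simp only
    rw [Int.neg_gcd, Int.gcd_neg, Int.gcd_comm]
    exact vert_prim h k
  by_contra hne
  obtain ⟨p, hp, hpd⟩ := Nat.exists_prime_and_dvd hne
  have hp' : Prime (p : ℤ) := Nat.prime_iff_prime_int.1 hp
  have c1 : (p : ℤ) ∣ (cb b u k).1 :=
    (Int.natCast_dvd_natCast.2 hpd).trans (Int.gcd_dvd_left _ _)
  have c2 : (p : ℤ) ∣ (cb b u k).2 :=
    (Int.natCast_dvd_natCast.2 hpd).trans (Int.gcd_dvd_right _ _)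
  rw [cb_of u hb10] at c1 c2
  simp only at c1 c2
  by_cases hb : (p : ℤ) ∣ dl u b
  · have h1 : p ∣ dn u b := Int.natCast_dvd.1 hb
    have h2 : p ∣ (dt (u b) (u k)).natAbs := Int.natCast_dvd.1 c2
    have := h.nd b k hk1 hk2
    exact hp.one_lt.ne' (Nat.dvd_one.1 (this ▸ Nat.dvd_gcd h1 h2))
  · apply vert_ne h hp k
    rw [dl_of u hb10] at hb
    have e1 : dt (u b) (u (b + 1)) * (u k).1 = dt (u k) (u (b + 1)) * (u b).1 +
        dt (u b) (u k) * (u (b + 1)).1 := by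
      unfold dt; ring
    have e2 : dt (u b) (u (b + 1)) * (u k).2 = dt (u k) (u (b + 1)) * (u b).2 +
        dt (u b) (u k) * (u (b + 1)).2 := by
      unfold dt; ring
    constructor
    · have : (p : ℤ) ∣ dt (u b) (u (b + 1)) * (u k).1 := by
        rw [e1]
        exact dvd_add (c1.mul_right _) (c2.mul_right _)
      exact (hp'.dvd_or_dvd this).resolve_left hb
    · have : (p : ℤ) ∣ dt (u b) (u (b + 1)) * (u k).2 := by
        rw [e2]
        exact dvd_add (c1.mul_right _) (c2.mul_right _)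
      exact (hp'.dvd_or_dvd this).resolve_left hb

end Pool.Agent.PNV
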