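import Pool.Agent.Lib_helper96.PNV.Defs
import Pool.Agent.Lib_helper96.PNV.L.QA1
import Pool.Agent.Lib_helper96.PNV.L.QA3

set_option autoImplicit false

namespace Pool.Agent.PNV

open Finset Pool.Agent.PENT Pool.Agent.PENK Pool.Agent.PNI

variable {q : Prm} {x : ℝ} {u v w : PolyK 11}

/-- BLOCK QA8 (uses QA1 - QA3). The total common part is symmetric: both are the product of all `dil` -/
theorem GT_eq (hu : IsPt q x u) (hv : IsPt q x v) (b : Fin 11) :
    GT b u v = ∏ l, ∏ i, dil b u v i l := by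
  unfold GT
  exact Finset.prod_congr rfl fun l _ => gl_eq hu hv b l

theorem GT_symm (hu : IsPt q x u) (hv : IsPt q x v) (b : Fin 11) : GT b u v = GT b v u := by
  rw [GT_eq hu hv, GT_eq hv hu, Finset.prod_comm]
  refine Finset.prod_congr rfl fun i _ => Finset.prod_congr rfl fun l _ => ?_
  exact dil_symm b i l u v

theorem qa8_f1 : ∀ b : Fin 11, b - 1 ≠ b := by decide
theorem qa8_f2 : ∀ b : Fin 11, b + 1 ≠ b := by decide
theorem qa8_f3 : ∀ b : Fin 11, b + 2 ≠ b := by decide
theorem qa8_f4 : ∀ b : Fin 11, b + 2 ≠ b + 1 := by decide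
theorem qa8_f5 : ∀ b : Fin 11, b + 1 + 1 = b + 2 := by decide

theorem qa8_not {w : PolyK 11} (h : IsPt q x w) {p : ℕ} (hp : p.Prime) (i j : Fin 11)
    (hij : i ≠ j) (h1 : p ∣ dn w i) (h2 : p ∣ dn w j) : False := by
  have h3 := Nat.dvd_gcd h1 h2
  rw [Nat.Coprime.gcd_eq_one (h.co i j hij)] at h3
  exact hp.one_lt.ne' (Nat.dvd_one.mp h3)

theorem qa8_nd {w : PolyK 11} (h : IsPt q x w) {p : ℕ} (hp : p.Prime) (j k : Fin 11)
    (h1 : k ≠ j) (h2 : k ≠ j + 1) (h3 : p ∣ dn w j) (h4 : (p : ℤ) ∣ dt (w j) (w k)) : False := by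
  have h5 : p ∣ (dt (w j) (w k)).natAbs := Int.natCast_dvd.mp h4
  have h6 := Nat.dvd_gcd h3 h5
  rw [Nat.Coprime.gcd_eq_one (h.nd j k h1 h2)] at h6
  exact hp.one_lt.ne' (Nat.dvd_one.mp h6)

theorem qa8_anti (a c : ℤ × ℤ) : dt a c = -dt c a := by
  unfold dt
  ring

theorem qa8_dl {w : PolyK 11} (h : IsPt q x w) {p : ℕ} (hp : p.Prime) (b l : Fin 11)
    (hl : l ≠ b) (h1 : p ∣ dn w l) (z : ℤ) (h2 : (p : ℤ) ∣ z * dl w b) : (p : ℤ) ∣ z := by
  rcases (Nat.prime_iff_prime_int.mp hp).dvd_or_dvd h2 with h3 | h3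
  · exact h3
  · exact (qa8_not h hp l b hl h1 (Int.natCast_dvd.mp h3)).elim

theorem qa8_D {w : PolyK 11} (h : IsPt q x w) {p : ℕ} (hp : p.Prime) (j : Fin 11)
    (h1 : p ∣ dn w j) (h2 : (p : ℤ) ∣ dt (w 10) (w 0)) : False := by
  rw [qa8_anti, dvd_neg] at h2
  have h3 := Nat.dvd_gcd h1 (Int.natCast_dvd.mp h2)
  rw [Nat.Coprime.gcd_eq_one (h.cD j)] at h3
  exact hp.one_lt.ne' (Nat.dvd_one.mp h3)

theorem qa8_m (hu : IsPt q x u) (hv : IsPt q x v) {p : ℕ} (hp : p.Prime) (b i l : Fin 11)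
    (hC : CL b u v i l p) (hl : l = b - 1) : i = b - 1 := by
  obtain ⟨h1, h2, h3⟩ := hC
  have hlb : l ≠ b := by rw [hl]; exact qa8_f1 b
  have hbm : b ∈ vx b l := by
    unfold vx
    rw [if_neg hlb, hl]
    simp
  have key : ∀ m ∈ vx b i, (p : ℤ) ∣ dt (u b) (u m) := by
    intro m hm
    have h4 := h3 m hm b hbm
    by_cases hb10 : b = 10
    · rw [hb10, dt_cb10, dvd_neg, qa8_anti, dvd_neg, hv.f1, ← hu.f1] at h4
      rw [hb10]
      exact h4
    rw [(cb_base b hb10 v).1] at h4
    apply qa8_dl hv hp b l hlb h2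
    have h5 : dt (cb b u m) (dl v b, 0) = -(dt (u b) (u m) * dl v b) := by
      rw [cb_of u hb10]
      generalize dt (u m) (u (b + 1)) = A
      generalize dt (u b) (u m) = B
      unfold dt
      ring
    rw [h5] at h4
    exact (dvd_neg.mp h4)
  by_contra hi
  by_cases hib : i = b
  · have hm : b + 2 ∈ vx b i := by
      unfold vx
      rw [if_pos hib]
      exact Finset.mem_univ _
    exact qa8_nd hu hp b (b + 2) (qa8_f3 b) (qa8_f4 b) (hib ▸ h1) (key _ hm)
  · by_cases hib1 : i = b + 1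
    · have hm : b + 1 ∈ vx b i := by
        unfold vx
        rw [if_neg hib, hib1]
        simp
      have h4 := key _ hm
      by_cases hb10 : b = 10
      · exact qa8_D hu hp i h1 (by
          rw [hb10] at h4
          exact h4)
      rw [← dl_of u hb10] at h4
      exact qa8_not hu hp i b hib h1 (Int.natCast_dvd.mp h4)
    · have hm : i ∈ vx b i := by
        unfold vx
        rw [if_neg hib]
        simp
      have h4 := key _ hm
      rw [qa8_anti, dvd_neg] at h4
      refine qa8_nd hu hp i b (Ne.symm hib) ?_ h1 h4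
      intro h5
      apply hi
      rw [h5]
      simp

theorem qa8_p (hu : IsPt q x u) (hv : IsPt q x v) {p : ℕ} (hp : p.Prime) (b i l : Fin 11)
    (hC : CL b u v i l p) (hl : l = b + 1) : i = b + 1 := by
  obtain ⟨h1, h2, h3⟩ := hC
  have hlb : l ≠ b := by rw [hl]; exact qa8_f2 b
  have hbm : b + 1 ∈ vx b l := by
    unfold vx
    rw [if_neg hlb, hl]
    simp
  have key : ∀ m ∈ vx b i, (p : ℤ) ∣ dt (u m) (u (b + 1)) := by
    intro m hm
    have h4 := h3 m hm (b + 1) hbm
    by_cases hb10 : b = 10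
    · have e : (10 : Fin 11) + 1 = 0 := by decide
      rw [hb10, dt_cb10, dvd_neg, e, hv.f0, ← hu.f0] at h4
      rw [hb10, e]
      exact h4
    rw [(cb_base b hb10 v).2] at h4
    apply qa8_dl hv hp b l hlb h2
    have h5 : dt (cb b u m) (0, dl v b) = dt (u m) (u (b + 1)) * dl v b := by
      rw [cb_of u hb10]
      generalize dt (u m) (u (b + 1)) = A
      generalize dt (u b) (u m) = B
      unfold dt
      ring
    rw [h5] at h4
    exact h4
  by_contra hi
  by_cases hib : i = b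
  · have hm : b + 2 ∈ vx b i := by
      unfold vx
      rw [if_pos hib]
      exact Finset.mem_univ _
    have h4 := key _ hm
    rw [qa8_anti, dvd_neg] at h4
    by_cases hb9 : b + 1 = 10
    · exact qa8_D hu hp i h1 (by
        have e : b + 2 = 0 := by
          rw [← qa8_f5, hb9]
          decide
        rw [hb9, e] at h4
        exact h4)
    have h6 : dt (u (b + 1)) (u (b + 2)) = dl u (b + 1) := by
      rw [dl_of u hb9, qa8_f5]
    rw [h6] at h4
    exact qa8_not hu hp i (b + 1) hi h1 (Int.natCast_dvd.mp h4)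
  · by_cases hib1 : i = b - 1
    · have hm : b ∈ vx b i := by
        unfold vx
        rw [if_neg hib, hib1]
        simp
      have h4 := key _ hm
      by_cases hb10 : b = 10
      · exact qa8_D hu hp i h1 (by
          rw [hb10] at h4
          exact h4)
      rw [← dl_of u hb10] at h4
      exact qa8_not hu hp i b hib h1 (Int.natCast_dvd.mp h4)
    · have hm : i ∈ vx b i := by
        unfold vx
        rw [if_neg hib]
        simp
      have h4 := key _ hm
      refine qa8_nd hu hp i (b + 1) (Ne.symm hi) ?_ h1 h4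
      intro h5
      exact hib (add_right_cancel h5).symm

/-- the common part of all edges but the special ones is symmetric too -/
theorem CL_spec (hu : IsPt q x u) (hv : IsPt q x v) {p : ℕ} (hp : p.Prime) (b i l : Fin 11)
    (hC : CL b u v i l p) : (i = b - 1 ↔ l = b - 1) ∧ (i = b + 1 ↔ l = b + 1) := by
  have hC' := (CL_symm b i l u v p).mp hC
  exact ⟨⟨fun h => qa8_m hv hu hp b l i hC' h, fun h => qa8_m hu hv hp b i l hC h⟩,
    ⟨fun h => qa8_p hv hu hp b l i hC' h, fun h => qa8_p hu hv hp b i l hC h⟩⟩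

theorem qa8_GI (hu : IsPt q x u) (hv : IsPt q x v) (b : Fin 11) :
    GI b u v = ∏ l ∈ ib b, ∏ i ∈ ib b, dil b u v i l := by
  unfold GI
  refine Finset.prod_congr rfl fun l hl => ?_
  rw [gl_eq hu hv b l]
  symm
  apply Finset.prod_subset (Finset.subset_univ _)
  intro i _ hi
  apply dil_one
  intro p hp hC
  have h1 := CL_spec hu hv hp b i l hC
  simp only [ib, mem_filter, mem_univ, true_and, not_and_or, not_not] at hi hl
  rcases hi with hi | hi
  · exact hl.1 (h1.1.mp hi)
  · exact hl.2 (h1.2.mp hi)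

theorem GI_symm (hu : IsPt q x u) (hv : IsPt q x v) (b : Fin 11) : GI b u v = GI b v u := by
  rw [qa8_GI hu hv, qa8_GI hv hu, Finset.prod_comm]
  refine Finset.prod_congr rfl fun i _ => Finset.prod_congr rfl fun l _ => ?_
  exact dil_symm b i l u v

end Pool.Agent.PNV
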