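import Pool.Agent.Lib_helper96.PNV.Defs
import Pool.Agent.Lib_helper96.PNV.L.QA1

set_option autoImplicit false

namespace Pool.Agent.PNV

open Finset Pool.Agent.PENT Pool.Agent.PENK Pool.Agent.PNI

variable {q : Prm} {x : ℝ} {u v w : PolyK 11}

theorem qa7_nr (a : ℤ × ℤ) : (nr a : ℝ) = |(a.1 : ℝ)| + |(a.2 : ℝ)| := by
  unfold nr
  push_cast
  rw [Nat.cast_natAbs, Nat.cast_natAbs]
  push_cast
  rfl

theorem qa7_dn (u : PolyK 11) (l : Fin 11) (hl : l ≠ 10) :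
    (dn u l : ℝ) = |(dt (u l) (u (l + 1)) : ℝ)| := by
  rw [dn_of u hl, Nat.cast_natAbs]
  push_cast
  rfl

theorem qa7_neg (a b : ℤ × ℤ) : dt a b = -dt b a := by
  unfold dt
  ring

theorem qa7_ne (l : Fin 11) : l ≠ l + 1 := by
  revert l
  decide

theorem dt_le_nr (a c : ℤ × ℤ) : |(dt a c : ℝ)| ≤ nr a * nr c := by
  rw [qa7_nr, qa7_nr]
  unfold dt
  push_cast
  have h := abs_sub ((a.1 : ℝ) * c.2) (a.2 * c.1)
  rw [abs_mul, abs_mul] at h
  have h1 : 0 ≤ |(a.1 : ℝ)| * |(c.1 : ℝ)| := mul_nonneg (abs_nonneg _) (abs_nonneg _)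
  have h2 : 0 ≤ |(a.2 : ℝ)| * |(c.2 : ℝ)| := mul_nonneg (abs_nonneg _) (abs_nonneg _)
  nlinarith

theorem one_le_nr (h : IsPt q x u) (j : Fin 11) : (1 : ℝ) ≤ nr (u j) := by
  have h1 : nr (u j) ≠ 0 := by
    intro h0
    have h2 := vert_prim h j
    unfold nr at h0
    have a1 : (u j).1 = 0 := by omega
    have a2 : (u j).2 = 0 := by omega
    rw [a1, a2] at h2
    exact absurd h2 (by decide)
  exact_mod_cast Nat.one_le_iff_ne_zero.2 h1

theorem dn_le_nr (h : IsPt q x u) (l : Fin 11) : (dn u l : ℝ) ≤ nr (u l) * nr (u (l + 1)) := by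
  by_cases hl : l = 10
  · have e : (10 : Fin 11) + 1 = 0 := by decide
    rw [hl, dn10, e]
    push_cast
    nlinarith [one_le_nr h 10, one_le_nr h 0]
  · rw [qa7_dn u l hl]
    exact dt_le_nr _ _

theorem dn_ge_nr (h : IsPt q x u) (l : Fin 11) :
    q.c3 * nr (u l) * nr (u (l + 1)) ≤ (dn u l : ℝ) := by
  by_cases hl : l = 10
  · have e : (10 : Fin 11) + 1 = 0 := by decide
    rw [hl, dn10, e]
    push_cast
    exact h.sc
  · rw [qa7_dn u l hl]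
    exact h.sep l (l + 1) (qa7_ne l)

theorem dt_ne (h : IsPt q x u) (i j : Fin 11) (hij : i ≠ j) : dt (u i) (u j) ≠ 0 := by
  intro h0
  have := h.sg i j hij
  rw [h0] at this
  simp at this

theorem dn_pos (h : IsPt q x u) (l : Fin 11) : 0 < dn u l := by
  by_cases hl : l = 10
  · rw [hl, dn10]
    exact one_pos
  · rw [dn_of u hl]
    exact Int.natAbs_pos.2 (dt_ne h l (l + 1) (qa7_ne l))

theorem dn_ten (_h : IsPt q x u) : dn u 10 = 1 := dn10 u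

/-- the ends are bounded -/
theorem ends_le (hq : q.Ok) (h : IsPt q x u) :
    (nr (u 0) : ℝ) ≤ 1 / q.c3 ∧ (nr (u 10) : ℝ) ≤ 1 / q.c3 := by
  have h0 := one_le_nr h 0
  have h1 := one_le_nr h 10
  have hc := hq.c30
  have hs := h.sc
  constructor
  · rw [le_div_iff₀ hc]
    have : q.c3 * nr (u 0) * 1 ≤ q.c3 * nr (u 0) * nr (u 10) :=
      mul_le_mul_of_nonneg_left h1 (by positivity)
    nlinarith
  · rw [le_div_iff₀ hc]
    have : q.c3 * nr (u 10) * 1 ≤ q.c3 * nr (u 10) * nr (u 0) :=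
      mul_le_mul_of_nonneg_left h0 (by positivity)
    nlinarith

theorem coord_ge (hq : q.Ok) (h : IsPt q x u) (k : Fin 11) (h0 : k ≠ 0) (h1 : k ≠ 10) :
    q.c3 * nr (u k) ≤ |(dt (u k) (u 10) : ℝ)| ∧ q.c3 * nr (u k) ≤ |(dt (u 0) (u k) : ℝ)| := by
  have hc := hq.c30
  have hn : 0 ≤ q.c3 * nr (u k) := mul_nonneg hc.le (Nat.cast_nonneg _)
  constructor
  · have s := h.sep k 10 h1
    refine le_trans ?_ s
    exact le_mul_of_one_le_right hn (one_le_nr h 10)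
  · have s := h.sep 0 k h0.symm
    refine le_trans ?_ s
    nlinarith [one_le_nr h 0, hn]

theorem cb_le (h : IsPt q x u) (b k : Fin 11) :
    |((cb b u k).1 : ℝ)| ≤ nr (u k) * nr (u (b + 1)) ∧
      |((cb b u k).2 : ℝ)| ≤ nr (u b) * nr (u k) := by
  by_cases hb : b = 10
  · have e : (10 : Fin 11) + 1 = 0 := by decide
    rw [hb, cb_ten_of, e]
    have n0 := one_le_nr h 0
    have n1 := one_le_nr h 10
    have h1 := qa7_nr (u k)
    have a1 := abs_nonneg ((u k).1 : ℝ)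
    have a2 := abs_nonneg ((u k).2 : ℝ)
    simp only
    push_cast
    rw [abs_neg, abs_neg]
    constructor
    · have : (nr (u k) : ℝ) * 1 ≤ nr (u k) * nr (u 0) :=
        mul_le_mul_of_nonneg_left n0 (Nat.cast_nonneg _)
      linarith
    · have : 1 * (nr (u k) : ℝ) ≤ nr (u 10) * nr (u k) :=
        mul_le_mul_of_nonneg_right n1 (Nat.cast_nonneg _)
      linarith
  · rw [cb_of _ hb]
    exact ⟨dt_le_nr _ _, dt_le_nr _ _⟩

theorem qa7_siz {I : Fin 11 → ℕ} (hI : Siz I u) (j : Fin 11) :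
    (2 : ℝ) ^ I j ≤ nr (u j) ∧ (nr (u j) : ℝ) ≤ 2 * 2 ^ I j := by
  obtain ⟨h1, h2⟩ := hI j
  constructor
  · exact_mod_cast h1
  · have h3 : (nr (u j) : ℝ) < (2 : ℝ) ^ (I j + 1) := by exact_mod_cast h2
    rw [pow_succ] at h3
    linarith

theorem lo_nonneg (hq : q.Ok) (j : Fin 11) : 0 ≤ q.lo j := by
  by_cases h0 : j = 0
  · rw [h0, hq.l0]
  by_cases h1 : j = 10
  · rw [h1, hq.l10]
  have h2 := hq.pos j h0 h1
  have h4 := hq.ε0
  linarith

theorem hi_nonneg (hq : q.Ok) (j : Fin 11) : 0 ≤ q.hi j := (lo_nonneg hq j).trans (hq.le j)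

theorem hi_zero (hq : q.Ok) : q.hi 0 ≤ q.ε / 50 := by
  have := hq.nar 0 (by decide) (by decide)
  rw [hq.l0] at this
  linarith

theorem hi_ten (hq : q.Ok) : q.hi 10 ≤ q.ε / 50 := by
  have := hq.nar 10 (by decide) (by decide)
  rw [hq.l10] at this
  linarith

/-- the even vertices are tiny, including the ends -/
theorem tiny_all (hq : q.Ok) (e r : Fin 11) (he : e.val % 2 = 0) (hr : r.val % 2 = 1) :
    q.hi e + 4 * q.ε ≤ q.lo r := by
  have h1 := hq.tiny r hr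
  have h2 := hi_nonneg hq 2
  have h4 := hi_nonneg hq 4
  have h6 := hi_nonneg hq 6
  have h8 := hi_nonneg hq 8
  have h0 := hi_zero hq
  have h10 := hi_ten hq
  have p2 := hq.pos 2 (by decide) (by decide)
  have p2' := hq.le 2
  have he0 := hq.ε0
  have h : e = 0 ∨ e = 2 ∨ e = 4 ∨ e = 6 ∨ e = 8 ∨ e = 10 := by
    revert e
    decide
  rcases h with rfl | rfl | rfl | rfl | rfl | rfl <;> linarith

theorem dl_le_nr (h : IsPt q x u) (l : Fin 11) : |(dl u l : ℝ)| ≤ nr (u l) * nr (u (l + 1)) := by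
  have h1 := dn_le_nr h l
  unfold dn at h1
  rw [Nat.cast_natAbs] at h1
  push_cast at h1
  exact h1

theorem two_hi (hq : q.Ok) (hx : 1 ≤ x) (i j : Fin 11) : x ^ q.hi i * x ^ q.hi j ≤ x := by
  have h1 : ∀ j, q.hi j ≤ 1 / 10 := by
    intro j
    refine le_trans ?_ hq.sm
    exact Finset.single_le_sum (f := fun j => q.hi j) (fun i _ => hi_nonneg hq i)
      (Finset.mem_univ j)
  have h2 := h1 i
  have h3 := h1 j
  rw [← Real.rpow_add (by linarith)]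
  calc x ^ (q.hi i + q.hi j) ≤ x ^ (1 : ℝ) := Real.rpow_le_rpow_of_exponent_le hx (by linarith)
    _ = x := Real.rpow_one x

/-- the frame vectors are at most `x` -/
theorem cb_le_x (hq : q.Ok) (hx : 1 ≤ x) (h : IsPt q x u) (b k : Fin 11) :
    |((cb b u k).1 : ℝ)| ≤ x ∧ |((cb b u k).2 : ℝ)| ≤ x := by
  have h1 := cb_le h b k
  have hx0 : 0 < x := by linarith
  have k1 := mul_le_mul (h.hi k) (h.hi (b + 1)) (Nat.cast_nonneg _) (by positivity)
  have k2 := mul_le_mul (h.hi b) (h.hi k) (Nat.cast_nonneg _) (by positivity)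
  exact ⟨h1.1.trans (k1.trans (two_hi hq hx _ _)), h1.2.trans (k2.trans (two_hi hq hx _ _))⟩

theorem natAbs_cast_le {a c : ℤ × ℤ} : (((dt a c).natAbs : ℕ) : ℝ) ≤ nr a * nr c := by
  rw [Nat.cast_natAbs]
  push_cast
  exact dt_le_nr a c

/-- the determinant of the ends is bounded -/
theorem D_le (hq : q.Ok) (h : IsPt q x u) :
    (((dt (u 0) (u 10)).natAbs : ℕ) : ℝ) ≤ 1 / q.c3 := by
  refine natAbs_cast_le.trans ?_
  have hc := hq.c30
  rw [le_div_iff₀ hc]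
  have := h.sc
  linarith

theorem siz_bd (hq : q.Ok) (_hx : 1 ≤ x) (h : IsPt q x u) {I : Fin 11 → ℕ} (hI : Siz I u) :
    (∀ j, x ^ q.lo j / 2 ≤ (2 : ℝ) ^ I j ∧ (2 : ℝ) ^ I j ≤ x ^ q.hi j) ∧
      (2 : ℝ) ^ I 0 ≤ 1 / q.c3 ∧ (2 : ℝ) ^ I 10 ≤ 1 / q.c3 := by
  refine ⟨fun j => ?_, (qa7_siz hI 0).1.trans (ends_le hq h).1,
    (qa7_siz hI 10).1.trans (ends_le hq h).2⟩
  obtain ⟨h1, h2⟩ := qa7_siz hI j
  constructor
  · linarith [h.lo j]
  · linarith [h.hi j]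

theorem dn_siz (h : IsPt q x u) {I : Fin 11 → ℕ} (hI : Siz I u) (l : Fin 11) :
    q.c3 * (2 ^ I l * 2 ^ I (l + 1)) ≤ (dn u l : ℝ) ∧
      (dn u l : ℝ) ≤ 4 * (2 ^ I l * 2 ^ I (l + 1)) := by
  obtain ⟨h1, h2⟩ := qa7_siz hI l
  obtain ⟨h3, h4⟩ := qa7_siz hI (l + 1)
  have p1 : (0 : ℝ) < 2 ^ I l := by positivity
  have p2 : (0 : ℝ) < 2 ^ I (l + 1) := by positivity
  have n1 : (0 : ℝ) ≤ nr (u l) := Nat.cast_nonneg _
  have n2 : (0 : ℝ) ≤ nr (u (l + 1)) := Nat.cast_nonneg _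
  constructor
  · rcases le_or_gt 0 q.c3 with hc | hc
    · refine le_trans ?_ (dn_ge_nr h l)
      rw [mul_assoc]
      exact mul_le_mul_of_nonneg_left (mul_le_mul h1 h3 p2.le n1) hc
    · refine le_trans ?_ (Nat.cast_nonneg _)
      exact mul_nonpos_of_nonpos_of_nonneg hc.le (mul_pos p1 p2).le
  · refine (dn_le_nr h l).trans ?_
    refine (mul_le_mul h2 h4 n2 (by positivity)).trans (le_of_eq ?_)
    ring

theorem qa7_shift (f : Fin 11 → ℝ) : ∏ j, f (j + 1) = ∏ j, f j :=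
  Equiv.prod_comp (Equiv.addRight (1 : Fin 11)) f

theorem DD_siz (hq : q.Ok) (h : IsPt q x u) {I : Fin 11 → ℕ} (hI : Siz I u) :
    q.c3 ^ 11 * ∏ j, ((2 : ℝ) ^ I j) ^ 2 ≤ (DD u : ℝ) := by
  unfold DD
  rw [Nat.cast_prod]
  have e : q.c3 ^ 11 * ∏ j, ((2 : ℝ) ^ I j) ^ 2 =
      ∏ j : Fin 11, (q.c3 * (2 ^ I j * 2 ^ I (j + 1))) := by
    rw [Finset.prod_mul_distrib, Finset.prod_const, Finset.card_univ, Fintype.card_fin,
      Finset.prod_mul_distrib, qa7_shift (fun j => (2 : ℝ) ^ I j), ← Finset.prod_mul_distrib]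
    congr 1
    refine Finset.prod_congr rfl fun j _ => ?_
    ring
  rw [e]
  refine Finset.prod_le_prod (fun j _ => ?_) (fun j _ => (dn_siz h hI j).1)
  have := hq.c30
  positivity

theorem DD_le (hq : q.Ok) (hx : 1 ≤ x) (h : IsPt q x u) : (DD u : ℝ) ≤ x := by
  have hx0 : 0 < x := by linarith
  unfold DD
  rw [Nat.cast_prod]
  have h1 : ∏ j : Fin 11, (dn u j : ℝ) ≤ ∏ j : Fin 11, (x ^ q.hi j * x ^ q.hi (j + 1)) := by
    refine Finset.prod_le_prod (fun j _ => Nat.cast_nonneg _) (fun j _ => ?_)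
    refine (dn_le_nr h j).trans ?_
    exact mul_le_mul (h.hi j) (h.hi (j + 1)) (Nat.cast_nonneg _) (by positivity)
  refine h1.trans ?_
  rw [Finset.prod_mul_distrib, qa7_shift (fun j => x ^ q.hi j), ← Real.rpow_sum_of_pos hx0,
    ← Real.rpow_add hx0]
  have h2 : x ^ (∑ j, q.hi j + ∑ j, q.hi j) ≤ x ^ (1 : ℝ) :=
    Real.rpow_le_rpow_of_exponent_le hx (by linarith [hq.sm])
  rwa [Real.rpow_one] at h2

theorem x_large (hq : q.Ok) (C : ℝ) {θ : ℝ} (hθ : 0 < θ) : ∃ x₀ : ℝ, 1 ≤ x₀ ∧ ∀ x ≥ x₀,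
    C ≤ x ^ θ ∧ ∀ u : PolyK 11, IsPt q x u → ∀ j, j ≠ 0 → j ≠ 10 → C < nr (u j) := by
  have h4 : 0 < 4 * q.ε := by linarith [hq.ε0]
  have t1 := (tendsto_rpow_atTop hθ).eventually_ge_atTop C
  have t2 := (tendsto_rpow_atTop h4).eventually_gt_atTop C
  obtain ⟨x₀, hx₀⟩ := Filter.eventually_atTop.1 (t1.and t2)
  refine ⟨max 1 x₀, le_max_left _ _, fun x hx => ?_⟩
  obtain ⟨k1, k2⟩ := hx₀ x ((le_max_right _ _).trans hx)
  refine ⟨k1, fun u hu j j0 j1 => ?_⟩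
  have hx1 : 1 ≤ x := (le_max_left _ _).trans hx
  calc C < x ^ (4 * q.ε) := k2
    _ ≤ x ^ q.lo j := Real.rpow_le_rpow_of_exponent_le hx1 (hq.pos j j0 j1)
    _ ≤ nr (u j) := hu.lo j

end Pool.Agent.PNV
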