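import Pool.Agent.Lib_helper96.PNV.Defs
import Pool.Agent.Lib_helper96.PNV.L.QA1

set_option autoImplicit false

namespace Pool.Agent.PNV

open Finset Pool.Agent.PENT Pool.Agent.PENK Pool.Agent.PNI

variable {q : Prm} {x : ℝ} {u v w : PolyK 11}

/-- BLOCK QA4 (uses QA1). Frames. -/
theorem cb_zero (u : PolyK 11) (b : Fin 11) (hb : b ≠ 10) :
    cb b u 0 = (dt (u 0) (u (b + 1)), -dt (u 0) (u b)) := by
  rw [cb_of u hb]
  unfold dt
  ext
  · simp only
  · simp only
    ring

theorem cb_ten (u : PolyK 11) (b : Fin 11) (hb : b ≠ 10) :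
    cb b u 10 = (-dt (u (b + 1)) (u 10), dt (u b) (u 10)) := by
  rw [cb_of u hb]
  unfold dt
  ext
  · simp only
    ring
  · simp only

theorem D_ne (h : IsPt q x u) : dt (u 0) (u 10) ≠ 0 := by
  intro h0
  have := h.sg 0 10 (by decide)
  rw [h0] at this
  simp at this

/-- the signs of the coordinates of the vertices -/
theorem coord_pos (h : IsPt q x u) (k : Fin 11) (h0 : k ≠ 0) (h1 : k ≠ 10) :
    0 < q.σ k 10 * dt (u k) (u 10) ∧ 0 < q.σ 0 k * dt (u 0) (u k) :=
  ⟨h.sg k 10 h1, h.sg 0 k h0.symm⟩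

/-- equal absolute values and the same sign -/
theorem sg_abs {s a c : ℤ} (ha : 0 < s * a) (hc : 0 < s * c) (h : a.natAbs = c.natAbs) : a = c := by
  rcases Int.natAbs_eq_natAbs_iff.1 h with h1 | h1
  · exact h1
  · rw [h1] at ha
    nlinarith

/-- the value from the sign -/
theorem sg_val {s a : ℤ} (h : 0 < s * a) : a = s.sign * a.natAbs := by
  rcases lt_trichotomy s 0 with h1 | h1 | h1
  · rw [Int.sign_eq_neg_one_of_neg h1]
    have h2 : a < 0 := by
      by_contra hc
      push Not at hc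
      nlinarith
    omega
  · rw [h1] at h
    simp at h
  · rw [Int.sign_eq_one_of_pos h1]
    have h2 : 0 < a := by
      by_contra hc
      push Not at hc
      nlinarith
    omega

theorem sg_sign {s a : ℤ} (h : 0 < s * a) : s.sign = 1 ∨ s.sign = -1 := by
  rcases lt_trichotomy s 0 with h1 | h1 | h1
  · exact Or.inr (Int.sign_eq_neg_one_of_neg h1)
  · rw [h1] at h
    simp at h
  · exact Or.inl (Int.sign_eq_one_of_pos h1)

/-- a vector is determined by its determinants with two independent vectors -/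
theorem two_ext {a e b c : ℤ × ℤ} (hD : dt a e ≠ 0) (h1 : dt a b = dt a c)
    (h2 : dt b e = dt c e) : b = c := by
  have e1 : ∀ b : ℤ × ℤ, dt a e * b.1 = dt b e * a.1 + dt a b * e.1 := by
    intro b
    unfold dt
    ring
  have e2 : ∀ b : ℤ × ℤ, dt a e * b.2 = dt b e * a.2 + dt a b * e.2 := by
    intro b
    unfold dt
    ring
  refine Prod.ext (mul_left_cancel₀ hD ?_) (mul_left_cancel₀ hD ?_)
  · rw [e1, e1, h1, h2]
  · rw [e2, e2, h1, h2]

/-- a vector is determined by its determinants with the ends -/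
theorem ends_ext (h : IsPt q x u) {a c : ℤ × ℤ} (h1 : dt (u 0) a = dt (u 0) c)
    (h2 : dt a (u 10) = dt c (u 10)) : a = c := two_ext (D_ne h) h1 h2

theorem v0_eq (hv : IsPt q x v) (hw : IsPt q x w) : v 0 = w 0 := by rw [hv.f0, hw.f0]

theorem v10_eq (hv : IsPt q x v) (hw : IsPt q x w) : v 10 = w 10 := by rw [hv.f1, hw.f1]

theorem qa4_n0 : ∀ b : Fin 11, b ≠ 10 → (0 : Fin 11) ≠ b + 1 := by decide

theorem qa4_n10 : ∀ b : Fin 11, b ≠ 9 → (10 : Fin 11) ≠ b + 1 := by decide

theorem qa4_lt : ∀ b : Fin 11, b ≠ 10 → b < b + 1 := by decide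

theorem qa4_dl_ne (h : IsPt q x u) (b : Fin 11) : dl u b ≠ 0 := by
  intro h0
  have h1 := (h.sq b).ne_zero
  apply h1
  unfold dn
  rw [h0]
  rfl

theorem qa4_frame (b k : Fin 11) (hb : b ≠ 10) (u : PolyK 11) :
    dl u b * (u k).1 = (cb b u k).1 * (u b).1 + (cb b u k).2 * (u (b + 1)).1 ∧
    dl u b * (u k).2 = (cb b u k).1 * (u b).2 + (cb b u k).2 * (u (b + 1)).2 := by
  rw [dl_of u hb, cb_of u hb]
  unfold dt
  constructor <;> ring

theorem qa4_base (hv : IsPt q x v) (hw : IsPt q x w) (b : Fin 11)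
    (h : ∀ k ∈ nb b, cb b v k = cb b w k) (hd : dn v b = dn w b) :
    v b = w b ∧ v (b + 1) = w (b + 1) := by
  have hnb : ∀ k : Fin 11, k ≠ b → k ≠ b + 1 → k ∈ nb b := by
    intro k h1 h2
    unfold nb
    rw [Finset.mem_filter]
    exact ⟨Finset.mem_univ k, h1, h2⟩
  have z0 := v0_eq hv hw
  have z10 := v10_eq hv hw
  by_cases hb0 : b = 0
  · subst hb0
    have h2 := h 10 (hnb 10 (by decide) (by decide))
    rw [cb_ten v 0 (by decide), cb_ten w 0 (by decide)] at h2
    have h3 := congrArg Prod.fst h2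
    simp only [neg_inj] at h3
    have h4 : dt (v 0) (v (0 + 1)) = dt (w 0) (w (0 + 1)) := by
      have p1 := (coord_pos hv (0 + 1) (by decide) (by decide)).2
      have p2 := (coord_pos hw (0 + 1) (by decide) (by decide)).2
      rw [dn_of v (by decide), dn_of w (by decide)] at hd
      exact sg_abs p1 p2 hd
    refine ⟨z0, ends_ext hv ?_ ?_⟩
    · rw [h4, z0]
    · rw [h3, z10]
  · by_cases hb10 : b = 10
    · subst hb10
      have e : (10 : Fin 11) + 1 = 0 := by decide
      rw [e]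
      exact ⟨z10, z0⟩
    · by_cases hb9 : b = 9
      · subst hb9
        have e : (9 : Fin 11) + 1 = 10 := by decide
        have h1 : v (9 + 1) = w (9 + 1) := by rw [e]; exact z10
        have h2 := h 0 (hnb 0 (by decide) (by decide))
        rw [cb_zero v 9 (by decide), cb_zero w 9 (by decide)] at h2
        have h3 := congrArg Prod.snd h2
        simp only [neg_inj] at h3
        have h4 : dt (v 9) (v 10) = dt (w 9) (w 10) := by
          have p1 := (coord_pos hv 9 (by decide) (by decide)).1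
          have p2 := (coord_pos hw 9 (by decide) (by decide)).1
          rw [dn_of v (by decide), dn_of w (by decide), e] at hd
          exact sg_abs p1 p2 hd
        refine ⟨ends_ext hv ?_ ?_, h1⟩
        · rw [h3, z0]
        · rw [h4, z10]
      · have n0 : (0 : Fin 11) ≠ b + 1 := qa4_n0 b hb10
        have n10 : (10 : Fin 11) ≠ b + 1 := qa4_n10 b hb9
        have h1 := h 0 (hnb 0 (Ne.symm hb0) n0)
        have h2 := h 10 (hnb 10 (Ne.symm hb10) n10)
        rw [cb_zero v b hb10, cb_zero w b hb10] at h1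
        rw [cb_ten v b hb10, cb_ten w b hb10] at h2
        have a1 := congrArg Prod.fst h1
        have a2 := congrArg Prod.snd h1
        have a3 := congrArg Prod.fst h2
        have a4 := congrArg Prod.snd h2
        simp only [neg_inj] at a1 a2 a3 a4
        refine ⟨ends_ext hv ?_ ?_, ends_ext hv ?_ ?_⟩
        · rw [a2, z0]
        · rw [a4, z10]
        · rw [a1, z0]
        · rw [a3, z10]

/-- `v` is determined by its frame vectors and `dn v b`. If `b ∉ {0, 9, 10}`: `cb_zero`, `cb_ten` give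
`v_b, v_(b+1)`; `b = 0`: `cb_ten` gives `(v_1).1`, `dn v 0 = (v_1).2`; `b = 9`: `dn v 9 = (v_9).1`; `b = 10`:
both are frozen; then `dl v b • v_k = (c_k)₁ v_b + (c_k)₂ v_(b+1)`. -/
theorem pt_inj (hv : IsPt q x v) (hw : IsPt q x w) (b : Fin 11)
    (h : ∀ k ∈ nb b, cb b v k = cb b w k) (hd : dn v b = dn w b) : v = w := by
  obtain ⟨h1, h2⟩ := qa4_base hv hw b h hd
  have h3 : dl v b = dl w b := by
    unfold dl
    rw [h1, h2]
  have hne := qa4_dl_ne hw b
  funext k
  by_cases hk : k = b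
  · rw [hk]
    exact h1
  · by_cases hk1 : k = b + 1
    · rw [hk1]
      exact h2
    · have h4 := h k (by
        unfold nb
        rw [Finset.mem_filter]
        exact ⟨Finset.mem_univ k, hk, hk1⟩)
      by_cases hb10 : b = 10
      · rw [hb10, cb_ten_of, cb_ten_of] at h4
        have a1 := congrArg Prod.fst h4
        have a2 := congrArg Prod.snd h4
        simp only [neg_inj] at a1 a2
        exact Prod.ext a2 a1
      have f1 := qa4_frame b k hb10 v
      have f2 := qa4_frame b k hb10 w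
      rw [h4, h1, h2, h3] at f1
      refine Prod.ext ?_ ?_
      · exact mul_left_cancel₀ hne (f1.1.trans f2.1.symm)
      · exact mul_left_cancel₀ hne (f1.2.trans f2.2.symm)

/-- primitive vectors which are parallel are equal up to sign -/
theorem par_eq {a c : ℤ × ℤ} (ha : Int.gcd a.1 a.2 = 1) (hc : Int.gcd c.1 c.2 = 1)
    (h : dt a c = 0) : a = c ∨ a = -c := by
  have hb := Int.gcd_eq_gcd_ab a.1 a.2
  rw [ha] at hb
  set s := Int.gcdA a.1 a.2
  set t := Int.gcdB a.1 a.2
  push_cast at hb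
  unfold dt at h
  have h1 : c.1 = (s * c.1 + t * c.2) * a.1 := by
    have : c.1 * 1 = c.1 * (a.1 * s + a.2 * t) := by rw [← hb]
    linear_combination this - t * h
  have h2 : c.2 = (s * c.1 + t * c.2) * a.2 := by
    have : c.2 * 1 = c.2 * (a.1 * s + a.2 * t) := by rw [← hb]
    linear_combination this + s * h
  set m := s * c.1 + t * c.2 with hm
  have h3 : m ∣ 1 := by
    have h4 : m ∣ (Int.gcd c.1 c.2 : ℤ) := Int.dvd_coe_gcd ⟨a.1, h1⟩ ⟨a.2, h2⟩
    rw [hc] at h4
    exact_mod_cast h4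
  rcases Int.isUnit_iff.1 (isUnit_of_dvd_one h3) with h5 | h5
  · left
    rw [h5] at h1 h2
    exact Prod.ext (by linarith) (by linarith)
  · right
    rw [h5] at h1 h2
    refine Prod.ext ?_ ?_
    · rw [Prod.fst_neg]
      linarith
    · rw [Prod.snd_neg]
      linarith

theorem dt_self (a : ℤ × ℤ) : dt a a = 0 := by unfold dt; ring

theorem dt_neg_self (a : ℤ × ℤ) : dt a (-a) = 0 := by
  unfold dt
  rw [Prod.fst_neg, Prod.snd_neg]
  ring

theorem dt_neg_self' (a : ℤ × ℤ) : dt (-a) a = 0 := by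
  unfold dt
  rw [Prod.fst_neg, Prod.snd_neg]
  ring

theorem dt_anti (a c : ℤ × ℤ) : dt c a = -dt a c := by unfold dt; ring

theorem dt_neg_left (a c : ℤ × ℤ) : dt (-a) c = -dt a c := by
  unfold dt
  rw [Prod.fst_neg, Prod.snd_neg]
  ring

theorem dt_neg_right (a c : ℤ × ℤ) : dt a (-c) = -dt a c := by
  unfold dt
  rw [Prod.fst_neg, Prod.snd_neg]
  ring

/-- the frames agree, `1 ≤ b ≤ 8` (or any `b ≠ 10` when both ends are off the base) -/
theorem frame_mid (hu : IsPt q x u) (hv : IsPt q x v) (b : Fin 11) (hb : b ≠ 0) (hb9 : b ≠ 9)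
    (hb10 : b ≠ 10)
    (h0 : cb b v 0 = cb b u 0 ∨ cb b v 0 = cb b u 10 ∨ cb b v 0 = -cb b u 10)
    (h10 : cb b v 10 = cb b u 10 ∨ cb b v 10 = cb b u 0 ∨ cb b v 10 = -cb b u 0) :
    v b = u b ∧ v (b + 1) = u (b + 1) := by
  have z0 := v0_eq hv hu
  have z10 := v10_eq hv hu
  have hD := D_ne hu
  have hne : dt (cb b v 0) (cb b v 10) ≠ 0 := by
    rw [dt_cb]
    exact mul_ne_zero (qa4_dl_ne hv b) (D_ne hv)
  rcases h0 with h0 | h0
  · rcases h10 with h10 | h10 | h10
    · rw [cb_zero v b hb10, cb_zero u b hb10, z0] at h0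
      rw [cb_ten v b hb10, cb_ten u b hb10, z10] at h10
      have a1 := congrArg Prod.fst h0
      have a2 := congrArg Prod.snd h0
      have a3 := congrArg Prod.fst h10
      have a4 := congrArg Prod.snd h10
      simp only [neg_inj] at a1 a2 a3 a4
      exact ⟨ends_ext hu a2 a4, ends_ext hu a1 a3⟩
    · exact absurd (by rw [h0, h10, dt_self]) hne
    · exact absurd (by rw [h0, h10, dt_neg_self]) hne
  rcases h10 with h10 | h10
  · rcases h0 with h0 | h0
    · exact absurd (by rw [h0, h10, dt_self]) hne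
    · exact absurd (by rw [h0, h10, dt_neg_self']) hne
  exfalso
  -- the mixed case: the signs of the coordinates of `u_(b+1)`, `v_(b+1)`
  have hb1 : b + 1 ≠ 0 := by
    clear h0 h10 hne hb hb9
    revert b
    decide
  have hb2 : b + 1 ≠ 10 := by
    clear h0 h10 hne hb hb10 hb1
    revert b
    decide
  have p1 := (coord_pos hu (b + 1) hb1 hb2).1
  have p2 := (coord_pos hv (b + 1) hb1 hb2).1
  have p3 := (coord_pos hu (b + 1) hb1 hb2).2
  have p4 := (coord_pos hv (b + 1) hb1 hb2).2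
  rw [z10] at p2
  rw [z0] at p4
  have c0 : (cb b v 0).1 = dt (u 0) (v (b + 1)) := by rw [cb_zero v b hb10, z0]
  have c0' : (cb b u 0).1 = dt (u 0) (u (b + 1)) := by rw [cb_zero u b hb10]
  have c10 : (cb b v 10).1 = -dt (v (b + 1)) (u 10) := by rw [cb_ten v b hb10, z10]
  have c10' : (cb b u 10).1 = -dt (u (b + 1)) (u 10) := by rw [cb_ten u b hb10]
  have key : dt (cb b v 0) (cb b v 10) = dl v b * dt (u 0) (u 10) := by
    rw [dt_cb, z0, z10]
  have key' : dt (cb b u 10) (cb b u 0) = -(dl u b * dt (u 0) (u 10)) := by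
    rw [dt_cb, dt_anti]
    ring
  have hsv := hv.sg b (b + 1) (qa4_lt b hb10).ne
  have hsu := hu.sg b (b + 1) (qa4_lt b hb10).ne
  rw [← dl_of v hb10] at hsv
  rw [← dl_of u hb10] at hsu
  set X := dt (u (b + 1)) (u 10)
  set X' := dt (v (b + 1)) (u 10)
  set Y := dt (u 0) (u (b + 1))
  set Y' := dt (u 0) (v (b + 1))
  set D := dt (u 0) (u 10)
  have hXX : 0 < X * X' := by
    rcases lt_trichotomy (q.σ (b + 1) 10) 0 with h | h | h
    · have a1 : X < 0 := by nlinarith
      have a2 : X' < 0 := by nlinarith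
      exact mul_pos_of_neg_of_neg a1 a2
    · rw [h] at p1
      simp at p1
    · have a1 : 0 < X := by nlinarith
      have a2 : 0 < X' := by nlinarith
      exact mul_pos a1 a2
  have hYY : 0 < Y * Y' := by
    rcases lt_trichotomy (q.σ 0 (b + 1)) 0 with h | h | h
    · have a1 : Y < 0 := by nlinarith
      have a2 : Y' < 0 := by nlinarith
      exact mul_pos_of_neg_of_neg a1 a2
    · rw [h] at p3
      simp at p3
    · have a1 : 0 < Y := by nlinarith
      have a2 : 0 < Y' := by nlinarith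
      exact mul_pos a1 a2
  have hXY : 0 < (X * X') * (Y * Y') := mul_pos hXX hYY
  have same : ∀ {s : ℤ}, 0 < s * dl v b → 0 < s * dl u b → dl v b = -dl u b → False := by
    intro s h1 h2 h3
    rw [h3] at h1
    nlinarith
  rcases h0 with h0 | h0 <;> rcases h10 with h10 | h10
  · -- `+ +`
    have k1 : dl v b * D = -(dl u b * D) := by rw [← key, ← key', h0, h10]
    have k2 : D * (dl v b + dl u b) = 0 := by linarith
    rcases mul_eq_zero.1 k2 with k3 | k3
    · exact hD k3
    · exact same hsv hsu (by linarith)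
  · -- `+ -`
    have a1 : Y' = -X := by rw [← c0, h0, c10']
    have a2 : -X' = -Y := by rw [← c10, h10, Prod.fst_neg, c0']
    have a3 : X' = Y := by linarith
    rw [a1, a3] at hXY
    nlinarith [sq_nonneg (X * Y)]
  · have a1 : Y' = X := by
      rw [← c0, h0, Prod.fst_neg, c10', neg_neg]
    have a2 : -X' = Y := by rw [← c10, h10, c0']
    have a3 : X' = -Y := by linarith
    rw [a1, a3] at hXY
    nlinarith [sq_nonneg (X * Y)]
  · have k1 : dl v b * D = -(dl u b * D) := by
      rw [← key, ← key', h0, h10, dt_neg_left, dt_neg_right, neg_neg]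
    have k2 : D * (dl v b + dl u b) = 0 := by linarith
    rcases mul_eq_zero.1 k2 with k3 | k3
    · exact hD k3
    · exact same hsv hsu (by linarith)

/-- the frames agree, `b = 0`: `dt (c_9) (c_10) = dn 0 * dn 9`, `dt (c_8) (c_9) = dn 0 * dn 8`; with
`dn v 0 / dn u 0 = a / c` in lowest terms `a ∣ dn u 9`, `a ∣ dn u 8`, so `a = 1`; in the same way `c = 1`;
then `cb_ten` -/
theorem frame_zero (hu : IsPt q x u) (hv : IsPt q x v) (h10 : cb 0 v 10 = cb 0 u 10)
    (h9 : cb 0 v 9 = cb 0 u 9) (h8 : cb 0 v 8 = cb 0 u 8) : v 0 = u 0 ∧ v 1 = u 1 := by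
  have z0 := v0_eq hv hu
  have z10 := v10_eq hv hu
  refine ⟨z0, ?_⟩
  have g1 : ∀ w : PolyK 11, (dt (cb 0 w 9) (cb 0 w 10)).natAbs = dn w 0 * dn w 9 := by
    intro w
    rw [dt_cb, Int.natAbs_mul, dn_of w (j := 9) (by decide)]
    rfl
  have g2 : ∀ w : PolyK 11, (dt (cb 0 w 8) (cb 0 w 9)).natAbs = dn w 0 * dn w 8 := by
    intro w
    rw [dt_cb, Int.natAbs_mul, dn_of w (j := 8) (by decide)]
    rfl
  have g3 : ∀ w : PolyK 11, IsPt q x w →
      Nat.gcd (dn w 0 * dn w 9) (dn w 0 * dn w 8) = dn w 0 := by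
    intro w hw
    rw [Nat.gcd_mul_left, Nat.Coprime.gcd_eq_one (hw.co 9 8 (by decide)), mul_one]
  have hd : dn v 0 = dn u 0 := by
    rw [← g3 v hv, ← g3 u hu, ← g1, ← g2, ← g1, ← g2, h10, h9, h8]
  have h1 := h10
  rw [cb_ten v 0 (by decide), cb_ten u 0 (by decide)] at h1
  have h3 := congrArg Prod.fst h1
  simp only [neg_inj] at h3
  have e1 : (0 : Fin 11) + 1 = 1 := by decide
  rw [e1] at h3
  have p1 := (coord_pos hv 1 (by decide) (by decide)).2
  have p2 := (coord_pos hu 1 (by decide) (by decide)).2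
  rw [dn_of v (by decide), dn_of u (by decide), e1] at hd
  refine ends_ext hu ?_ ?_
  · have h4 := sg_abs p1 p2 hd
    rw [z0] at h4
    exact h4
  · rw [z10] at h3
    exact h3

end Pool.Agent.PNV
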