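import Pool.Agent.Lib_helper96.PNV.Defs
import Pool.Agent.Lib_helper96.PNV.L.QA7
import Pool.Agent.Lib_helper96.PNI.L.QC7

/-! Block QC7: the crude count in multiplicative form, from the old block -/

set_option autoImplicit false

namespace Pool.Agent.PNV

open Finset Pool.Agent.PENT Pool.Agent.PENK Pool.Agent.PNI

variable {q : Prm} {x : ℝ} {u v w : PolyK 11}

/-- the old parameters -/
noncomputable def Prm.old (q : Prm) : PNI.Prm where
  lo := q.lo
  hi := fun j => if j = 0 ∨ j = 10 then 0 else q.hi j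
  ε := q.ε
  c3 := q.c3

theorem old_hi (hq : q.Ok) (j : Fin 11) : q.old.hi j ≤ q.hi j := by
  unfold Prm.old
  simp only
  split_ifs
  · exact hi_nonneg hq j
  · exact le_rfl

theorem old_hi' {j : Fin 11} (h0 : j ≠ 0) (h1 : j ≠ 10) : q.old.hi j = q.hi j := by
  unfold Prm.old
  simp only
  rw [if_neg (by tauto)]

theorem old_ok (hq : q.Ok) : q.old.Ok where
  ε0 := hq.ε0
  c30 := hq.c30
  c31 := hq.c31
  l0 := hq.l0
  h0 := by
    unfold Prm.old
    simp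
  l10 := hq.l10
  h10 := by
    unfold Prm.old
    simp
  le := by
    intro j
    show q.lo j ≤ (if j = 0 ∨ j = 10 then 0 else q.hi j)
    split_ifs with h
    · rcases h with rfl | rfl
      · exact hq.l0.le
      · exact hq.l10.le
    · exact hq.le j
  sm := (Finset.sum_le_sum fun j _ => old_hi hq j).trans hq.sm
  pos := hq.pos
  nar := fun j h1 h9 => (old_hi hq j).trans (hq.nar j h1 h9)
  tiny := by
    intro o ho
    rw [old_hi' (by decide) (by decide), old_hi' (by decide) (by decide),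
      old_hi' (by decide) (by decide), old_hi' (by decide) (by decide)]
    exact hq.tiny o ho
  big := by
    intro i o e hi ho he
    have h1 := hq.big i o e hi ho he
    have h2 := old_hi hq o
    have h3 := old_hi hq e
    show q.old.hi o + q.old.hi e + 4 * q.ε ≤ 2 * q.lo i
    linarith

/-- the cell with `I 0 = I 10 = 0` -/
def cut (I : Fin 11 → ℕ) (j : Fin 11) : ℕ := if j = 0 ∨ j = 10 then 0 else I j

/-- the reduced common part -/
def red (n : ℕ) (G : Fin 11 → ℕ) (l : Fin 11) : ℕ := max 1 (G l / n)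

theorem cut_le (I : Fin 11 → ℕ) (j : Fin 11) : (2 : ℝ) ^ cut I j ≤ 2 ^ I j := by
  unfold cut
  split_ifs
  · rw [pow_zero]
    exact one_le_pow₀ (by norm_num)
  · exact le_rfl

theorem cut_ge {V : ℝ} (hV : 1 ≤ V) {I : Fin 11 → ℕ} (h0 : (2 : ℝ) ^ I 0 ≤ V)
    (h10 : (2 : ℝ) ^ I 10 ≤ V) (j : Fin 11) : (2 : ℝ) ^ I j ≤ V * 2 ^ cut I j := by
  unfold cut
  split_ifs with h
  · rw [pow_zero, mul_one]
    rcases h with rfl | rfl
    · exact h0
    · exact h10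
  · exact le_mul_of_one_le_left (by positivity) hV

theorem red_one (n : ℕ) (G : Fin 11 → ℕ) (l : Fin 11) : 1 ≤ red n G l := le_max_left _ _

theorem red_le {n : ℕ} {G : Fin 11 → ℕ} (hG : ∀ l, 1 ≤ G l) (l : Fin 11) :
    (red n G l : ℝ) ≤ G l := by
  have : red n G l ≤ G l := by
    unfold red
    exact max_le (hG l) (Nat.div_le_self _ _)
  exact_mod_cast this

theorem red_ge {n : ℕ} (hn : 1 ≤ n) (G : Fin 11 → ℕ) (l : Fin 11) :
    (G l : ℝ) ≤ 2 * n * red n G l := by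
  have h1 : G l < n * (G l / n + 1) := Nat.lt_mul_div_succ _ (by omega)
  have h2 : G l / n + 1 ≤ 2 * red n G l := by
    unfold red
    have a := le_max_left 1 (G l / n)
    have b := le_max_right 1 (G l / n)
    omega
  have h3 : G l ≤ n * (2 * red n G l) := h1.le.trans (Nat.mul_le_mul_left _ h2)
  have h4 : (G l : ℝ) ≤ n * (2 * red n G l) := by exact_mod_cast h3
  linarith

theorem red_siz {V : ℝ} (hV : 1 ≤ V) {n : ℕ} (hn : V ^ 2 ≤ n) {I G : Fin 11 → ℕ}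
    (h0 : (2 : ℝ) ^ I 0 ≤ V) (h10 : (2 : ℝ) ^ I 10 ≤ V)
    (hG4 : ∀ l, (G l : ℝ) ≤ 4 * (2 ^ I l * 2 ^ I (l + 1))) (l : Fin 11) :
    (red n G l : ℝ) ≤ 4 * (2 ^ cut I l * 2 ^ cut I (l + 1)) := by
  have hV0 : 0 < V := by linarith
  have hn0 : (0 : ℝ) < n := by nlinarith
  have p1 : (1 : ℝ) ≤ 2 ^ cut I l := one_le_pow₀ (by norm_num)
  have p2 : (1 : ℝ) ≤ 2 ^ cut I (l + 1) := one_le_pow₀ (by norm_num)
  have p3 : (1 : ℝ) ≤ 2 ^ cut I l * 2 ^ cut I (l + 1) := one_le_mul_of_one_le_of_one_le p1 p2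
  unfold red
  rw [Nat.cast_max, Nat.cast_one]
  refine max_le (by linarith) ?_
  have h1 : ((G l / n : ℕ) : ℝ) ≤ G l / n := Nat.cast_div_le
  refine h1.trans ?_
  rw [div_le_iff₀ hn0]
  have a1 := cut_ge hV h0 h10 l
  have a2 := cut_ge hV h0 h10 (l + 1)
  have a3 : (2 : ℝ) ^ I l * 2 ^ I (l + 1) ≤ (V * 2 ^ cut I l) * (V * 2 ^ cut I (l + 1)) :=
    mul_le_mul a1 a2 (by positivity) (by positivity)
  have a4 : (V * 2 ^ cut I l) * (V * 2 ^ cut I (l + 1)) =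
      V ^ 2 * (2 ^ cut I l * 2 ^ cut I (l + 1)) := by ring
  have a5 : V ^ 2 * (2 ^ cut I l * 2 ^ cut I (l + 1)) ≤ n * (2 ^ cut I l * 2 ^ cut I (l + 1)) :=
    mul_le_mul_of_nonneg_right hn (by linarith)
  have := hG4 l
  linarith

theorem Rt_cut {V : ℝ} (hV : 1 ≤ V) {n : ℕ} {I G : Fin 11 → ℕ} (hG : ∀ l, 1 ≤ G l)
    (h0 : (2 : ℝ) ^ I 0 ≤ V) (h10 : (2 : ℝ) ^ I 10 ≤ V) (b y z l : Fin 11) :
    Rt b y z I G l ≤ V ^ 4 * Rt b y z (cut I) (red n G) l := by
  have hV0 : 0 < V := by linarith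
  have hr : ∀ l, (0 : ℝ) < red n G l := fun l => by exact_mod_cast red_one n G l
  have hg : ∀ l, (0 : ℝ) < G l := fun l => by exact_mod_cast hG l
  have hc : ∀ l, (2 : ℝ) ^ I l ≤ V * 2 ^ cut I l := cut_ge hV h0 h10
  have hle : ∀ l, (red n G l : ℝ) ≤ G l := red_le hG
  have hV2 : (1 : ℝ) ≤ V ^ 2 := one_le_pow₀ hV
  have hV4 : (1 : ℝ) ≤ V ^ 4 := one_le_pow₀ hV
  unfold Rt
  split_ifs with h
  · have e1 : (2 : ℝ) ^ I b * 2 ^ I (b + 1) * (2 ^ I l) ^ 2 ≤
        V ^ 4 * (2 ^ cut I b * 2 ^ cut I (b + 1) * (2 ^ cut I l) ^ 2) := by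
      calc (2 : ℝ) ^ I b * 2 ^ I (b + 1) * (2 ^ I l) ^ 2 ≤
          (V * 2 ^ cut I b) * (V * 2 ^ cut I (b + 1)) * (V * 2 ^ cut I l) ^ 2 := by
            have := hc b
            have := hc (b + 1)
            have := hc l
            gcongr
        _ = _ := by ring
    have e2 : (2 : ℝ) ^ I b * 2 ^ I (b + 1) * (2 ^ I l) ^ 2 / (G b * G (l - 1) * G l) ≤
        V ^ 4 * (2 ^ cut I b * 2 ^ cut I (b + 1) * (2 ^ cut I l) ^ 2) /
          (red n G b * red n G (l - 1) * red n G l) := by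
      apply div_le_div₀ (by positivity) e1
      · have a1 := hr b
        have a2 := hr (l - 1)
        have a3 := hr l
        positivity
      · have a1 := hr b
        have a2 := hr (l - 1)
        have a3 := hr l
        have b1 := hle b
        have b2 := hle (l - 1)
        have b3 := hle l
        gcongr
    rw [mul_add, mul_one]
    rw [← mul_div_assoc]
    linarith
  · have e1 : ((2 : ℝ) ^ I l) ^ 2 ≤ V ^ 4 * (2 ^ cut I l) ^ 2 := by
      calc ((2 : ℝ) ^ I l) ^ 2 ≤ (V * 2 ^ cut I l) ^ 2 := by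
            have := hc l
            gcongr
        _ = V ^ 2 * (2 ^ cut I l) ^ 2 := by ring
        _ ≤ V ^ 4 * (2 ^ cut I l) ^ 2 := by
            apply mul_le_mul_of_nonneg_right _ (by positivity)
            exact pow_le_pow_right₀ hV (by norm_num)
    have e2 : ((2 : ℝ) ^ I l) ^ 2 / ((G (l - 1) : ℝ) * G l) ≤
        V ^ 4 * (2 ^ cut I l) ^ 2 / ((red n G (l - 1) : ℝ) * red n G l) := by
      apply div_le_div₀ (by positivity) e1
      · have a2 := hr (l - 1)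
        have a3 := hr l
        positivity
      · have a2 := hr (l - 1)
        have a3 := hr l
        have b2 := hle (l - 1)
        have b3 := hle l
        gcongr
    rw [mul_add, mul_one]
    rw [← mul_div_assoc]
    linarith

/-- the comparison of the whole product -/
theorem prod_cut {V : ℝ} (hV : 1 ≤ V) {n : ℕ} (hn : 1 ≤ n) {I G : Fin 11 → ℕ}
    (hG : ∀ l, 1 ≤ G l) (h0 : (2 : ℝ) ^ I 0 ≤ V) (h10 : (2 : ℝ) ^ I 10 ≤ V) (b y z : Fin 11) :
    (∏ l, ((G l : ℝ) / (2 ^ I l * 2 ^ I (l + 1)))) * ∏ l ∈ nb b, Rt b y z I G l ≤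
      ((2 * n) ^ 11 * (V ^ 4) ^ 11) *
        ((∏ l, ((red n G l : ℝ) / (2 ^ cut I l * 2 ^ cut I (l + 1)))) *
          ∏ l ∈ nb b, Rt b y z (cut I) (red n G) l) := by
  have hV0 : 0 < V := by linarith
  have hn0 : (1 : ℝ) ≤ n := by exact_mod_cast hn
  have hV4 : (1 : ℝ) ≤ V ^ 4 := one_le_pow₀ hV
  have h1 : (∏ l, ((G l : ℝ) / (2 ^ I l * 2 ^ I (l + 1)))) ≤
      (2 * n) ^ 11 * ∏ l, ((red n G l : ℝ) / (2 ^ cut I l * 2 ^ cut I (l + 1))) := by
    have : (2 * (n : ℝ)) ^ 11 = ∏ _l : Fin 11, (2 * (n : ℝ)) := by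
      rw [Finset.prod_const, Finset.card_univ, Fintype.card_fin]
    rw [this, ← Finset.prod_mul_distrib]
    apply Finset.prod_le_prod
    · intro i _
      positivity
    · intro l _
      rw [← mul_div_assoc]
      apply div_le_div₀ (by positivity) (red_ge hn G l) (by positivity)
      have a1 := cut_le I l
      have a2 := cut_le I (l + 1)
      gcongr
  have h2 : ∏ l ∈ nb b, Rt b y z I G l ≤
      (V ^ 4) ^ 11 * ∏ l ∈ nb b, Rt b y z (cut I) (red n G) l := by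
    calc ∏ l ∈ nb b, Rt b y z I G l ≤ ∏ l ∈ nb b, (V ^ 4 * Rt b y z (cut I) (red n G) l) := by
          apply Finset.prod_le_prod
          · intro i _
            exact qc7_rt0 _ _ _ _ _ _
          · intro i _
            exact Rt_cut hV hG h0 h10 b y z i
      _ = (V ^ 4) ^ (nb b).card * ∏ l ∈ nb b, Rt b y z (cut I) (red n G) l := by
          rw [Finset.prod_mul_distrib, Finset.prod_const]
      _ ≤ _ := by
          apply mul_le_mul_of_nonneg_right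
          · apply pow_le_pow_right₀ hV4
            calc (nb b).card ≤ (Finset.univ : Finset (Fin 11)).card :=
                  Finset.card_le_card (Finset.subset_univ _)
              _ = 11 := by simp
          · exact Finset.prod_nonneg fun i _ => qc7_rt0 _ _ _ _ _ _
  calc _ ≤ ((2 * n) ^ 11 * ∏ l, ((red n G l : ℝ) / (2 ^ cut I l * 2 ^ cut I (l + 1)))) *
        ((V ^ 4) ^ 11 * ∏ l ∈ nb b, Rt b y z (cut I) (red n G) l) := by
        apply mul_le_mul h1 h2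
        · exact Finset.prod_nonneg fun i _ => qc7_rt0 _ _ _ _ _ _
        · positivity
    _ = _ := by ring

theorem cut_bd (I : Fin 11 → ℕ) (hq : q.Ok)
    (hI : ∀ j, x ^ q.lo j / 2 ≤ (2 : ℝ) ^ I j ∧ (2 : ℝ) ^ I j ≤ x ^ q.hi j) (j : Fin 11) :
    x ^ q.old.lo j / 2 ≤ (2 : ℝ) ^ cut I j ∧ (2 : ℝ) ^ cut I j ≤ x ^ q.old.hi j := by
  unfold cut
  by_cases h : j = 0 ∨ j = 10
  · rw [if_pos h, pow_zero]
    have e1 : q.old.lo j = 0 := by
      show q.lo j = 0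
      rcases h with rfl | rfl
      · exact hq.l0
      · exact hq.l10
    have e2 : q.old.hi j = 0 := by
      unfold Prm.old
      simp only
      rw [if_pos h]
    rw [e1, e2, Real.rpow_zero]
    norm_num
  · rw [if_neg h, old_hi' (by tauto) (by tauto)]
    exact hI j

theorem cut_zero (I : Fin 11 → ℕ) : cut I 0 = 0 ∧ cut I 10 = 0 := by
  unfold cut
  simp

/-- BLOCK QC7 -/
theorem ratio_le (hq : q.Ok) {θ : ℝ} (hθ : 0 < θ) : ∃ x₀ : ℝ, 2 ≤ x₀ ∧ ∀ x ≥ x₀, ∀ (b : Fin 11)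
    (I G : Fin 11 → ℕ), (∀ j, x ^ q.lo j / 2 ≤ (2 : ℝ) ^ I j ∧ (2 : ℝ) ^ I j ≤ x ^ q.hi j) →
    (2 : ℝ) ^ I 0 ≤ 1 / q.c3 → (2 : ℝ) ^ I 10 ≤ 1 / q.c3 → (∀ l, 1 ≤ G l) →
    (∀ l, (G l : ℝ) ≤ 4 * (2 ^ I l * 2 ^ I (l + 1))) →
    (∏ l, ((G l : ℝ) / (2 ^ I l * 2 ^ I (l + 1)))) * ∏ l ∈ nb b, Rt b (b - 1) (b + 2) I G l ≤
      x ^ θ := by
  have hc := hq.c30
  have hV : 1 ≤ 1 / q.c3 := by
    rw [le_div_iff₀ hc]
    linarith [hq.c31]
  set V : ℝ := 1 / q.c3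
  set n : ℕ := ⌈V ^ 2⌉₊
  have hn : V ^ 2 ≤ n := Nat.le_ceil _
  have hn1 : 1 ≤ n := by
    have h1 : (1 : ℝ) ≤ n := (one_le_pow₀ hV).trans hn
    exact_mod_cast h1
  obtain ⟨x1, hx1, h1⟩ := PNI.ratio_le (old_ok hq) (θ := θ / 2) (by linarith)
  obtain ⟨x2, hx2, h2⟩ := qc7_big ((2 * n) ^ 11 * (V ^ 4) ^ 11) (θ := θ / 2) (by linarith)
  refine ⟨max x1 x2, le_trans hx1 (le_max_left _ _), ?_⟩
  intro x hx b I G hI h0 h10 hG hG4
  have hxx1 : x1 ≤ x := le_trans (le_max_left _ _) hx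
  have hxx2 : x2 ≤ x := le_trans (le_max_right _ _) hx
  have hx0 : 0 < x := by linarith
  have h3 := h1 x hxx1 b (cut I) (red n G) (cut_bd I hq hI) (cut_zero I).1 (cut_zero I).2
    (red_one n G) (red_siz hV hn h0 h10 hG4)
  refine (prod_cut hV hn1 hG h0 h10 b (b - 1) (b + 2)).trans ?_
  calc ((2 * n) ^ 11 * (V ^ 4) ^ 11) *
        ((∏ l, ((red n G l : ℝ) / (2 ^ cut I l * 2 ^ cut I (l + 1)))) *
          ∏ l ∈ nb b, Rt b (b - 1) (b + 2) (cut I) (red n G) l) ≤ x ^ (θ / 2) * x ^ (θ / 2) := by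
        apply mul_le_mul (h2 x hxx2) h3
        · apply mul_nonneg
          · exact Finset.prod_nonneg fun i _ => by positivity
          · exact Finset.prod_nonneg fun i _ => qc7_rt0 _ _ _ _ _ _
        · positivity
    _ = x ^ θ := by
        rw [← Real.rpow_add hx0]
        congr 1
        ring

theorem ratio_gap (hq : q.Ok) : ∃ c x₀ : ℝ, 0 < c ∧ 2 ≤ x₀ ∧ ∀ x ≥ x₀, ∀ (b : Fin 11)
    (I G : Fin 11 → ℕ), (∀ j, x ^ q.lo j / 2 ≤ (2 : ℝ) ^ I j ∧ (2 : ℝ) ^ I j ≤ x ^ q.hi j) →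
    (2 : ℝ) ^ I 0 ≤ 1 / q.c3 → (2 : ℝ) ^ I 10 ≤ 1 / q.c3 → (∀ l, 1 ≤ G l) →
    (∀ l, (G l : ℝ) ≤ 4 * (2 ^ I l * 2 ^ I (l + 1))) →
    (∃ l ∈ ib b, x ^ (q.ε / 76) < (G l : ℝ)) →
    (∃ l, x ^ (q.ε / 14) * (G l : ℝ) < 2 ^ I l * 2 ^ I (l + 1)) →
    ∃ y ∈ nb b, ∃ z ∈ nb b, y ≠ z ∧
      (∏ l, ((G l : ℝ) / (2 ^ I l * 2 ^ I (l + 1)))) * ∏ l ∈ nb b, Rt b y z I G l ≤ x ^ (-c) := by
  have hc := hq.c30
  have hε := hq.ε0
  have hV : 1 ≤ 1 / q.c3 := by
    rw [le_div_iff₀ hc]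
    linarith [hq.c31]
  set V : ℝ := 1 / q.c3
  have hV0 : 0 < V := by linarith
  set n : ℕ := ⌈V ^ 2⌉₊
  have hn : V ^ 2 ≤ n := Nat.le_ceil _
  have hn1 : 1 ≤ n := by
    have h1 : (1 : ℝ) ≤ n := (one_le_pow₀ hV).trans hn
    exact_mod_cast h1
  have hn0 : (0 : ℝ) < n := by exact_mod_cast hn1
  obtain ⟨c, x1, hc0, hx1, h1⟩ := PNI.ratio_gap (old_ok hq)
  obtain ⟨x2, hx2, h2⟩ := qc7_big ((2 * n) ^ 11 * (V ^ 4) ^ 11) (θ := c / 2) (by linarith)
  obtain ⟨x3, hx3, h3⟩ := qc7_big (2 * n) (θ := q.ε / 76 - q.ε / 80) (by linarith)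
  obtain ⟨x4, hx4, h4⟩ := qc7_big (V ^ 2) (θ := q.ε / 14 - q.ε / 15) (by linarith)
  refine ⟨c / 2, max (max x1 x2) (max x3 x4), by linarith,
    le_trans hx1 ((le_max_left _ _).trans (le_max_left _ _)), ?_⟩
  intro x hx b I G hI h0 h10 hG hG4 hA hB
  have hxx1 : x1 ≤ x := ((le_max_left _ _).trans (le_max_left _ _)).trans hx
  have hxx2 : x2 ≤ x := ((le_max_right _ _).trans (le_max_left _ _)).trans hx
  have hxx3 : x3 ≤ x := ((le_max_left _ _).trans (le_max_right _ _)).trans hx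
  have hxx4 : x4 ≤ x := ((le_max_right _ _).trans (le_max_right _ _)).trans hx
  have hx0 : 0 < x := by linarith
  obtain ⟨y, hy, z, hz, hyz, h5⟩ := h1 x hxx1 b (cut I) (red n G) (cut_bd I hq hI) (cut_zero I).1
    (cut_zero I).2 (red_one n G) (red_siz hV hn h0 h10 hG4) (by
      obtain ⟨l, hl, h6⟩ := hA
      refine ⟨l, hl, ?_⟩
      have h7 := red_ge hn1 G l
      have h8 := h3 x hxx3
      have h9 : x ^ (q.ε / 76) = x ^ (q.ε / 76 - q.ε / 80) * x ^ (q.ε / 80) := by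
        rw [← Real.rpow_add hx0]
        congr 1
        ring
      have h10 : 2 * n * x ^ (q.ε / 80) ≤ x ^ (q.ε / 76) := by
        rw [h9]
        exact mul_le_mul_of_nonneg_right h8 (by positivity)
      have h11 : 2 * n * x ^ (q.ε / 80) < 2 * n * red n G l :=
        lt_of_le_of_lt h10 (lt_of_lt_of_le h6 h7)
      exact lt_of_mul_lt_mul_left h11 (by positivity)) (by
      obtain ⟨l, h6⟩ := hB
      refine ⟨l, ?_⟩
      show x ^ (q.ε / 15) * _ < _
      have h7 := red_le (n := n) hG l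
      have h8 := h4 x hxx4
      have a1 := cut_ge hV h0 h10 l
      have a2 := cut_ge hV h0 h10 (l + 1)
      have a3 : (2 : ℝ) ^ I l * 2 ^ I (l + 1) ≤ (V * 2 ^ cut I l) * (V * 2 ^ cut I (l + 1)) :=
        mul_le_mul a1 a2 (by positivity) (by positivity)
      have a4 : (V * 2 ^ cut I l) * (V * 2 ^ cut I (l + 1)) =
          V ^ 2 * (2 ^ cut I l * 2 ^ cut I (l + 1)) := by ring
      have h9 : x ^ (q.ε / 14) = x ^ (q.ε / 14 - q.ε / 15) * x ^ (q.ε / 15) := by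
        rw [← Real.rpow_add hx0]
        congr 1
        ring
      have h10 : V ^ 2 * (x ^ (q.ε / 15) * red n G l) ≤ x ^ (q.ε / 14) * G l := by
        rw [h9, ← mul_assoc]
        apply mul_le_mul _ h7 (Nat.cast_nonneg _) (by positivity)
        exact mul_le_mul_of_nonneg_right h8 (by positivity)
      have h11 : V ^ 2 * (x ^ (q.ε / 15) * red n G l) <
          V ^ 2 * (2 ^ cut I l * 2 ^ cut I (l + 1)) := by
        rw [← a4]
        exact lt_of_le_of_lt h10 (lt_of_lt_of_le h6 a3)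
      exact lt_of_mul_lt_mul_left h11 (by positivity))
  refine ⟨y, hy, z, hz, hyz, ?_⟩
  refine (prod_cut hV hn1 hG h0 h10 b y z).trans ?_
  calc ((2 * n) ^ 11 * (V ^ 4) ^ 11) *
        ((∏ l, ((red n G l : ℝ) / (2 ^ cut I l * 2 ^ cut I (l + 1)))) *
          ∏ l ∈ nb b, Rt b y z (cut I) (red n G) l) ≤ x ^ (c / 2) * x ^ (-c) := by
        apply mul_le_mul (h2 x hxx2) h5
        · apply mul_nonneg
          · exact Finset.prod_nonneg fun i _ => by positivity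
          · exact Finset.prod_nonneg fun i _ => qc7_rt0 _ _ _ _ _ _
        · positivity
    _ = x ^ (-(c / 2)) := by
        rw [← Real.rpow_add hx0]
        congr 1
        ring

end Pool.Agent.PNV
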