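import Pool.Agent.Lib_helper96.PNV.Defs
import Pool.Agent.Lib_helper96.PNI.L.PD

/-! PNI block QN1 (helper99) -/

set_option autoImplicit false

namespace Pool.Agent.PNV

open Finset Pool.Agent.PENT Pool.Agent.PENK Pool.Agent.PNI

/-- BLOCK QN1. Fibre counting -/
theorem card_fib {α β : Type} [DecidableEq β] (S : Finset α) (f : α → β) (n N : ℝ) (hN : 0 ≤ N)
    (h1 : ((S.image f).card : ℝ) ≤ n)
    (h2 : ∀ b ∈ S.image f, ((S.filter (fun a => f a = b)).card : ℝ) ≤ N) :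
    (S.card : ℝ) ≤ n * N := by
  rw [Finset.card_eq_sum_card_image f S]
  push_cast
  calc ∑ b ∈ S.image f, ((S.filter (fun a => f a = b)).card : ℝ)
      ≤ ∑ _b ∈ S.image f, N := Finset.sum_le_sum h2
    _ = ((S.image f).card : ℝ) * N := by rw [Finset.sum_const, nsmul_eq_mul]
    _ ≤ n * N := mul_le_mul_of_nonneg_right h1 hN

/-- vectors of given size -/
theorem card_vec (n : ℕ) (S : Finset (ℤ × ℤ)) (hS : ∀ v ∈ S, nr v < 2 ^ (n + 1)) :
    (S.card : ℝ) ≤ 25 * ((2 : ℝ) ^ n) ^ 2 := by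
  set M : ℕ := 2 ^ (n + 1) with hM
  have hsub : S ⊆ (Icc (-(M : ℤ)) M) ×ˢ (Icc (-(M : ℤ)) M) := by
    intro v hv
    have h := hS v hv
    unfold nr at h
    rw [Finset.mem_product, Finset.mem_Icc, Finset.mem_Icc]
    omega
  have hc := Finset.card_le_card hsub
  rw [Finset.card_product, Int.card_Icc] at hc
  have e : ((M : ℤ) + 1 - -(M : ℤ)).toNat = 2 * M + 1 := by omega
  rw [e] at hc
  have hc' : (S.card : ℝ) ≤ (2 * (M : ℝ) + 1) * (2 * (M : ℝ) + 1) := by exact_mod_cast hc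
  have hM' : (M : ℝ) = 2 * 2 ^ n := by
    rw [hM]
    push_cast
    rw [pow_succ]
    ring
  have h1 : (1 : ℝ) ≤ 2 ^ n := one_le_pow₀ (by norm_num)
  rw [hM'] at hc'
  nlinarith

/-- the lattice lemma (PD1 of helper18's W/D.lean) with a fixed vector `z`: all `w ∈ S` are primitive and
parallel to the primitive `z` modulo the squarefree `J`, but not parallel to `z`. Then `J ≤ |dt z w| ≤ 2 A B`
absorbs the constant. -/
theorem card_par (S : Finset (ℤ × ℤ)) (A B J : ℕ) (hA : 1 ≤ A) (hB : 1 ≤ B) (z : ℤ × ℤ)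
    (hz : Int.gcd z.1 z.2 = 1) (hJ : Squarefree J) (hzA : z.1.natAbs ≤ A) (hzB : z.2.natAbs ≤ B)
    (hp : ∀ w ∈ S, Int.gcd w.1 w.2 = 1) (h1 : ∀ w ∈ S, w.1.natAbs ≤ A)
    (h2 : ∀ w ∈ S, w.2.natAbs ≤ B) (hd : ∀ w ∈ S, (J : ℤ) ∣ dt z w ∧ dt z w ≠ 0) :
    (S.card : ℝ) ≤ 20 * A * B / J := by
  have hJ1 : 1 ≤ J := Nat.one_le_iff_ne_zero.mpr hJ.ne_zero
  have hJ0 : (0 : ℝ) < J := by exact_mod_cast hJ1
  rcases S.eq_empty_or_nonempty with rfl | ⟨w0, hw0⟩
  · rw [Finset.card_empty]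
    push_cast
    positivity
  · have hdd : ∀ v ∈ S, ∀ w ∈ S, (J : ℤ) ∣ dt v w := by
      intro v hv w hw
      have a1 : (J : ℤ) ∣ z.1 * dt v w := by
        have e : z.1 * dt v w = v.1 * dt z w - w.1 * dt z v := by
          unfold dt
          ring
        rw [e]
        exact dvd_sub (Dvd.dvd.mul_left (hd w hw).1 _) (Dvd.dvd.mul_left (hd v hv).1 _)
      have a2 : (J : ℤ) ∣ z.2 * dt v w := by
        have e : z.2 * dt v w = v.2 * dt z w - w.2 * dt z v := by
          unfold dt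
          ring
        rw [e]
        exact dvd_sub (Dvd.dvd.mul_left (hd w hw).1 _) (Dvd.dvd.mul_left (hd v hv).1 _)
      obtain ⟨s, t, hst⟩ := Int.isCoprime_iff_gcd_eq_one.mpr hz
      have e : dt v w = s * (z.1 * dt v w) + t * (z.2 * dt v w) := by
        linear_combination (-(dt v w)) * hst
      rw [e]
      exact dvd_add (Dvd.dvd.mul_left a1 _) (Dvd.dvd.mul_left a2 _)
    have hL := lattice_lemma S A B J hA hB hJ1 hp h1 h2 hdd
    have hle : J ≤ 2 * A * B := by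
      have b1 : J ≤ (dt z w0).natAbs := by
        have := Int.natAbs_dvd_natAbs.mpr (hd w0 hw0).1
        rw [Int.natAbs_natCast] at this
        exact Nat.le_of_dvd (Int.natAbs_pos.mpr (hd w0 hw0).2) this
      have b2 : (dt z w0).natAbs ≤ z.1.natAbs * w0.2.natAbs + z.2.natAbs * w0.1.natAbs := by
        unfold dt
        rw [← Int.natAbs_mul, ← Int.natAbs_mul]
        exact Int.natAbs_sub_le _ _
      have b3 : z.1.natAbs * w0.2.natAbs ≤ A * B := Nat.mul_le_mul hzA (h2 w0 hw0)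
      have b4 : z.2.natAbs * w0.1.natAbs ≤ B * A := Nat.mul_le_mul hzB (h1 w0 hw0)
      have b5 : B * A = A * B := Nat.mul_comm _ _
      have b6 : 2 * A * B = A * B + A * B := by ring
      omega
    have hle' : (J : ℝ) ≤ 2 * A * B := by exact_mod_cast hle
    refine hL.trans ?_
    have h6 : (6 : ℝ) ≤ 12 * A * B / J := by
      rw [le_div_iff₀ hJ0]
      linarith
    calc 8 * (A : ℝ) * B / J + 6 ≤ 8 * (A : ℝ) * B / J + 12 * A * B / J := by linarith
      _ = 20 * A * B / J := by ring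

end Pool.Agent.PNV
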