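import Pool.Agent.Lib_helper96.PNV.Defs
import Pool.Agent.Lib_helper96.PNV.L.QA1
import Pool.Agent.Lib_helper96.PNV.L.QA3

/-! Block QA5 -/

set_option autoImplicit false

namespace Pool.Agent.PNV

open Finset Pool.Agent.PENT Pool.Agent.PENK Pool.Agent.PNI

variable {q : Prm} {x : ℝ} {u v w : PolyK 11}

theorem qa5_dn_ten (_h : IsPt q x u) : dn u 10 = 1 := dn10 u

theorem qa5_not_ten (h : IsPt q x u) {p : ℕ} (hp : p.Prime) {i : Fin 11} (hi : p ∣ dn u i) :
    i ≠ 10 := by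
  rintro rfl
  rw [qa5_dn_ten h] at hi
  exact hp.one_lt.ne' (Nat.dvd_one.mp hi)

theorem qa5_uniq (h : IsPt q x u) {p : ℕ} (hp : p.Prime) {i l : Fin 11} (hi : p ∣ dn u i)
    (hl : p ∣ dn u l) : i = l := by
  by_contra hne
  have h1 := h.co i l hne
  have h2 := Nat.dvd_gcd hi hl
  rw [h1] at h2
  exact hp.one_lt.ne' (Nat.dvd_one.mp h2)

theorem CL_ten (hu : IsPt q x u) (hv : IsPt q x v) {p : ℕ} (hp : p.Prime) (b i l : Fin 11)
    (h0 : v b = u b) (h1 : v (b + 1) = u (b + 1)) (h : CL b u v i l p) : CL 10 u v i l p := by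
  obtain ⟨hi, hl, hd⟩ := h
  have hi10 := qa5_not_ten hu hp hi
  have hl10 := qa5_not_ten hv hp hl
  refine ⟨hi, hl, ?_⟩
  intro m hm m' hm'
  rw [dt_cb10, dvd_neg]
  unfold vx at hm hm'
  rw [if_neg hi10] at hm
  rw [if_neg hl10] at hm'
  have hdl : dl v b = dl u b := by unfold dl; rw [h0, h1]
  have hdn : dn v b = dn u b := by unfold dn; rw [hdl]
  by_cases hb : p ∣ dn u b
  · have hib : i = b := qa5_uniq hu hp hi hb
    have hlb : l = b := qa5_uniq hv hp hl (by rw [hdn]; exact hb)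
    rw [hib] at hm
    rw [hlb] at hm'
    have hbz : (p : ℤ) ∣ dl u b := Int.natCast_dvd.mpr hb
    have hbz' : (p : ℤ) ∣ dt (u b) (u (b + 1)) := by
      rw [← dl_of u (ten_of_dvd hp hb)]
      exact hbz
    rw [mem_insert, mem_singleton] at hm hm'
    have z0 : dt (u b) (u b) = 0 := by unfold dt; ring
    have z1 : dt (u (b + 1)) (u (b + 1)) = 0 := by unfold dt; ring
    have z2 : dt (u (b + 1)) (u b) = -dt (u b) (u (b + 1)) := by unfold dt; ring
    rcases hm with hm | hm <;> rcases hm' with hm' | hm' <;> rw [hm, hm']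
    · rw [h0, z0]
      exact dvd_zero _
    · rw [h1]
      exact hbz'
    · rw [h0, z2]
      exact hbz'.neg_right
    · rw [h1, z1]
      exact dvd_zero _
  · have hib : i ≠ b := by rintro rfl; exact hb hi
    have hlb : l ≠ b := by rintro rfl; exact hb (by rw [← hdn]; exact hl)
    have hmm := hd m (by unfold vx; rw [if_neg hib]; exact hm) m'
      (by unfold vx; rw [if_neg hlb]; exact hm')
    rw [dt_cb2 b m m' u v h0 h1] at hmm
    rcases (Nat.prime_iff_prime_int.mp hp).dvd_or_dvd hmm with h | h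
    · exact absurd (Int.natCast_dvd.mp h) hb
    · exact h

theorem qa5_gl_le {b l : Fin 11} (hu : IsPt q x u) (hv : IsPt q x v)
    (h0 : v b = u b) (h1 : v (b + 1) = u (b + 1)) : gl b u v l ≤ gl 10 u v l := by
  classical
  have hdvd : gl b u v l ∣ gl 10 u v l := by
    unfold gl
    refine Finset.prod_dvd_prod_of_subset _ _ _ ?_
    intro p hp
    rw [mem_filter] at hp ⊢
    obtain ⟨hp1, i, hi⟩ := hp
    exact ⟨hp1, i, CL_ten hu hv (Nat.prime_of_mem_primeFactors hp1) b i l h0 h1 hi⟩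
  exact Nat.le_of_dvd (gl_pos 10 l u v) hdvd

theorem qa5_mono {A c : ℝ} {g g' : ℕ} (hA : 0 < A) (h : A ≤ c * g) (hg : g ≤ g') :
    A ≤ c * g' := by
  have hc : 0 ≤ c := by
    by_contra hneg
    push Not at hneg
    have : c * (g : ℝ) ≤ 0 := mul_nonpos_of_nonpos_of_nonneg hneg.le (Nat.cast_nonneg _)
    linarith
  refine h.trans (mul_le_mul_of_nonneg_left ?_ hc)
  exact_mod_cast hg

theorem NP_ten {b : Fin 11} (h : NP q x b u v) (h0 : v b = u b) (h1 : v (b + 1) = u (b + 1)) :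
    NP q x 10 u v := by
  refine ⟨h.pu, h.pv, ?_, ?_⟩
  · intro l
    have hpos : (0 : ℝ) < dn u l := by
      exact_mod_cast Nat.pos_of_ne_zero (h.pu.sq l).ne_zero
    exact qa5_mono hpos (h.nu l) (qa5_gl_le h.pv h.pu h0.symm h1.symm)
  · intro l
    have hpos : (0 : ℝ) < dn v l := by
      exact_mod_cast Nat.pos_of_ne_zero (h.pv.sq l).ne_zero
    exact qa5_mono hpos (h.nv l) (qa5_gl_le h.pu h.pv h0 h1)

end Pool.Agent.PNV
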