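import Pool.Agent.Lib_helper96.PNV.Defs
import Pool.Agent.Lib_helper96.PNV.L.QA1

/-! Block QA6 -/

set_option autoImplicit false

namespace Pool.Agent.PNV

open Finset Pool.Agent.PENT Pool.Agent.PENK Pool.Agent.PNI

variable {q : Prm} {x : ℝ} {u v w : PolyK 11}

theorem qa6_dt (u v : PolyK 11) (i j : Fin 11) :
    dt (rf u i) (rf v j) = dt (v (10 - j)) (u (10 - i)) := by
  unfold dt rf
  ring

theorem qa6_nr (u : PolyK 11) (i : Fin 11) : nr (rf u i) = nr (u (10 - i)) := by
  unfold nr rf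
  exact Nat.add_comm _ _

theorem qa6_a (j : Fin 11) : 10 - (j + 1) = 9 - j := by revert j; decide

theorem qa6_b (j : Fin 11) : 9 - j + 1 = 10 - j := by revert j; decide

theorem qa6_c (j : Fin 11) : 10 - (9 - j) = j + 1 := by revert j; decide

theorem qa6_lt (i j : Fin 11) (h : i < j) : 10 - j < 10 - i := by revert i j; decide

/-- BLOCK QA6 (uses QA3). The reflection. `dt (rf u i) (rf u j) = dt (u (10 - j)) (u (10 - i))`. -/
theorem rf_rf (u : PolyK 11) : rf (rf u) = u := by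
  funext j
  unfold rf
  simp only [sub_sub_cancel]

theorem qa6_ten (j : Fin 11) (h : j ≠ 10) : 9 - j ≠ 10 := by revert j; decide

theorem rf_dn (u : PolyK 11) (j : Fin 11) : dn (rf u) j = dn u (9 - j) := by
  by_cases hj : j = 10
  · rw [hj, dn10]
    exact (dn10 u).symm
  rw [dn_of _ hj, dn_of _ (qa6_ten j hj), qa6_dt, qa6_a, qa6_b]

theorem rf_pt (h : IsPt q x u) : IsPt q.rv x (rf u) := by
  have e0 : (10 : Fin 11) - 0 = 10 := by decide
  have e1 : (10 : Fin 11) - 10 = 0 := by decide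
  refine ⟨?_, ?_, ?_, ?_, ?_, ?_, ?_, ?_, ?_, ?_, ?_, ?_, ?_⟩
  · unfold rf Prm.rv
    rw [e0, h.f1]
  · unfold rf Prm.rv
    rw [e1, h.f0]
  · unfold rf
    rw [e0, Int.gcd_comm]
    exact h.p1
  · unfold rf
    rw [e1, Int.gcd_comm]
    exact h.p0
  · intro j
    rw [qa6_nr]
    exact h.lo (10 - j)
  · intro j
    rw [qa6_nr]
    exact h.hi (10 - j)
  · intro i j hij
    rw [qa6_dt]
    exact h.sg _ _ (fun hh => hij (sub_right_injective hh).symm)
  · intro i j hij
    rw [qa6_dt, qa6_nr, qa6_nr]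
    have hne : (10 : Fin 11) - j ≠ 10 - i := fun hh => hij (sub_right_injective hh).symm
    have h1 := h.sep _ _ hne
    change q.c3 * _ * _ ≤ _
    rw [mul_right_comm]
    exact h1
  · intro j
    rw [rf_dn]
    exact h.sq _
  · intro i j hij
    rw [rf_dn, rf_dn]
    exact h.co _ _ (fun hh => hij (sub_right_injective hh))
  · intro j k h1 h2
    rw [rf_dn, qa6_dt]
    have h3 : (10 : Fin 11) - k ≠ 9 - j := by
      rw [← qa6_a]
      exact fun hh => h2 (sub_right_injective hh)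
    have h4 : (10 : Fin 11) - k ≠ 9 - j + 1 := by
      rw [qa6_b]
      exact fun hh => h1 (sub_right_injective hh)
    have h5 := IsPt.nd' h (9 - j) (10 - k) h3 h4
    rw [qa6_b] at h5
    have h6 : dt (u (10 - k)) (u (10 - j)) = -dt (u (10 - j)) (u (10 - k)) := by
      unfold dt; ring
    rw [h6, Int.natAbs_neg]
    exact h5
  · intro j
    rw [rf_dn, qa6_dt, e0, e1]
    exact h.cD _
  · rw [qa6_nr, qa6_nr, e0, e1]
    change q.c3 * _ * _ ≤ _
    rw [mul_right_comm]
    exact h.sc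

theorem rf_cb (b k : Fin 11) (u : PolyK 11) :
    cb (9 - b) (rf u) (10 - k) = ((cb b u k).2, (cb b u k).1) := by
  by_cases hb : b = 10
  · have e : (9 : Fin 11) - 10 = 10 := by decide
    rw [hb, e, cb_ten_of, cb_ten_of]
    unfold rf
    rw [sub_sub_cancel]
  rw [cb_of _ (qa6_ten b hb), cb_of _ hb, qa6_dt, qa6_dt, qa6_b, sub_sub_cancel, sub_sub_cancel,
    qa6_c]

theorem qa6_vx (b i m : Fin 11) (h : m ∈ vx (9 - b) (9 - i)) : 10 - m ∈ vx b i := by
  unfold vx at h ⊢
  by_cases hib : i = b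
  · rw [if_pos hib]
    exact mem_univ _
  · rw [if_neg hib]
    rw [if_neg (fun hh => hib (sub_right_injective hh)), mem_insert, mem_singleton] at h
    rw [mem_insert, mem_singleton]
    rcases h with h | h
    · right
      rw [h, qa6_c]
    · left
      rw [h, qa6_b, sub_sub_cancel]

theorem qa6_CL (b i l : Fin 11) (u v : PolyK 11) (p : ℕ) (h : CL b u v i l p) :
    CL (9 - b) (rf u) (rf v) (9 - i) (9 - l) p := by
  obtain ⟨h1, h2, h3⟩ := h
  refine ⟨?_, ?_, ?_⟩
  · rw [rf_dn, sub_sub_cancel]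
    exact h1
  · rw [rf_dn, sub_sub_cancel]
    exact h2
  · intro m hm m' hm'
    have h4 := h3 (10 - m) (qa6_vx b i m hm) (10 - m') (qa6_vx b l m' hm')
    have e1 := rf_cb b (10 - m) u
    have e2 := rf_cb b (10 - m') v
    rw [sub_sub_cancel] at e1 e2
    rw [e1, e2]
    have e3 : dt ((cb b u (10 - m)).2, (cb b u (10 - m)).1)
        ((cb b v (10 - m')).2, (cb b v (10 - m')).1) =
        -dt (cb b u (10 - m)) (cb b v (10 - m')) := by
      unfold dt
      simp only
      ring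
    rw [e3]
    exact h4.neg_right

theorem rf_CL (b i l : Fin 11) (u v : PolyK 11) (p : ℕ) :
    CL (9 - b) (rf u) (rf v) (9 - i) (9 - l) p ↔ CL b u v i l p := by
  constructor
  · intro h
    have h1 := qa6_CL _ _ _ _ _ _ h
    rw [sub_sub_cancel, sub_sub_cancel, sub_sub_cancel, rf_rf, rf_rf] at h1
    exact h1
  · exact qa6_CL b i l u v p

theorem rf_gl (b l : Fin 11) (u v : PolyK 11) :
    gl (9 - b) (rf u) (rf v) (9 - l) = gl b u v l := by
  classical
  unfold gl
  rw [rf_dn, sub_sub_cancel]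
  refine Finset.prod_congr ?_ (fun _ _ => rfl)
  ext p
  rw [mem_filter, mem_filter]
  constructor
  · rintro ⟨h1, i, hi⟩
    refine ⟨h1, 9 - i, ?_⟩
    rw [← rf_CL, sub_sub_cancel]
    exact hi
  · rintro ⟨h1, i, hi⟩
    exact ⟨h1, 9 - i, (rf_CL b i l u v p).mpr hi⟩

end Pool.Agent.PNV
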