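import Pool.Agent.Lib_helper96.PNV.Defs
import Pool.Agent.Lib_helper96.PNV.L.QA1
import Pool.Agent.Lib_helper96.PNV.L.QA3
import Pool.Agent.Lib_helper96.PNV.L.QA4
import Pool.Agent.Lib_helper96.PNV.L.QA7
import Pool.Agent.Lib_helper96.PNV.L.QN3

/-! PNI block QN4 (helper41): the first different vertex -/

set_option autoImplicit false

namespace Pool.Agent.PNV

open Finset Pool.Agent.PENT Pool.Agent.PENK Pool.Agent.PNI

variable {q : Prm} {x : ℝ} {u v w : PolyK 11}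

theorem qn4_par {a z : ℤ × ℤ} (ha : Int.gcd a.1 a.2 = 1) (h : dt a z = 0) :
    ∃ t : ℤ, z.1 = t * a.1 ∧ z.2 = t * a.2 := by
  obtain ⟨s, s', hs⟩ := Int.isCoprime_iff_gcd_eq_one.2 ha
  unfold dt at h
  refine ⟨s * z.1 + s' * z.2, ?_, ?_⟩
  · linear_combination (-z.1) * hs - s' * h
  · linear_combination (-z.2) * hs + s * h

theorem qn4_hi (hq : q.Ok) (j : Fin 11) : 0 ≤ q.hi j := hi_nonneg hq j

theorem qn4_tiny (hq : q.Ok) (e r : Fin 11) (he : e.val % 2 = 0) (hr : r.val % 2 = 1) :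
    q.hi e + 4 * q.ε ≤ q.lo r := tiny_all hq e r he hr

/-- the quotient of `dn u l` by the common part is small -/
theorem qn4_quo {l : Fin 11} {X : ℝ} {D : ℕ} (hu : IsPt q x u) (hD : D ∣ dn u l)
    (h : (dn u l : ℝ) ≤ X * D) : ∃ m : ℕ, dn u l = D * m ∧ 0 < m ∧ (m : ℝ) ≤ X := by
  obtain ⟨m, hm⟩ := hD
  have h0 := dn_pos hu l
  have hD0 : 0 < D := by
    rcases Nat.eq_zero_or_pos D with h1 | h1
    · rw [h1, zero_mul] at hm
      omega
    · exact h1
  have hm0 : 0 < m := by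
    rcases Nat.eq_zero_or_pos m with h1 | h1
    · rw [h1, mul_zero] at hm
      omega
    · exact h1
  refine ⟨m, hm, hm0, ?_⟩
  rw [hm] at h
  push_cast at h
  have h2 : (0 : ℝ) < D := by exact_mod_cast hD0
  have h3 : (D : ℝ) * m ≤ D * X := by linarith
  exact le_of_mul_le_mul_left h3 h2

theorem qn4_f (l : Fin 11) : l ≠ l + 1 := by revert l; decide

theorem qn4_dl (hu : IsPt q x u) (l : Fin 11) (hl : l ≠ 10) :
    dt (u l) (u (l + 1)) = (q.σ l (l + 1)).sign * (dn u l : ℤ) := by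
  rw [dn_of u hl]
  exact sg_val (hu.sg l (l + 1) (qn4_f l))

theorem qn4_sg (hu : IsPt q x u) (l : Fin 11) :
    (q.σ l (l + 1)).sign = 1 ∨ (q.σ l (l + 1)).sign = -1 := sg_sign (hu.sg l (l + 1) (qn4_f l))

theorem qn4_prim {a b : ℤ × ℤ} (ha : Int.gcd a.1 a.2 = 1) (hb : Int.gcd b.1 b.2 = 1) {m m' : ℕ}
    (hm : 0 < m) (h1 : (m' : ℤ) * a.1 = m * b.1) (h2 : (m' : ℤ) * a.2 = m * b.2) : b = a := by
  have h3 : m' = m := by
    have k1 : Int.gcd ((m' : ℤ) * a.1) ((m' : ℤ) * a.2) = m' := by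
      rw [Int.gcd_mul_left, ha, mul_one, Int.natAbs_natCast]
    have k2 : Int.gcd ((m : ℤ) * b.1) ((m : ℤ) * b.2) = m := by
      rw [Int.gcd_mul_left, hb, mul_one, Int.natAbs_natCast]
    rw [h1, h2, k2] at k1
    exact k1.symm
  have hm' : (m : ℤ) ≠ 0 := by exact_mod_cast hm.ne'
  rw [h3] at h1 h2
  exact Prod.ext (mul_left_cancel₀ hm' h1).symm (mul_left_cancel₀ hm' h2).symm

/-- the first different vertex is not even -/
theorem qn4_even (hq : q.Ok) (hx : 1 ≤ x) (hx2 : 2 < x ^ q.ε) (h : NP q x 10 u v) (r : Fin 11)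
    (hr : r = 2 ∨ r = 4 ∨ r = 6 ∨ r = 8) (he : ∀ j < r, v j = u j) : v r = u r := by
  have hx0 : 0 < x := by linarith
  obtain ⟨r0, r10, r1, r2, r3, r4, r5⟩ : r ≠ 0 ∧ r ≠ 10 ∧ r - 1 + 1 = r ∧ r - 1 < r ∧
      r - 1 ≠ 10 ∧ r.val % 2 = 0 ∧ (r - 1).val % 2 = 1 := by
    rcases hr with rfl | rfl | rfl | rfl <;> decide
  have hu := h.pu
  have hv := h.pv
  obtain ⟨e1, e2⟩ := edge_r1 hu hv r r0 r10 he
  have n1 := h.nv (r - 1)
  have n2 := h.nu (r - 1)
  rw [e1] at n1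
  rw [e2] at n2
  obtain ⟨m, hm, m0, m1⟩ := qn4_quo hu (dil_dvd 10 (r - 1) (r - 1) u v).1 n2
  obtain ⟨m', hm', m0', m1'⟩ := qn4_quo hv (dil_dvd 10 (r - 1) (r - 1) u v).2 n1
  set D : ℕ := dil 10 u v (r - 1) (r - 1)
  set sg : ℤ := (q.σ (r - 1) r).sign with hsg
  have d1 : dt (u (r - 1)) (u r) = sg * (D * m) := by
    have := qn4_dl hu (r - 1) r3
    rw [r1, hm] at this
    rw [this]
    push_cast
    ring
  have d2 : dt (u (r - 1)) (v r) = sg * (D * m') := by
    have := qn4_dl hv (r - 1) r3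
    rw [r1, hm', he _ r2] at this
    rw [this]
    push_cast
    ring
  obtain ⟨t, t1, t2⟩ := qn4_par (z := ((m' : ℤ) * (u r).1 - m * (v r).1,
      (m' : ℤ) * (u r).2 - m * (v r).2)) (vert_prim hu (r - 1)) (by
    unfold dt at d1 d2 ⊢
    simp only
    linear_combination (m' : ℤ) * d1 - (m : ℤ) * d2)
  simp only at t1 t2
  by_cases ht : t = 0
  · rw [ht] at t1 t2
    exact qn4_prim (m' := m') (vert_prim hu r) (vert_prim hv r) m0 (by linarith) (by linarith)
  exfalso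
  -- the size
  have k1 : (nr (u (r - 1)) : ℝ) ≤ m' * nr (u r) + m * nr (v r) := by
    have hz : nr (u (r - 1)) ≤ m' * nr (u r) + m * nr (v r) := by
      have c1 : (u (r - 1)).1.natAbs ≤ m' * (u r).1.natAbs + m * (v r).1.natAbs := by
        have b1 : (u (r - 1)).1.natAbs ≤ (t * (u (r - 1)).1).natAbs := by
          rw [Int.natAbs_mul]
          exact Nat.le_mul_of_pos_left _ (Int.natAbs_pos.2 ht)
        rw [← t1] at b1
        refine b1.trans ((Int.natAbs_sub_le _ _).trans ?_)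
        rw [Int.natAbs_mul, Int.natAbs_mul, Int.natAbs_natCast, Int.natAbs_natCast]
      have c2 : (u (r - 1)).2.natAbs ≤ m' * (u r).2.natAbs + m * (v r).2.natAbs := by
        have b1 : (u (r - 1)).2.natAbs ≤ (t * (u (r - 1)).2).natAbs := by
          rw [Int.natAbs_mul]
          exact Nat.le_mul_of_pos_left _ (Int.natAbs_pos.2 ht)
        rw [← t2] at b1
        refine b1.trans ((Int.natAbs_sub_le _ _).trans ?_)
        rw [Int.natAbs_mul, Int.natAbs_mul, Int.natAbs_natCast, Int.natAbs_natCast]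
      unfold nr
      rw [mul_add, mul_add]
      omega
    exact_mod_cast hz
  have k2 := hu.lo (r - 1)
  have k3 := hu.hi r
  have k4 := hv.hi r
  have k5 := qn4_tiny hq r (r - 1) r4 r5
  have hε := hq.ε0
  have k6 : x ^ q.lo (r - 1) ≤ 2 * (x ^ (q.ε / 10) * x ^ q.hi r) := by
    have b1 : (m' : ℝ) * nr (u r) ≤ x ^ (q.ε / 10) * x ^ q.hi r :=
      mul_le_mul m1' k3 (Nat.cast_nonneg _) (by positivity)
    have b2 : (m : ℝ) * nr (v r) ≤ x ^ (q.ε / 10) * x ^ q.hi r :=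
      mul_le_mul m1 k4 (Nat.cast_nonneg _) (by positivity)
    linarith
  have k7 : x ^ q.ε * (x ^ (q.ε / 10) * x ^ q.hi r) ≤ x ^ q.lo (r - 1) := by
    rw [← Real.rpow_add hx0, ← Real.rpow_add hx0]
    exact Real.rpow_le_rpow_of_exponent_le hx (by linarith)
  have k8 : 0 < x ^ (q.ε / 10) * x ^ q.hi r := by positivity
  nlinarith

theorem qn4_gl9 (hu : IsPt q x u) (hv : IsPt q x v) (he : ∀ j < (9 : Fin 11), v j = u j) :
    gl 10 u v 9 = dil 10 u v 9 9 := by
  rw [gl_eq hu hv]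
  apply Finset.prod_eq_single 9
  · intro i _ hi
    apply dil_one
    intro p hp hC
    have h1 := edge_r hu hv 9 i (by decide) (by decide) he hp hC
    have hfin : ∀ i : Fin 11, i ≠ 9 → 9 ≤ i ∧ i ≠ 10 → False := by decide
    exact hfin i hi h1
  · intro h
    exact absurd (mem_univ _) h

/-- the first different vertex is not `9` -/
theorem qn4_nine (hq : q.Ok) (hx : 1 ≤ x) (hx2 : x ^ (q.ε / 5) < q.c3 * x ^ q.ε)
    (h : NP q x 10 u v) (he : ∀ j < (9 : Fin 11), v j = u j) : v 9 = u 9 := by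
  have hx0 : 0 < x := by linarith
  have hu := h.pu
  have hv := h.pv
  have s1 : (9 : Fin 11) - 1 = 8 := by decide
  have s2 : (8 : Fin 11) + 1 = 9 := by decide
  have s3 : (9 : Fin 11) + 1 = 10 := by decide
  obtain ⟨e1, e2⟩ := edge_r1 hu hv 9 (by decide) (by decide) he
  rw [s1] at e1 e2
  have e3 := qn4_gl9 hu hv he
  have e4 := qn4_gl9 hv hu (fun j hj => (he j hj).symm)
  rw [dil_symm] at e4
  have n1 := h.nv 8
  have n2 := h.nu 8
  have n3 := h.nv 9
  have n4 := h.nu 9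
  rw [e1] at n1
  rw [e2] at n2
  rw [e3] at n3
  rw [e4] at n4
  obtain ⟨m, hm, m0, m1⟩ := qn4_quo hu (dil_dvd 10 8 8 u v).1 n2
  obtain ⟨m', hm', m0', m1'⟩ := qn4_quo hv (dil_dvd 10 8 8 u v).2 n1
  obtain ⟨k, hk, k0, k1⟩ := qn4_quo hu (dil_dvd 10 9 9 u v).1 n4
  obtain ⟨k', hk', k0', k1'⟩ := qn4_quo hv (dil_dvd 10 9 9 u v).2 n3
  set D : ℕ := dil 10 u v 8 8
  set E : ℕ := dil 10 u v 9 9
  have hv8 : v 8 = u 8 := he 8 (by decide)
  have z10 : v 10 = u 10 := v10_eq hv hu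
  set sg1 : ℤ := (q.σ 8 9).sign with hsg1
  set sg2 : ℤ := (q.σ 9 10).sign with hsg2
  have hs2 : sg2 = 1 ∨ sg2 = -1 := by
    have := qn4_sg hu 9
    rw [s3] at this
    exact this
  have d1 : dt (u 8) (u 9) = sg1 * (D * m) := by
    have := qn4_dl hu 8 (by decide)
    rw [s2, hm] at this
    rw [this]
    push_cast
    ring
  have d2 : dt (u 8) (v 9) = sg1 * (D * m') := by
    have := qn4_dl hv 8 (by decide)
    rw [s2, hm', hv8] at this
    rw [this]
    push_cast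
    ring
  have d3 : dt (u 9) (u 10) = sg2 * (E * k) := by
    have := qn4_dl hu 9 (by decide)
    rw [s3, hk] at this
    rw [this]
    push_cast
    ring
  have d4 : dt (v 9) (u 10) = sg2 * (E * k') := by
    have := qn4_dl hv 9 (by decide)
    rw [s3, hk', z10] at this
    rw [this]
    push_cast
    ring
  have p8 := vert_prim hu 8
  -- coprimality of `Δ = det (u 8, u 10)` and `E`
  have c1 : IsCoprime (dt (u 8) (u 10)) (E : ℤ) := by
    have h1 := IsPt.nd' hu 9 8 (by decide) (by decide)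
    rw [s3] at h1
    have h2 : (dt (u 10) (u 8)).natAbs = (dt (u 8) (u 10)).natAbs := by
      have : dt (u 10) (u 8) = - dt (u 8) (u 10) := by
        unfold dt
        ring
      rw [this, Int.natAbs_neg]
    rw [h2] at h1
    have h3 : Nat.Coprime (dt (u 8) (u 10)).natAbs E :=
      (Nat.Coprime.coprime_dvd_left (dil_dvd 10 9 9 u v).1 h1).symm
    rw [Int.isCoprime_iff_gcd_eq_one]
    exact h3
  have key1 : dt (u 8) (u 10) ∣ ((m' * k : ℤ) - m * k') := by
    apply c1.dvd_of_dvd_mul_left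
    obtain ⟨t, t1, t2⟩ := qn4_par (z := ((m' : ℤ) * (u 9).1 - m * (v 9).1,
      (m' : ℤ) * (u 9).2 - m * (v 9).2)) p8 (by
      unfold dt at d1 d2 ⊢
      simp only
      linear_combination (m' : ℤ) * d1 - (m : ℤ) * d2)
    simp only at t1 t2
    have q1 : sg2 * (E * ((m' * k : ℤ) - m * k')) = t * dt (u 8) (u 10) := by
      have : t * dt (u 8) (u 10) = (t * (u 8).1) * (u 10).2 - (t * (u 8).2) * (u 10).1 := by
        unfold dt
        ring
      rw [this, ← t1, ← t2]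
      unfold dt at d3 d4
      linear_combination (-(m' : ℤ)) * d3 + (m : ℤ) * d4
    rcases hs2 with h2 | h2
    · rw [h2, one_mul] at q1
      exact ⟨t, by rw [q1]; ring⟩
    · rw [h2] at q1
      exact ⟨-t, by linarith⟩
  have c8 := (coord_ge hq hu 8 (by decide) (by decide)).1
  have c9 := hu.lo 8
  have c10 := hq.pos 8 (by decide) (by decide)
  have hε := hq.ε0
  have hc := hq.c30
  have key2 : ((m' : ℤ) * k - m * k') = 0 := by
    apply Int.eq_zero_of_abs_lt_dvd ((abs_dvd _ _).2 key1)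
    have b0 : |((m' : ℝ) * k - m * k')| < |(dt (u 8) (u 10) : ℝ)| := by
      have b1 : (m' : ℝ) * k ≤ x ^ (q.ε / 10) * x ^ (q.ε / 10) :=
        mul_le_mul m1' k1 (Nat.cast_nonneg _) (by positivity)
      have b2 : (m : ℝ) * k' ≤ x ^ (q.ε / 10) * x ^ (q.ε / 10) :=
        mul_le_mul m1 k1' (Nat.cast_nonneg _) (by positivity)
      have b3 : x ^ (q.ε / 10) * x ^ (q.ε / 10) = x ^ (q.ε / 5) := by
        rw [← Real.rpow_add hx0]
        congr 1
        ring
      rw [b3] at b1 b2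
      have b4 : (0 : ℝ) ≤ (m' : ℝ) * k := by positivity
      have b5 : (0 : ℝ) ≤ (m : ℝ) * k' := by positivity
      have b6 : x ^ q.ε ≤ x ^ q.lo 8 := Real.rpow_le_rpow_of_exponent_le hx (by linarith)
      have b7 : q.c3 * x ^ q.ε ≤ |(dt (u 8) (u 10) : ℝ)| := by
        refine le_trans ?_ c8
        exact mul_le_mul_of_nonneg_left (b6.trans c9) hc.le
      rw [abs_lt]
      constructor <;> linarith
    exact_mod_cast b0
  -- coprimality of the cofactors
  have g1 : Nat.Coprime m k := Nat.Coprime.of_dvd ⟨D, by rw [hm, mul_comm]⟩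
    ⟨E, by rw [hk, mul_comm]⟩ (hu.co 8 9 (by decide))
  have g2 : Nat.Coprime m' k' := Nat.Coprime.of_dvd ⟨D, by rw [hm', mul_comm]⟩
    ⟨E, by rw [hk', mul_comm]⟩ (hv.co 8 9 (by decide))
  have key3 : m' * k = m * k' := by
    have : (m' : ℤ) * k = m * k' := by linarith
    exact_mod_cast this
  have key4 : m = m' := by
    apply Nat.dvd_antisymm
    · exact g1.dvd_of_dvd_mul_right ⟨k', key3⟩
    · exact g2.dvd_of_dvd_mul_right ⟨k, key3.symm⟩
  have key5 : k = k' := by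
    rw [key4] at key3
    exact Nat.eq_of_mul_eq_mul_left m0' key3
  refine two_ext (dt_ne hu 8 10 (by decide)) ?_ ?_
  · rw [d1, d2, key4]
  · rw [d3, d4, key5]

theorem first_diff (hq : q.Ok) : ∃ x₀ : ℝ, 1 ≤ x₀ ∧ ∀ x ≥ x₀, ∀ u v : PolyK 11,
    NP q x 10 u v → v ≠ u → ∃ r : Fin 11, (r = 1 ∨ r = 3 ∨ r = 5 ∨ r = 7) ∧
      (∀ j < r, v j = u j) ∧ v r ≠ u r := by
  have hε := hq.ε0
  have hc := hq.c30
  obtain ⟨x1, hx1, h1⟩ := x_large hq 3 hε
  obtain ⟨x2, hx2, h2⟩ := x_large hq (2 / q.c3) (show 0 < q.ε / 2 by positivity)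
  refine ⟨max x1 x2, le_max_of_le_left hx1, fun x hx u v h hne => ?_⟩
  have hxa : x1 ≤ x := (le_max_left _ _).trans hx
  have hxb : x2 ≤ x := (le_max_right _ _).trans hx
  have hx1' : 1 ≤ x := hx1.trans hxa
  have hx0 : 0 < x := by linarith
  have k1 : 2 < x ^ q.ε := by have := (h1 x hxa).1; linarith
  have k2 : x ^ (q.ε / 5) < q.c3 * x ^ q.ε := by
    have k3 := (h2 x hxb).1
    have k4 : 2 ≤ q.c3 * x ^ (q.ε / 2) := by
      rw [div_le_iff₀ hc] at k3
      linarith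
    have k5 : x ^ (q.ε / 5) ≤ x ^ (q.ε / 2) :=
      Real.rpow_le_rpow_of_exponent_le hx1' (by linarith)
    have k6 : x ^ q.ε = x ^ (q.ε / 2) * x ^ (q.ε / 2) := by
      rw [← Real.rpow_add hx0]; congr 1; ring
    have k7 : 0 < x ^ (q.ε / 2) := by positivity
    rw [k6]
    nlinarith
  have hex : ∃ r, v r ≠ u r := by
    by_contra hcon
    push Not at hcon
    exact hne (funext hcon)
  obtain ⟨r, hr, hmin⟩ := WellFounded.has_min (wellFounded_lt (α := Fin 11)) {r | v r ≠ u r} hex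
  have he : ∀ j < r, v j = u j := by
    intro j hj
    by_contra hcon
    exact hmin j hcon hj
  have hr' : v r ≠ u r := hr
  have r0 : r ≠ 0 := by
    rintro rfl
    exact hr' (v0_eq h.pv h.pu)
  have r10 : r ≠ 10 := by
    rintro rfl
    exact hr' (v10_eq h.pv h.pu)
  have hcase : (r = 1 ∨ r = 3 ∨ r = 5 ∨ r = 7) ∨ (r = 2 ∨ r = 4 ∨ r = 6 ∨ r = 8) ∨ r = 9 := by
    clear hmin he hr' hr
    revert r
    decide
  rcases hcase with h3 | h3 | h3
  · exact ⟨r, h3, he, hr'⟩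
  · exact absurd (qn4_even hq hx1' k1 h r h3 he) hr'
  · rw [h3] at he hr'
    exact absurd (qn4_nine hq hx1' k2 h he) hr'

end Pool.Agent.PNV
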