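import Pool.Agent.Lib_helper96.PNV.Defs
import Pool.Agent.Lib_helper96.PNV.L.QA1
import Pool.Agent.Lib_helper96.PNV.L.QA3
import Pool.Agent.Lib_helper96.PNV.L.QA4
import Pool.Agent.Lib_helper96.PNV.L.QA7
import Pool.Agent.Lib_helper96.PNV.L.QN1
import Pool.Agent.Lib_helper96.PNV.L.QN2
import Pool.Agent.Lib_helper96.PNV.L.QN3

/-! PNI block QN5 (helper41): base `10`, first different vertex `r` -/

set_option autoImplicit false

namespace Pool.Agent.PNV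

open Finset Pool.Agent.PENT Pool.Agent.PENK Pool.Agent.PNI

variable {q : Prm} {x : ℝ} {u v w : PolyK 11}

/-- the odd vertices after `r` -/
def qn5_O (r : Fin 11) : Finset (Fin 11) := univ.filter (fun i => i.val % 2 = 1 ∧ r < i)

/-- the numbers `g_j` -/
noncomputable def qn5_g (r : Fin 11) (u v : PolyK 11) (j : Fin 11) : ℕ :=
  if j = r - 1 then dil 10 u v (r - 1) (r - 1)
  else if r ≤ j ∧ j ≠ 10 then dil 10 u v j r else 1

theorem qn5_fin : ∀ r : Fin 11, (r = 1 ∨ r = 3 ∨ r = 5 ∨ r = 7) →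
    r ≠ 0 ∧ r ≠ 10 ∧ r - 1 ≠ 10 ∧ r - 1 + 1 = r ∧ r - 1 < r ∧ r - 1 ≠ r ∧ r.val % 2 = 1 ∧
      (r + 1).val % 2 = 0 ∧ r + 1 ≠ 1 ∧ r + 1 ≠ 9 := by decide

theorem qn5_finO : ∀ r i : Fin 11, (r = 1 ∨ r = 3 ∨ r = 5 ∨ r = 7) →
    (i.val % 2 = 1 ∧ r < i) →
    i ≠ 10 ∧ i ≠ 0 ∧ i - 1 ≠ r - 1 ∧ r ≤ i - 1 ∧ i - 1 ≠ 10 ∧ i ≠ r - 1 ∧ r ≤ i ∧ i - 1 + 1 = i ∧
      ev (i - 1) = i - 1 ∧ ev i = i + 1 ∧ (i = 3 ∨ i = 5 ∨ i = 7 ∨ i = 9) ∧
      (i - 1).val % 2 = 0 ∧ (i + 1).val % 2 = 0 ∧ i - 1 ≠ i := by decide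

theorem qn5_vx : ∀ j : Fin 11, j ≠ 10 → j ∈ vx 10 j ∧ j + 1 ∈ vx 10 j := by
  intro j hj
  unfold vx
  rw [if_neg hj]
  simp

theorem qn5_hi (hq : q.Ok) (j : Fin 11) : 0 ≤ q.hi j := hi_nonneg hq j

theorem qn5_tiny (hq : q.Ok) (e r : Fin 11) (he : e.val % 2 = 0) (hr : r.val % 2 = 1) :
    q.hi e + 4 * q.ε ≤ q.lo r := tiny_all hq e r he hr

theorem qn5_dt (_hu : IsPt q x u) (_hv : IsPt q x v) (i j : Fin 11) :
    dt (cb 10 u i) (cb 10 v j) = -dt (u i) (v j) := dt_cb10 i j u v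

theorem qn5_nrneg (a : ℤ × ℤ) : nr (-a) = nr a := by
  unfold nr
  rw [Prod.fst_neg, Prod.snd_neg, Int.natAbs_neg, Int.natAbs_neg]

theorem qn5_ne (hq : q.Ok) (hx : 1 < x) (hu : IsPt q x u) (hv : IsPt q x v) (e r : Fin 11)
    (he : e.val % 2 = 0) (hr : r.val % 2 = 1) : dt (cb 10 u e) (cb 10 v r) ≠ 0 := by
  rw [qn5_dt hu hv]
  intro h
  have h1 : dt (u e) (v r) = 0 := by linarith
  have h2 : nr (u e) = nr (v r) := by
    rcases par_eq (vert_prim hu e) (vert_prim hv r) h1 with h3 | h3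
    · rw [h3]
    · rw [h3, qn5_nrneg]
  have h3 := hu.hi e
  have h4 := hv.lo r
  rw [h2] at h3
  have h5 := qn5_tiny hq e r he hr
  have h6 : x ^ q.hi e < x ^ q.lo r := Real.rpow_lt_rpow_of_exponent_lt hx (by
    have := hq.ε0; linarith)
  linarith

theorem qn5_g1 (r : Fin 11) (u v : PolyK 11) : qn5_g r u v (r - 1) = dil 10 u v (r - 1) (r - 1) := by
  unfold qn5_g
  rw [if_pos rfl]

theorem qn5_g2 (r j : Fin 11) (u v : PolyK 11) (h1 : j ≠ r - 1) (h2 : r ≤ j) (h3 : j ≠ 10) :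
    qn5_g r u v j = dil 10 u v j r := by
  unfold qn5_g
  rw [if_neg h1, if_pos ⟨h2, h3⟩]

theorem qn5_gdvd (r : Fin 11) (u v : PolyK 11) (j : Fin 11) : qn5_g r u v j ∣ dn u j := by
  unfold qn5_g
  split_ifs with h1 h2
  · rw [h1]; exact (dil_dvd _ _ _ _ _).1
  · exact (dil_dvd _ _ _ _ _).1
  · exact one_dvd _

theorem qn5_gpos (r : Fin 11) (u v : PolyK 11) (j : Fin 11) : 0 < qn5_g r u v j := by
  unfold qn5_g
  split_ifs
  · exact dil_pos _ _ _ _ _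
  · exact dil_pos _ _ _ _ _
  · exact one_pos

theorem qn5_cble (_hv : IsPt q x v) (r : Fin 11) :
    |((cb 10 v r).1 : ℝ)| ≤ nr (v r) ∧ |((cb 10 v r).2 : ℝ)| ≤ nr (v r) := by
  have h1 := qa7_nr (v r)
  have a1 := abs_nonneg ((v r).1 : ℝ)
  have a2 := abs_nonneg ((v r).2 : ℝ)
  rw [cb_ten_of]
  simp only
  push_cast
  rw [abs_neg, abs_neg]
  constructor <;> linarith

theorem qn5_MD (hq : q.Ok) {r : Fin 11} (hr : r = 1 ∨ r = 3 ∨ r = 5 ∨ r = 7) (hx : 1 < x)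
    {I : Fin 11 → ℕ} (hI : Siz I u) (hu : IsPt q x u) (hv : IsPt q x v) :
    MD q x 10 (qn5_O r) I (u, cb 10 v r, qn5_g r u v) := by
  obtain ⟨r0, r10, r1, r2, r3, r4, r5, r6, _, _⟩ := qn5_fin r hr
  have hx1 : 1 ≤ x := hx.le
  have hrn : (nr (v r) : ℝ) ≤ x := by
    refine (hv.hi r).trans ?_
    calc x ^ q.hi r ≤ x ^ (1 : ℝ) := by
          apply Real.rpow_le_rpow_of_exponent_le hx1
          have h1 := hq.sm
          have h2 := Finset.single_le_sum (f := q.hi) (fun i _ => qn5_hi hq i) (mem_univ r)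
          linarith
      _ = x := Real.rpow_one x
  refine ⟨hu, hI, ?_, ?_, fun j => qn5_gdvd r u v j, ?_, ?_⟩
  · exact cb_prim hv 10 r (by
      unfold nb
      rw [mem_filter]
      exact ⟨mem_univ _, r10, by simpa using r0⟩)
  · have h1 := qn5_cble hv r
    exact ⟨h1.1.trans hrn, h1.2.trans hrn⟩
  · intro i hi
    unfold qn5_O at hi
    rw [mem_filter] at hi
    obtain ⟨i1, i2, i3, i4, i5, i6, i7, i8, _, _, _, _, _, _⟩ := qn5_finO r i hr hi.2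
    refine ⟨?_, ?_⟩
    · change ((qn5_g r u v (i - 1) : ℕ) : ℤ) ∣ dt (cb 10 u i) (cb 10 v r)
      rw [qn5_g2 r (i - 1) u v i3 i4 i5]
      refine dil_dvd_dt 10 (i - 1) r i r u v ?_ (qn5_vx r r10).1
      have := (qn5_vx (i - 1) i5).2
      rwa [i8] at this
    · change ((qn5_g r u v i : ℕ) : ℤ) ∣ dt (cb 10 u i) (cb 10 v r)
      rw [qn5_g2 r i u v i6 i7 i1]
      exact dil_dvd_dt 10 i r i r u v (qn5_vx i i1).1 (qn5_vx r r10).1
  · intro i hi j hj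
    unfold qn5_O at hi
    rw [mem_filter] at hi
    obtain ⟨i1, i2, i3, i4, i5, i6, i7, i8, i9, i10, _, i12, i13, _⟩ := qn5_finO r i hr hi.2
    rcases hj with rfl | rfl
    · change ((qn5_g r u v (i - 1) : ℕ) : ℤ) ∣ dt (cb 10 u (ev (i - 1))) (cb 10 v r) ∧
        dt (cb 10 u (ev (i - 1))) (cb 10 v r) ≠ 0
      rw [i9]
      refine ⟨?_, qn5_ne hq hx hu hv _ _ i12 r5⟩
      rw [qn5_g2 r (i - 1) u v i3 i4 i5]
      exact dil_dvd_dt 10 (i - 1) r (i - 1) r u v (qn5_vx (i - 1) i5).1 (qn5_vx r r10).1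
    · change ((qn5_g r u v j : ℕ) : ℤ) ∣ dt (cb 10 u (ev j)) (cb 10 v r) ∧
        dt (cb 10 u (ev j)) (cb 10 v r) ≠ 0
      rw [i10]
      refine ⟨?_, qn5_ne hq hx hu hv _ _ i13 r5⟩
      rw [qn5_g2 r j u v i6 i7 i1]
      exact dil_dvd_dt 10 j r (j + 1) r u v (qn5_vx j i1).2 (qn5_vx r r10).1

/-- the sizes in powers of `y = x ^ (ε / 50)` -/
theorem qn5_pow (hx : 0 < x) (n : ℕ) : (x ^ (q.ε / 50)) ^ n = x ^ (n * (q.ε / 50)) := by
  rw [← Real.rpow_natCast, ← Real.rpow_mul hx.le]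
  congr 1
  ring

theorem qn5_gl (hu : IsPt q x u) (hv : IsPt q x v) {r : Fin 11}
    (hr : r = 1 ∨ r = 3 ∨ r = 5 ∨ r = 7) (he : ∀ j < r, v j = u j) :
    gl 10 u v r = qn5_g r u v r * ∏ i ∈ qn5_O r, (qn5_g r u v (i - 1) * qn5_g r u v i) := by
  have h1 : ∀ i, ¬ (r ≤ i ∧ i ≠ 10) → dil 10 u v i r = 1 := by
    intro i hi
    obtain ⟨r0, r10, _⟩ := qn5_fin r hr
    apply dil_one
    intro p hp hC
    exact hi (edge_r hu hv r i r0 r10 he hp hC)
  rw [gl_eq hu hv]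
  have h2 : ∀ j : Fin 11, j ≠ r - 1 → qn5_g r u v j = dil 10 u v j r := by
    intro j hj
    unfold qn5_g
    rw [if_neg hj]
    split_ifs with h3
    · rfl
    · exact (h1 j h3).symm
  have h3 : ∏ i, dil 10 u v i r = ∏ i ∈ univ.filter (fun i : Fin 11 => r ≤ i ∧ i ≠ 10),
      dil 10 u v i r := by
    symm
    apply Finset.prod_subset (Finset.filter_subset _ _)
    intro i _ hi
    rw [mem_filter] at hi
    exact h1 i (fun h => hi ⟨mem_univ _, h⟩)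
  rw [h3]
  rcases hr with rfl | rfl | rfl | rfl
  · have e1 : univ.filter (fun i : Fin 11 => (1 : Fin 11) ≤ i ∧ i ≠ 10) =
        {1, 2, 3, 4, 5, 6, 7, 8, 9} := by decide
    have e2 : qn5_O 1 = {3, 5, 7, 9} := by decide
    rw [e1, e2]
    have e3 : ∏ i ∈ ({3, 5, 7, 9} : Finset (Fin 11)), (qn5_g 1 u v (i - 1) * qn5_g 1 u v i) =
        (qn5_g 1 u v 2 * qn5_g 1 u v 3) * ((qn5_g 1 u v 4 * qn5_g 1 u v 5) *
          ((qn5_g 1 u v 6 * qn5_g 1 u v 7) * ((qn5_g 1 u v 8 * qn5_g 1 u v 9) * 1))) := rfl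
    have e4 : ∏ i ∈ ({1, 2, 3, 4, 5, 6, 7, 8, 9} : Finset (Fin 11)), dil 10 u v i 1 =
        dil 10 u v 1 1 * (dil 10 u v 2 1 * (dil 10 u v 3 1 * (dil 10 u v 4 1 * (dil 10 u v 5 1 *
          (dil 10 u v 6 1 * (dil 10 u v 7 1 * (dil 10 u v 8 1 * (dil 10 u v 9 1 * 1)))))))) := rfl
    rw [e3, e4, h2 1 (by decide), h2 2 (by decide), h2 3 (by decide), h2 4 (by decide),
      h2 5 (by decide), h2 6 (by decide), h2 7 (by decide), h2 8 (by decide), h2 9 (by decide)]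
    ring
  · have e1 : univ.filter (fun i : Fin 11 => (3 : Fin 11) ≤ i ∧ i ≠ 10) =
        {3, 4, 5, 6, 7, 8, 9} := by decide
    have e2 : qn5_O 3 = {5, 7, 9} := by decide
    rw [e1, e2]
    have e3 : ∏ i ∈ ({5, 7, 9} : Finset (Fin 11)), (qn5_g 3 u v (i - 1) * qn5_g 3 u v i) =
        ((qn5_g 3 u v 4 * qn5_g 3 u v 5) *
          ((qn5_g 3 u v 6 * qn5_g 3 u v 7) * ((qn5_g 3 u v 8 * qn5_g 3 u v 9) * 1))) := rfl
    have e4 : ∏ i ∈ ({3, 4, 5, 6, 7, 8, 9} : Finset (Fin 11)), dil 10 u v i 3 =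
        (dil 10 u v 3 3 * (dil 10 u v 4 3 * (dil 10 u v 5 3 *
          (dil 10 u v 6 3 * (dil 10 u v 7 3 * (dil 10 u v 8 3 * (dil 10 u v 9 3 * 1))))))) := rfl
    rw [e3, e4, h2 3 (by decide), h2 4 (by decide),
      h2 5 (by decide), h2 6 (by decide), h2 7 (by decide), h2 8 (by decide), h2 9 (by decide)]
    ring
  · have e1 : univ.filter (fun i : Fin 11 => (5 : Fin 11) ≤ i ∧ i ≠ 10) =
        {5, 6, 7, 8, 9} := by decide
    have e2 : qn5_O 5 = {7, 9} := by decide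
    rw [e1, e2]
    have e3 : ∏ i ∈ ({7, 9} : Finset (Fin 11)), (qn5_g 5 u v (i - 1) * qn5_g 5 u v i) =
          ((qn5_g 5 u v 6 * qn5_g 5 u v 7) * ((qn5_g 5 u v 8 * qn5_g 5 u v 9) * 1)) := rfl
    have e4 : ∏ i ∈ ({5, 6, 7, 8, 9} : Finset (Fin 11)), dil 10 u v i 5 =
        (dil 10 u v 5 5 *
          (dil 10 u v 6 5 * (dil 10 u v 7 5 * (dil 10 u v 8 5 * (dil 10 u v 9 5 * 1))))) := rfl
    rw [e3, e4, h2 5 (by decide), h2 6 (by decide), h2 7 (by decide), h2 8 (by decide),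
      h2 9 (by decide)]
    ring
  · have e1 : univ.filter (fun i : Fin 11 => (7 : Fin 11) ≤ i ∧ i ≠ 10) =
        {7, 8, 9} := by decide
    have e2 : qn5_O 7 = {9} := by decide
    rw [e1, e2]
    have e3 : ∏ i ∈ ({9} : Finset (Fin 11)), (qn5_g 7 u v (i - 1) * qn5_g 7 u v i) =
          ((qn5_g 7 u v 8 * qn5_g 7 u v 9) * 1) := rfl
    have e4 : ∏ i ∈ ({7, 8, 9} : Finset (Fin 11)), dil 10 u v i 7 =
        (dil 10 u v 7 7 * (dil 10 u v 8 7 * (dil 10 u v 9 7 * 1))) := rfl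
    rw [e3, e4, h2 7 (by decide), h2 8 (by decide), h2 9 (by decide)]
    ring

/-- the sizes of `v` and of the numbers `g_j` -/
theorem qn5_sizes (hq : q.Ok) (hx : 1 ≤ x) {r : Fin 11} (hr : r = 1 ∨ r = 3 ∨ r = 5 ∨ r = 7)
    {I : Fin 11 → ℕ} (hI : Siz I u) (h : NP q x 10 u v) (he : ∀ j < r, v j = u j) {y : ℝ}
    (hy : y = x ^ (q.ε / 50)) :
    q.c3 * (nr (v r) : ℝ) ≤ y ^ 5 * (2 * 2 ^ I r) ∧
    q.c3 * (2 ^ I (r - 1) * 2 ^ I r) ≤ y ^ 5 * (qn5_g r u v (r - 1) : ℝ) ∧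
    q.c3 ^ 2 * (2 ^ I r * 2 ^ I (r + 1)) ≤ y ^ 11 *
      ((qn5_g r u v r : ℝ) * ∏ i ∈ qn5_O r, ((qn5_g r u v (i - 1) : ℝ) * qn5_g r u v i)) := by
  obtain ⟨r0, r10, r1, r2, r3, r4, r5, r6, r7, r8⟩ := qn5_fin r hr
  have hx0 : 0 < x := by linarith
  have hy1 : 1 ≤ y := by rw [hy]; exact Real.one_le_rpow hx (by have := hq.ε0; positivity)
  have hy5 : x ^ (q.ε / 10) = y ^ 5 := by
    rw [hy, qn5_pow hx0]
    congr 1
    push_cast
    ring
  have hc := hq.c30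
  have hu := h.pu
  have hv := h.pv
  obtain ⟨e1, e2⟩ := edge_r1 hu hv r r0 r10 he
  have n1 := h.nv (r - 1)
  have n2 := h.nu (r - 1)
  have n3 := h.nv r
  rw [hy5] at n1 n2 n3
  rw [e1, ← qn5_g1 r u v] at n1
  rw [e2, ← qn5_g1 r u v] at n2
  have hvu : v (r - 1) = u (r - 1) := he _ r3
  have a1 := dn_ge_nr hv (r - 1)
  have a2 := dn_le_nr hu (r - 1)
  have a3 := dn_le_nr hv (r - 1)
  have a4 := dn_ge_nr hu (r - 1)
  rw [r2] at a1 a2 a3 a4
  rw [hvu] at a1 a3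
  have a5 : (qn5_g r u v (r - 1) : ℝ) ≤ dn u (r - 1) := by
    exact_mod_cast Nat.le_of_dvd (dn_pos hu _) (qn5_gdvd r u v (r - 1))
  have a5' : (qn5_g r u v (r - 1) : ℝ) ≤ dn v (r - 1) := by
    rw [qn5_g1]
    exact_mod_cast Nat.le_of_dvd (dn_pos hv _) (dil_dvd _ _ _ _ _).2
  have p1 : (0 : ℝ) < nr (u (r - 1)) := by
    have h1 := (hI (r - 1)).1
    have h2 : 0 < 2 ^ I (r - 1) := by positivity
    exact_mod_cast lt_of_lt_of_le h2 h1
  have b1 : (nr (u r) : ℝ) ≤ 2 * 2 ^ I r := by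
    have h1 := (hI r).2.le
    have h2 : (nr (u r) : ℝ) ≤ ((2 ^ (I r + 1) : ℕ) : ℝ) := by exact_mod_cast h1
    rw [pow_succ] at h2
    push_cast at h2
    linarith
  have b2 : (2 : ℝ) ^ I r ≤ nr (u r) := by exact_mod_cast (hI r).1
  have b3 : (2 : ℝ) ^ I (r - 1) ≤ nr (u (r - 1)) := by exact_mod_cast (hI (r - 1)).1
  have b4 : (2 : ℝ) ^ I (r + 1) ≤ nr (u (r + 1)) := by exact_mod_cast (hI (r + 1)).1
  have y5 : 0 < y ^ 5 := by positivity
  -- (1)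
  have c1 : q.c3 * (nr (v r) : ℝ) ≤ y ^ 5 * nr (u r) := by
    have h1 : q.c3 * nr (u (r - 1)) * nr (v r) ≤ y ^ 5 * (nr (u (r - 1)) * nr (u r)) := by
      calc q.c3 * nr (u (r - 1)) * nr (v r) ≤ dn v (r - 1) := a1
        _ ≤ y ^ 5 * (qn5_g r u v (r - 1) : ℝ) := n1
        _ ≤ y ^ 5 * (nr (u (r - 1)) * nr (u r)) :=
            mul_le_mul_of_nonneg_left (a5.trans a2) y5.le
    have h2 : nr (u (r - 1)) * (q.c3 * (nr (v r) : ℝ)) ≤ nr (u (r - 1)) * (y ^ 5 * nr (u r)) := by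
      linarith
    exact le_of_mul_le_mul_left h2 p1
  -- (2)
  have c2 : q.c3 * (2 ^ I (r - 1) * 2 ^ I r) ≤ (dn u (r - 1) : ℝ) := by
    calc q.c3 * (2 ^ I (r - 1) * 2 ^ I r) ≤ q.c3 * ((nr (u (r - 1)) : ℝ) * nr (u r)) := by
          apply mul_le_mul_of_nonneg_left _ hc.le
          exact mul_le_mul b3 b2 (by positivity) p1.le
      _ ≤ _ := by linarith
  -- (3) `nr (v r)` is large
  have c3 : q.c3 * (2 : ℝ) ^ I r ≤ y ^ 5 * nr (v r) := by
    have h1 : nr (u (r - 1)) * (q.c3 * (nr (u r) : ℝ)) ≤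
        nr (u (r - 1)) * (y ^ 5 * nr (v r)) := by
      calc nr (u (r - 1)) * (q.c3 * (nr (u r) : ℝ)) = q.c3 * nr (u (r - 1)) * nr (u r) := by ring
        _ ≤ dn u (r - 1) := a4
        _ ≤ y ^ 5 * (qn5_g r u v (r - 1) : ℝ) := n2
        _ ≤ y ^ 5 * (nr (u (r - 1)) * nr (v r)) :=
            mul_le_mul_of_nonneg_left (a5'.trans a3) y5.le
        _ = _ := by ring
    have h2 := le_of_mul_le_mul_left h1 p1
    have h3 := mul_le_mul_of_nonneg_left b2 hc.le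
    linarith
  have c4 : (2 : ℝ) ^ I (r + 1) ≤ y * nr (v (r + 1)) := by
    have h1 := hu.hi (r + 1)
    have h2 := hv.lo (r + 1)
    have h3 := hq.nar (r + 1) r7 r8
    calc (2 : ℝ) ^ I (r + 1) ≤ nr (u (r + 1)) := b4
      _ ≤ x ^ q.hi (r + 1) := h1
      _ ≤ x ^ (q.ε / 50 + q.lo (r + 1)) := Real.rpow_le_rpow_of_exponent_le hx (by linarith)
      _ = y * x ^ q.lo (r + 1) := by rw [Real.rpow_add hx0, hy]
      _ ≤ y * nr (v (r + 1)) := mul_le_mul_of_nonneg_left h2 (by linarith)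
  refine ⟨c1.trans (mul_le_mul_of_nonneg_left b1 y5.le), c2.trans n2, ?_⟩
  have d1 := dn_ge_nr hv r
  have d2 : (gl 10 u v r : ℝ) = (qn5_g r u v r : ℝ) *
      ∏ i ∈ qn5_O r, ((qn5_g r u v (i - 1) : ℝ) * qn5_g r u v i) := by
    rw [qn5_gl hu hv hr he]
    push_cast
    rfl
  rw [d2] at n3
  set G : ℝ := (qn5_g r u v r : ℝ) *
      ∏ i ∈ qn5_O r, ((qn5_g r u v (i - 1) : ℝ) * qn5_g r u v i) with hG
  have p2 : (0 : ℝ) ≤ nr (v r) := Nat.cast_nonneg _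
  have p3 : (0 : ℝ) ≤ nr (v (r + 1)) := Nat.cast_nonneg _
  have d3 : (q.c3 * (2 : ℝ) ^ I r) * (2 : ℝ) ^ I (r + 1) ≤
      (y ^ 5 * nr (v r)) * (y * nr (v (r + 1))) :=
    mul_le_mul c3 c4 (by positivity) (by positivity)
  calc q.c3 ^ 2 * (2 ^ I r * 2 ^ I (r + 1)) = q.c3 * ((q.c3 * (2 : ℝ) ^ I r) * (2 : ℝ) ^ I (r + 1)) := by
        ring
    _ ≤ q.c3 * ((y ^ 5 * nr (v r)) * (y * nr (v (r + 1)))) := mul_le_mul_of_nonneg_left d3 hc.le
    _ = y ^ 6 * (q.c3 * nr (v r) * nr (v (r + 1))) := by ring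
    _ ≤ y ^ 6 * (y ^ 5 * G) := mul_le_mul_of_nonneg_left (d1.trans n3) (by positivity)
    _ = y ^ 11 * G := by ring

/-- the factor of the vertex `i` -/
theorem qn5_fac (hq : q.Ok) (hx : 1 ≤ x) {r : Fin 11} (hr : r = 1 ∨ r = 3 ∨ r = 5 ∨ r = 7)
    {I : Fin 11 → ℕ} (hI : Siz I u) (h : NP q x 10 u v) {i : Fin 11}
    (hi : i ∈ qn5_O r) :
    128 * ((2 : ℝ) ^ I i) ^ 2 / ((qn5_g r u v (i - 1) : ℝ) * qn5_g r u v i) + 6 ≤
      ((224 / q.c3) * if i = 9 then (2 : ℝ) ^ I 8 else 1) *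
        (((2 : ℝ) ^ I i) ^ 2 / ((qn5_g r u v (i - 1) : ℝ) * qn5_g r u v i)) := by
  have hu := h.pu
  have hv := h.pv
  obtain ⟨r0, r10, r1, r2, r3, r4, r5, r6, r7, r8⟩ := qn5_fin r hr
  unfold qn5_O at hi
  rw [mem_filter] at hi
  obtain ⟨i1, i2, i3, i4, i5, i6, i7, i8, _, _, i11, _, _, i14⟩ := qn5_finO r i hr hi.2
  have g1 : (0 : ℝ) < qn5_g r u v (i - 1) := by exact_mod_cast qn5_gpos r u v (i - 1)
  have g2 : (0 : ℝ) < qn5_g r u v i := by exact_mod_cast qn5_gpos r u v i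
  have hG : 0 < (qn5_g r u v (i - 1) : ℝ) * qn5_g r u v i := mul_pos g1 g2
  set G : ℝ := (qn5_g r u v (i - 1) : ℝ) * qn5_g r u v i with hGd
  have hc := hq.c30
  have hV : 1 ≤ 1 / q.c3 := by
    rw [le_div_iff₀ hc]
    linarith [hq.c31]
  have key : G ≤ 16 / q.c3 * (if i = 9 then (2 : ℝ) ^ I 8 else 1) * ((2 : ℝ) ^ I i) ^ 2 := by
    by_cases h9 : i = 9
    · rw [if_pos h9]
      have k1 : (qn5_g r u v (i - 1) : ℝ) ≤ dn u (i - 1) := by
        exact_mod_cast Nat.le_of_dvd (dn_pos hu _) (qn5_gdvd r u v (i - 1))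
      have k2 : (qn5_g r u v i : ℝ) ≤ dn u i := by
        exact_mod_cast Nat.le_of_dvd (dn_pos hu _) (qn5_gdvd r u v i)
      have k3 := (dn_siz hu hI (i - 1)).2
      have k4 := (dn_siz hu hI i).2
      rw [i8] at k3
      have e1 : i - 1 = 8 := by rw [h9]; decide
      have e2 : i + 1 = 10 := by rw [h9]; decide
      rw [e2] at k4
      have k4' : (dn u i : ℝ) ≤ 4 * (2 ^ I i * (1 / q.c3)) := by
        refine k4.trans ?_
        apply mul_le_mul_of_nonneg_left _ (by norm_num)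
        exact mul_le_mul_of_nonneg_left (siz_bd hq hx hu hI).2.2 (by positivity)
      rw [e1] at k3 k1
      have k5 : (qn5_g r u v (i - 1) : ℝ) ≤ 4 * (2 ^ I 8 * 2 ^ I i) := by
        rw [e1]; exact k1.trans k3
      calc G = (qn5_g r u v (i - 1) : ℝ) * qn5_g r u v i := rfl
        _ ≤ (4 * (2 ^ I 8 * 2 ^ I i)) * (4 * (2 ^ I i * (1 / q.c3))) :=
            mul_le_mul k5 (k2.trans k4') g2.le (by positivity)
        _ = _ := by ring
    · rw [if_neg h9, mul_one]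
      have hi7 : i = 3 ∨ i = 5 ∨ i = 7 := by tauto
      have k1 : (dil 10 u v (i - 1) r) * (dil 10 u v i r) ∣ gl 10 u v r := by
        rw [gl_eq hu hv]
        have k2 : ∏ j ∈ ({i - 1, i} : Finset (Fin 11)), dil 10 u v j r ∣
            ∏ j, dil 10 u v j r := Finset.prod_dvd_prod_of_subset _ _ _ (subset_univ _)
        rwa [Finset.prod_pair i14] at k2
      have k3 : (dil 10 u v (i - 1) r) * (dil 10 u v i r) ≤ dn v r :=
        Nat.le_of_dvd (dn_pos hv _) (k1.trans (gl_dvd _ _ _ _))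
      have k4 : G ≤ dn v r := by
        rw [hGd, qn5_g2 r (i - 1) u v i3 i4 i5, qn5_g2 r i u v i6 i7 i1]
        exact_mod_cast k3
      have k5 := dn_le_nr hv r
      have k6 := hv.hi r
      have k7 := hv.hi (r + 1)
      have k8 := hq.big i r (r + 1) hi7 r5 r6
      have k9 := hu.lo i
      have k10 : (nr (u i) : ℝ) ≤ 2 * 2 ^ I i := by
        have h1 := (hI i).2.le
        have h2 : (nr (u i) : ℝ) ≤ ((2 ^ (I i + 1) : ℕ) : ℝ) := by exact_mod_cast h1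
        rw [pow_succ] at h2
        push_cast at h2
        linarith
      have hx0 : 0 < x := by linarith
      calc G ≤ dn v r := k4
        _ ≤ nr (v r) * nr (v (r + 1)) := k5
        _ ≤ x ^ q.hi r * x ^ q.hi (r + 1) := mul_le_mul k6 k7 (by positivity) (by positivity)
        _ = x ^ (q.hi r + q.hi (r + 1)) := by rw [Real.rpow_add hx0]
        _ ≤ x ^ (q.lo i + q.lo i) := by
            apply Real.rpow_le_rpow_of_exponent_le hx
            have := hq.ε0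
            linarith
        _ = x ^ q.lo i * x ^ q.lo i := by rw [Real.rpow_add hx0]
        _ ≤ (2 * 2 ^ I i) * (2 * 2 ^ I i) :=
            mul_le_mul (k9.trans k10) (k9.trans k10) (by positivity) (by positivity)
        _ = 4 * ((2 : ℝ) ^ I i) ^ 2 := by ring
        _ ≤ _ := by
          apply mul_le_mul_of_nonneg_right _ (by positivity)
          have : 16 / q.c3 = 16 * (1 / q.c3) := by ring
          rw [this]
          linarith
  have hE1 : (1 : ℝ) ≤ if i = 9 then (2 : ℝ) ^ I 8 else 1 := by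
    split_ifs
    · exact one_le_pow₀ (by norm_num)
    · exact le_refl _
  set E : ℝ := if i = 9 then (2 : ℝ) ^ I 8 else 1 with hE
  set Q : ℝ := ((2 : ℝ) ^ I i) ^ 2 with hQ
  have hQ0 : 0 < Q := by positivity
  have k1 : 1 ≤ 16 / q.c3 * E * (Q / G) := by
    rw [← mul_div_assoc, le_div_iff₀ hG]
    linarith
  have k2 : 0 < Q / G := div_pos hQ0 hG
  have k3 : Q / G ≤ E * (Q / G) := le_mul_of_one_le_left k2.le hE1
  have k4 : 128 * Q / G = 128 * (Q / G) := by ring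
  have k5 : E * (Q / G) ≤ 1 / q.c3 * (E * (Q / G)) :=
    le_mul_of_one_le_left (by positivity) hV
  have k6 : 16 / q.c3 * E * (Q / G) = 16 * (1 / q.c3 * (E * (Q / G))) := by ring
  have k7 : (224 / q.c3 * E) * (Q / G) = 224 * (1 / q.c3 * (E * (Q / G))) := by ring
  rw [k4, k7]
  rw [k6] at k1
  linarith

/-- the product over the odd vertices -/
theorem qn5_prodO (hq : q.Ok) (hx : 1 ≤ x) {r : Fin 11} (hr : r = 1 ∨ r = 3 ∨ r = 5 ∨ r = 7)
    {I : Fin 11 → ℕ} (hI : Siz I u) (h : NP q x 10 u v) :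
    ∏ i ∈ qn5_O r,
      (128 * ((2 : ℝ) ^ I i) ^ 2 / ((qn5_g r u v (i - 1) : ℝ) * qn5_g r u v i) + 6) ≤
    (224 / q.c3) ^ 11 * 2 ^ I 8 * (∏ i ∈ qn5_O r, ((2 : ℝ) ^ I i) ^ 2) /
      ∏ i ∈ qn5_O r, ((qn5_g r u v (i - 1) : ℝ) * qn5_g r u v i) := by
  have hc := hq.c30
  have h224 : 1 ≤ 224 / q.c3 := by
    rw [le_div_iff₀ hc]
    linarith [hq.c31]
  have h9 : (9 : Fin 11) ∈ qn5_O r := by
    rcases hr with rfl | rfl | rfl | rfl <;> decide
  have gp : ∀ i, 0 < (qn5_g r u v (i - 1) : ℝ) * qn5_g r u v i := by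
    intro i
    have g1 : (0 : ℝ) < qn5_g r u v (i - 1) := by exact_mod_cast qn5_gpos r u v (i - 1)
    have g2 : (0 : ℝ) < qn5_g r u v i := by exact_mod_cast qn5_gpos r u v i
    exact mul_pos g1 g2
  calc ∏ i ∈ qn5_O r,
      (128 * ((2 : ℝ) ^ I i) ^ 2 / ((qn5_g r u v (i - 1) : ℝ) * qn5_g r u v i) + 6)
      ≤ ∏ i ∈ qn5_O r, (((224 / q.c3) * if i = 9 then (2 : ℝ) ^ I 8 else 1) *
        (((2 : ℝ) ^ I i) ^ 2 / ((qn5_g r u v (i - 1) : ℝ) * qn5_g r u v i))) := by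
        apply Finset.prod_le_prod
        · intro i _
          have := gp i
          positivity
        · intro i hi
          exact qn5_fac hq hx hr hI h hi
    _ = (224 / q.c3) ^ (qn5_O r).card * 2 ^ I 8 * (∏ i ∈ qn5_O r, ((2 : ℝ) ^ I i) ^ 2) /
      ∏ i ∈ qn5_O r, ((qn5_g r u v (i - 1) : ℝ) * qn5_g r u v i) := by
        rw [Finset.prod_mul_distrib, Finset.prod_mul_distrib, Finset.prod_const,
          Finset.prod_ite_eq' (qn5_O r) 9, if_pos h9, Finset.prod_div_distrib]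
        ring
    _ ≤ _ := by
        have hP : 0 < ∏ i ∈ qn5_O r, ((qn5_g r u v (i - 1) : ℝ) * qn5_g r u v i) :=
          Finset.prod_pos fun i _ => gp i
        apply div_le_div_of_nonneg_right _ hP.le
        apply mul_le_mul_of_nonneg_right _ (by positivity)
        apply mul_le_mul_of_nonneg_right _ (by positivity)
        apply pow_le_pow_right₀ h224
        calc (qn5_O r).card ≤ (univ : Finset (Fin 11)).card := Finset.card_le_card (subset_univ _)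
          _ = 11 := by simp

/-- `2 ^ (I 8 - I (r-1) - I (r+1))` is small -/
theorem qn5_E8 (hq : q.Ok) (h8 : q.E8) (hx : 1 ≤ x) {r : Fin 11}
    (hr : r = 1 ∨ r = 3 ∨ r = 5 ∨ r = 7) {I : Fin 11 → ℕ} (hI : Siz I u) (hu : IsPt q x u) {y : ℝ}
    (hy : y = x ^ (q.ε / 50)) :
    y ^ 200 * (2 : ℝ) ^ I 8 ≤ 2 * (2 ^ I (r - 1) * 2 ^ I (r + 1)) := by
  have hx0 : 0 < x := by linarith
  have hy200 : y ^ 200 = x ^ (4 * q.ε) := by
    rw [hy, qn5_pow hx0]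
    congr 1
    push_cast
    ring
  rw [hy200]
  obtain ⟨s1, s2, s3⟩ := siz_bd hq hx hu hI
  have k : ∀ n : ℕ, (1 : ℝ) ≤ 2 ^ n := fun n => one_le_pow₀ (by norm_num)
  have key : ∀ e : Fin 11, e = 2 ∨ e = 4 ∨ e = 6 → x ^ (4 * q.ε) * (2 : ℝ) ^ I 8 ≤ 2 * 2 ^ I e := by
    intro e he
    have h1 := h8 e he
    have h2 := (s1 8).2
    have h3 := (s1 e).1
    calc x ^ (4 * q.ε) * (2 : ℝ) ^ I 8 ≤ x ^ (4 * q.ε) * x ^ q.hi 8 :=
          mul_le_mul_of_nonneg_left h2 (by positivity)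
      _ = x ^ (4 * q.ε + q.hi 8) := by rw [Real.rpow_add hx0]
      _ ≤ x ^ q.lo e := Real.rpow_le_rpow_of_exponent_le hx (by linarith)
      _ ≤ 2 * 2 ^ I e := by linarith
  rcases hr with rfl | rfl | rfl | rfl
  · have e1 : (1 : Fin 11) - 1 = 0 := by decide
    have e2 : (1 : Fin 11) + 1 = 2 := by decide
    rw [e1, e2]
    have h1 := key 2 (by decide)
    have h2 : (2 : ℝ) ^ I 2 ≤ 2 ^ I 0 * 2 ^ I 2 := le_mul_of_one_le_left (by positivity) (k _)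
    linarith
  · have e1 : (3 : Fin 11) - 1 = 2 := by decide
    have e2 : (3 : Fin 11) + 1 = 4 := by decide
    rw [e1, e2]
    have h1 := key 4 (by decide)
    have h2 : (2 : ℝ) ^ I 4 ≤ 2 ^ I 2 * 2 ^ I 4 := le_mul_of_one_le_left (by positivity) (k _)
    linarith
  · have e1 : (5 : Fin 11) - 1 = 4 := by decide
    have e2 : (5 : Fin 11) + 1 = 6 := by decide
    rw [e1, e2]
    have h1 := key 6 (by decide)
    have h2 : (2 : ℝ) ^ I 6 ≤ 2 ^ I 4 * 2 ^ I 6 := le_mul_of_one_le_left (by positivity) (k _)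
    linarith
  · have e1 : (7 : Fin 11) - 1 = 6 := by decide
    have e2 : (7 : Fin 11) + 1 = 8 := by decide
    rw [e1, e2]
    have h3 := (s1 6).1
    have h4 := hq.pos 6 (by decide) (by decide)
    have h5 : x ^ (4 * q.ε) ≤ 2 * 2 ^ I 6 := by
      have h6 : x ^ (4 * q.ε) ≤ x ^ q.lo 6 := Real.rpow_le_rpow_of_exponent_le hx h4
      linarith
    calc x ^ (4 * q.ε) * (2 : ℝ) ^ I 8 ≤ (2 * 2 ^ I 6) * 2 ^ I 8 :=
          mul_le_mul_of_nonneg_right h5 (by positivity)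
      _ = _ := by ring

/-- the divisibility by `J = g_(r-1) g_r` -/
theorem qn5_J (hu : IsPt q x u) (hv : IsPt q x v) {r : Fin 11}
    (hr : r = 1 ∨ r = 3 ∨ r = 5 ∨ r = 7) (hne : v r ≠ u r) :
    Squarefree (qn5_g r u v (r - 1) * qn5_g r u v r) ∧
    ((qn5_g r u v (r - 1) * qn5_g r u v r : ℕ) : ℤ) ∣ dt (cb 10 u r) (cb 10 v r) ∧
      dt (cb 10 u r) (cb 10 v r) ≠ 0 := by
  obtain ⟨r0, r10, r1, r2, r3, r4, r5, r6, r7, r8⟩ := qn5_fin r hr
  have e1 := qn5_g1 r u v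
  have e2 := qn5_g2 r r u v (Ne.symm r4) le_rfl r10
  have c1 : Nat.Coprime (qn5_g r u v (r - 1)) (qn5_g r u v r) :=
    Nat.Coprime.of_dvd (qn5_gdvd r u v (r - 1)) (qn5_gdvd r u v r) (hu.co (r - 1) r r4)
  refine ⟨?_, ?_, ?_⟩
  · rw [Nat.squarefree_mul c1, e1, e2]
    exact ⟨dil_sqf _ _ _ _ _, dil_sqf _ _ _ _ _⟩
  · have d1 : ((qn5_g r u v (r - 1) : ℕ) : ℤ) ∣ dt (cb 10 u r) (cb 10 v r) := by
      rw [e1]
      have h1 := (qn5_vx (r - 1) r1).2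
      rw [r2] at h1
      exact dil_dvd_dt 10 (r - 1) (r - 1) r r u v h1 h1
    have d2 : ((qn5_g r u v r : ℕ) : ℤ) ∣ dt (cb 10 u r) (cb 10 v r) := by
      rw [e2]
      exact dil_dvd_dt 10 r r r r u v (qn5_vx r r10).1 (qn5_vx r r10).1
    push_cast
    exact IsCoprime.mul_dvd (Nat.isCoprime_iff_coprime.2 c1) d1 d2
  · rw [qn5_dt hu hv]
    intro h
    have h1 : dt (u r) (v r) = 0 := by linarith
    rcases par_eq (vert_prim hu r) (vert_prim hv r) h1 with h2 | h2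
    · exact hne h2.symm
    · have h3 := (coord_pos hu r r0 r10).1
      have h4 := (coord_pos hv r r0 r10).1
      rw [v10_eq hv hu] at h4
      have h5 : dt (u r) (u 10) = -dt (v r) (u 10) := by
        rw [h2]
        unfold dt
        rw [Prod.fst_neg, Prod.snd_neg]
        ring
      rw [h5] at h3
      nlinarith

/-- the image of `w` on a fibre and the product over the odd vertices -/
theorem qn5_N (hq : q.Ok) (h8 : q.E8) (hx : 1 ≤ x) {r : Fin 11}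
    (hr : r = 1 ∨ r = 3 ∨ r = 5 ∨ r = 7) {I : Fin 11 → ℕ} (hI : Siz I u) (h : NP q x 10 u v)
    (he : ∀ j < r, v j = u j) {y : ℝ} (hy : y = x ^ (q.ε / 50)) {T : ℝ}
    (hT : T ≤ 20 * (y ^ 5 * (2 * 2 ^ I r) / q.c3) ^ 2 /
      ((qn5_g r u v (r - 1) : ℝ) * qn5_g r u v r)) :
    T * ∏ i ∈ qn5_O r,
      (128 * ((2 : ℝ) ^ I i) ^ 2 / ((qn5_g r u v (i - 1) : ℝ) * qn5_g r u v i) + 6) ≤
    160 * (224 / q.c3) ^ 11 / q.c3 ^ 5 * y ^ 26 / y ^ 200 * ∏ i ∈ qn5_O r, ((2 : ℝ) ^ I i) ^ 2 := by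
  have hy1 : 1 ≤ y := by rw [hy]; exact Real.one_le_rpow hx (by have := hq.ε0; positivity)
  have hy0 : 0 < y := by linarith
  have hc := hq.c30
  obtain ⟨_, s2, s3⟩ := qn5_sizes hq hx hr hI h he hy
  have s4 := qn5_E8 hq h8 hx hr hI h.pu hy
  have s5 := qn5_prodO hq hx hr hI h
  have gp : ∀ j, 0 < (qn5_g r u v j : ℝ) := fun j => by exact_mod_cast qn5_gpos r u v j
  have hP : 0 < ∏ i ∈ qn5_O r, ((qn5_g r u v (i - 1) : ℝ) * qn5_g r u v i) :=
    Finset.prod_pos fun i _ => mul_pos (gp _) (gp _)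
  have hPi : 0 < ∏ i ∈ qn5_O r, ((2 : ℝ) ^ I i) ^ 2 := Finset.prod_pos fun i _ => by positivity
  set a : ℝ := (qn5_g r u v (r - 1) : ℝ) with ha
  set g : ℝ := (qn5_g r u v r : ℝ) with hg
  set Pg : ℝ := ∏ i ∈ qn5_O r, ((qn5_g r u v (i - 1) : ℝ) * qn5_g r u v i) with hPg
  set Pi : ℝ := ∏ i ∈ qn5_O r, ((2 : ℝ) ^ I i) ^ 2 with hPid
  set R : ℝ := (2 : ℝ) ^ I r with hR
  set R1 : ℝ := (2 : ℝ) ^ I (r - 1) with hR1
  set R2 : ℝ := (2 : ℝ) ^ I (r + 1) with hR2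
  set E : ℝ := (2 : ℝ) ^ I 8 with hE
  have ha0 : 0 < a := gp _
  have hg0 : 0 < g := gp _
  have hR0 : 0 < R := by positivity
  have hR10 : 0 < R1 := by positivity
  have hR20 : 0 < R2 := by positivity
  have hE0 : 0 < E := by positivity
  have hprod0 : 0 ≤ ∏ i ∈ qn5_O r,
      (128 * ((2 : ℝ) ^ I i) ^ 2 / ((qn5_g r u v (i - 1) : ℝ) * qn5_g r u v i) + 6) := by
    apply Finset.prod_nonneg
    intro i _
    have := mul_pos (gp (i - 1)) (gp i)
    positivity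
  calc T * ∏ i ∈ qn5_O r,
      (128 * ((2 : ℝ) ^ I i) ^ 2 / ((qn5_g r u v (i - 1) : ℝ) * qn5_g r u v i) + 6)
      ≤ (20 * (y ^ 5 * (2 * R) / q.c3) ^ 2 / (a * g)) * ((224 / q.c3) ^ 11 * E * Pi / Pg) := by
        refine (mul_le_mul_of_nonneg_right hT hprod0).trans ?_
        exact mul_le_mul_of_nonneg_left s5 (by positivity)
    _ = 80 * (224 / q.c3) ^ 11 * y ^ 10 * R ^ 2 * E * Pi / (q.c3 ^ 2 * (a * (g * Pg))) := by
        field_simp
        ring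
    _ ≤ 160 * (224 / q.c3) ^ 11 / q.c3 ^ 5 * y ^ 26 / y ^ 200 * Pi := by
        rw [div_le_iff₀ (by positivity)]
        have k1 : (q.c3 * (R1 * R)) * (q.c3 ^ 2 * (R * R2)) ≤ (y ^ 5 * a) * (y ^ 11 * (g * Pg)) :=
          mul_le_mul s2 s3 (by positivity) (by positivity)
        have k2 : y ^ 200 * E * (q.c3 ^ 3 * R ^ 2) ≤ 2 * (y ^ 16 * (a * (g * Pg))) := by
          calc y ^ 200 * E * (q.c3 ^ 3 * R ^ 2) ≤ 2 * (R1 * R2) * (q.c3 ^ 3 * R ^ 2) :=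
                mul_le_mul_of_nonneg_right s4 (by positivity)
            _ = 2 * ((q.c3 * (R1 * R)) * (q.c3 ^ 2 * (R * R2))) := by ring
            _ ≤ 2 * ((y ^ 5 * a) * (y ^ 11 * (g * Pg))) := by linarith
            _ = _ := by ring
        have k3 : 160 * (224 / q.c3) ^ 11 / q.c3 ^ 5 * y ^ 26 / y ^ 200 * Pi *
            (q.c3 ^ 2 * (a * (g * Pg))) =
            (80 * (224 / q.c3) ^ 11 * y ^ 10 * Pi / (q.c3 ^ 3 * y ^ 200)) *
              (2 * (y ^ 16 * (a * (g * Pg)))) := by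
          field_simp
          ring
        have k4 : 80 * (224 / q.c3) ^ 11 * y ^ 10 * R ^ 2 * E * Pi =
            (80 * (224 / q.c3) ^ 11 * y ^ 10 * Pi / (q.c3 ^ 3 * y ^ 200)) *
              (y ^ 200 * E * (q.c3 ^ 3 * R ^ 2)) := by
          field_simp
        rw [k3, k4]
        exact mul_le_mul_of_nonneg_left k2 (by positivity)

theorem cnt_P (hq : q.Ok) (h8 : q.E8) (r : Fin 11) (hr : r = 1 ∨ r = 3 ∨ r = 5 ∨ r = 7) :
    ∃ x₀ : ℝ, 1 ≤ x₀ ∧ ∀ x ≥ x₀, ∀ (I : Fin 11 → ℕ) (S : Finset (PolyK 11)),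
    (∀ u ∈ S, Siz I u ∧ ∃ v, NP q x 10 u v ∧ (∀ j < r, v j = u j) ∧ v r ≠ u r) →
    (S.card : ℝ) ≤ x ^ (-(2 * q.ε)) * ∏ j, ((2 : ℝ) ^ I j) ^ 2 := by
  classical
  have hε := hq.ε0
  have hc := hq.c30
  obtain ⟨x1, hx1, hm⟩ := master hq hε
  obtain ⟨x2, hx2, hl⟩ := x_large hq (160 * (224 / q.c3) ^ 11 / q.c3 ^ 5) (show 0 < q.ε / 50 by positivity)
  refine ⟨max (max x1 x2) 2, le_max_of_le_right (by norm_num), fun x hx I S hS => ?_⟩
  have hxa : x1 ≤ x := (le_max_left _ _).trans ((le_max_left _ _).trans hx)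
  have hxb : x2 ≤ x := (le_max_right _ _).trans ((le_max_left _ _).trans hx)
  have hxc : 2 ≤ x := (le_max_right _ _).trans hx
  have hx1' : 1 < x := by linarith
  have hx1e : 1 ≤ x := hx1'.le
  have hx0 : 0 < x := by linarith
  obtain ⟨r0, r10, r1, r2, r3, r4, r5, r6, r7, r8⟩ := qn5_fin r hr
  choose! vv hvv using fun u hu => (hS u hu).2
  set y : ℝ := x ^ (q.ε / 50) with hy
  have hy1 : 1 ≤ y := Real.one_le_rpow hx1e (by positivity)
  have hy0 : 0 < y := by linarith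
  have hK : 160 * (224 / q.c3) ^ 11 / q.c3 ^ 5 ≤ y := (hl x hxb).1
  let φ : PolyK 11 → PolyK 11 × (ℤ × ℤ) × (Fin 11 → ℕ) :=
    fun u => (u, cb 10 (vv u) r, qn5_g r u (vv u))
  have hφ : Function.Injective φ := fun a b hab => congrArg Prod.fst hab
  have hO : ∀ i ∈ qn5_O r, i.val % 2 = 1 ∧ i ≠ 10 ∧ i ≠ 10 + 1 := by
    intro i hi
    unfold qn5_O at hi
    rw [mem_filter] at hi
    obtain ⟨i1, i2, _⟩ := qn5_finO r i hr hi.2
    exact ⟨hi.2.1, i1, by simpa using i2⟩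
  have h1 := hm x hxa 10 (qn5_O r) I hO (S.image φ)
    (160 * (224 / q.c3) ^ 11 / q.c3 ^ 5 * y ^ 26 / y ^ 200 * ∏ i ∈ qn5_O r, ((2 : ℝ) ^ I i) ^ 2)
    (mul_nonneg (by positivity) (Finset.prod_nonneg fun i _ => by positivity)) ?_ ?_
  · rw [Finset.card_image_of_injective _ hφ] at h1
    refine h1.trans ?_
    have e1 : x ^ q.ε = y ^ 50 := by
      rw [hy, qn5_pow hx0]
      congr 1
      push_cast
      ring
    have e2 : x ^ (-(2 * q.ε)) = 1 / y ^ 100 := by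
      rw [hy, qn5_pow hx0, Real.rpow_neg hx0.le, one_div]
      congr 2
      push_cast
      ring
    rw [e1, e2, ← Finset.prod_compl_mul_prod (qn5_O r)]
    have hA : 0 < ∏ j ∈ (qn5_O r)ᶜ, ((2 : ℝ) ^ I j) ^ 2 := Finset.prod_pos fun i _ => by positivity
    have hB : 0 < ∏ j ∈ qn5_O r, ((2 : ℝ) ^ I j) ^ 2 := Finset.prod_pos fun i _ => by positivity
    set A : ℝ := ∏ j ∈ (qn5_O r)ᶜ, ((2 : ℝ) ^ I j) ^ 2
    set B : ℝ := ∏ j ∈ qn5_O r, ((2 : ℝ) ^ I j) ^ 2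
    have e3 : y ^ 50 * A * (160 * (224 / q.c3) ^ 11 / q.c3 ^ 5 * y ^ 26 / y ^ 200 * B) =
        (160 * (224 / q.c3) ^ 11 / q.c3 ^ 5) * (y ^ 76 / y ^ 200) * (A * B) := by ring
    rw [e3]
    apply mul_le_mul_of_nonneg_right _ (by positivity)
    calc (160 * (224 / q.c3) ^ 11 / q.c3 ^ 5) * (y ^ 76 / y ^ 200) ≤ y * (y ^ 76 / y ^ 200) :=
          mul_le_mul_of_nonneg_right hK (by positivity)
      _ = y ^ 77 / y ^ 200 := by ring
      _ ≤ y ^ 100 / y ^ 200 := by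
          apply div_le_div_of_nonneg_right _ (by positivity)
          exact pow_le_pow_right₀ hy1 (by norm_num)
      _ = 1 / y ^ 100 := by
          rw [show (200 : ℕ) = 100 + 100 by norm_num, pow_add]
          field_simp
  · intro s hs
    obtain ⟨u, hu, rfl⟩ := Finset.mem_image.1 hs
    exact qn5_MD hq hr hx1' (hS u hu).1 (hvv u hu).1.pu (hvv u hu).1.pv
  · intro s hs
    obtain ⟨u, hu, rfl⟩ := Finset.mem_image.1 hs
    have hNP := (hvv u hu).1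
    have hIu := (hS u hu).1
    refine qn5_N hq h8 hx1e hr hIu hNP (hvv u hu).2.1 hy ?_
    -- the image of `w`
    set A' : ℝ := y ^ 5 * (2 * 2 ^ I r) / q.c3 with hA'
    have hA1 : 2 * 2 ^ I r ≤ A' := by
      rw [hA', le_div_iff₀ hc]
      have k1 : (1 : ℝ) ≤ y ^ 5 := one_le_pow₀ hy1
      have k2 : (0 : ℝ) < 2 * 2 ^ I r := by positivity
      calc 2 * 2 ^ I r * q.c3 ≤ 2 * 2 ^ I r * 1 := mul_le_mul_of_nonneg_left hq.c31 k2.le
        _ = 1 * (2 * 2 ^ I r) := by ring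
        _ ≤ y ^ 5 * (2 * 2 ^ I r) := mul_le_mul_of_nonneg_right k1 k2.le
    have hA0 : 0 ≤ A' := le_trans (by positivity) hA1
    have hfl : (⌊A'⌋₊ : ℝ) ≤ A' := Nat.floor_le hA0
    have hA1' : 1 ≤ ⌊A'⌋₊ := by
      apply Nat.le_floor
      have : (1 : ℝ) ≤ 2 ^ I r := one_le_pow₀ (by norm_num)
      push_cast
      linarith
    have hbd : ∀ a : PolyK 11, (nr (a r) : ℝ) ≤ A' → IsPt q x a →
        (cb 10 a r).1.natAbs ≤ ⌊A'⌋₊ ∧ (cb 10 a r).2.natAbs ≤ ⌊A'⌋₊ := by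
      intro a ha hpa
      have k1 := qn5_cble hpa r
      constructor
      · apply Nat.le_floor
        rw [Nat.cast_natAbs, Int.cast_abs]
        exact k1.1.trans ha
      · apply Nat.le_floor
        rw [Nat.cast_natAbs, Int.cast_abs]
        exact k1.2.trans ha
    have hvr : ∀ a ∈ S, (nr (vv a r) : ℝ) ≤ A' := by
      intro a ha
      obtain ⟨k1, _⟩ := qn5_sizes hq hx1e hr (hS a ha).1 (hvv a ha).1 (hvv a ha).2.1 hy
      rw [hA', le_div_iff₀ hc]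
      linarith
    have hur : (nr (u r) : ℝ) ≤ A' := by
      have k1 := (hIu r).2.le
      have k2 : (nr (u r) : ℝ) ≤ ((2 ^ (I r + 1) : ℕ) : ℝ) := by exact_mod_cast k1
      rw [pow_succ] at k2
      push_cast at k2
      linarith
    have hcard := card_par
      (((S.image φ).filter (fun t => fE (qn5_O r) t = fE (qn5_O r) (φ u) ∧
        fK (qn5_O r) t = fK (qn5_O r) (φ u))).image (fun t => t.2.1))
      ⌊A'⌋₊ ⌊A'⌋₊ (qn5_g r u (vv u) (r - 1) * qn5_g r u (vv u) r) hA1' hA1' (cb 10 u r)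
      (cb_prim hNP.pu 10 r (by
        unfold nb
        rw [mem_filter]
        exact ⟨mem_univ _, r10, by simpa using r0⟩))
      (qn5_J hNP.pu hNP.pv hr (hvv u hu).2.2).1 (hbd u hur hNP.pu).1 (hbd u hur hNP.pu).2
      ?_ ?_ ?_ ?_
    · refine hcard.trans ?_
      push_cast
      have gp : ∀ j, 0 < (qn5_g r u (vv u) j : ℝ) := fun j => by exact_mod_cast qn5_gpos r u _ j
      apply div_le_div_of_nonneg_right _ (mul_pos (gp _) (gp _)).le
      have k1 : (⌊A'⌋₊ : ℝ) * ⌊A'⌋₊ ≤ A' * A' := mul_le_mul hfl hfl (Nat.cast_nonneg _) hA0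
      calc 20 * (⌊A'⌋₊ : ℝ) * ⌊A'⌋₊ = 20 * ((⌊A'⌋₊ : ℝ) * ⌊A'⌋₊) := by ring
        _ ≤ 20 * (A' * A') := by linarith
        _ = _ := by ring
    all_goals
      intro w hw
      obtain ⟨t, ht, rfl⟩ := Finset.mem_image.1 hw
      rw [mem_filter] at ht
      obtain ⟨a, ha, rfl⟩ := Finset.mem_image.1 ht.1
      have hNa := (hvv a ha).1
    · exact cb_prim hNa.pv 10 r (by
        unfold nb
        rw [mem_filter]
        exact ⟨mem_univ _, r10, by simpa using r0⟩)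
    · exact (hbd _ (hvr a ha) hNa.pv).1
    · exact (hbd _ (hvr a ha) hNa.pv).2
    · -- the fibre
      have f1 : a r = u r := by
        have k1 := congrFun ht.2.1 r
        unfold fE at k1
        have k2 : r ∉ qn5_O r := by
          unfold qn5_O
          simp
        rw [if_neg k2, if_neg k2] at k1
        exact k1
      have f2 : cb 10 a r = cb 10 u r := by
        have e : (10 : Fin 11) + 1 = 0 := by decide
        unfold cb
        rw [e, hNa.pu.f0, hNa.pu.f1, hNP.pu.f0, hNP.pu.f1, f1]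
      have f3 : ∀ j, ¬ (j ∈ qn5_O r ∨ j + 1 ∈ qn5_O r) →
          qn5_g r a (vv a) j = qn5_g r u (vv u) j := by
        intro j hj
        have k1 := congrFun ht.2.2 j
        unfold fK at k1
        rw [if_neg hj, if_neg hj] at k1
        exact k1
      have f4 : qn5_g r a (vv a) (r - 1) = qn5_g r u (vv u) (r - 1) := by
        apply f3
        rcases hr with rfl | rfl | rfl | rfl <;> decide
      have f5 : qn5_g r a (vv a) r = qn5_g r u (vv u) r := by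
        apply f3
        rcases hr with rfl | rfl | rfl | rfl <;> decide
      have k := (qn5_J hNa.pu hNa.pv hr (hvv a ha).2.2).2
      rw [f2, f4, f5] at k
      exact k

end Pool.Agent.PNV
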