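import Pool.Agent.Lib_helper96.PNV.Defs
import Pool.Agent.Lib_helper96.PNV.L.QA1
import Pool.Agent.Lib_helper96.PNV.L.QA3
import Pool.Agent.Lib_helper96.PNV.L.QA4
import Pool.Agent.Lib_helper96.PNV.L.QA7
import Pool.Agent.Lib_helper96.PNV.L.QA8
import Pool.Agent.Lib_helper96.PNV.L.QN1
import Pool.Agent.Lib_helper96.PNV.L.QN2

set_option autoImplicit false

namespace Pool.Agent.PNV

open Finset Pool.Agent.PENT Pool.Agent.PENK Pool.Agent.PNI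

variable {q : Prm} {x : ℝ} {u v w : PolyK 11}

/-- odd vertices off the base -/
def qn6_O (b : Fin 11) : Finset (Fin 11) :=
  univ.filter (fun i => i.val % 2 = 1 ∧ i ≠ b ∧ i ≠ b + 1)

/-- the odd vertex of the base -/
def qn6_o (b : Fin 11) : Fin 11 := if b.val % 2 = 1 then b else b + 1

theorem qn6_p11 (F : Fin 11 → ℝ) :
    ∏ j, F j = F 0 * F 1 * F 2 * F 3 * F 4 * F 5 * F 6 * F 7 * F 8 * F 9 * F 10 := by
  rw [Fin.prod_univ_castSucc, Fin.prod_univ_castSucc, Fin.prod_univ_castSucc,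
    Fin.prod_univ_eight]
  rfl

theorem qn6_OO : ∀ b : Fin 11, b ≠ 0 → b ≠ 9 → b ≠ 10 →
    (qn6_o b = 1 ∧ qn6_O b = {3, 5, 7, 9}) ∨ (qn6_o b = 3 ∧ qn6_O b = {1, 5, 7, 9}) ∨
    (qn6_o b = 5 ∧ qn6_O b = {1, 3, 7, 9}) ∨ (qn6_o b = 7 ∧ qn6_O b = {1, 3, 5, 9}) ∨
    (qn6_o b = 9 ∧ qn6_O b = {1, 3, 5, 7}) := by decide

theorem qn6_card : ∀ b : Fin 11, b ≠ 0 → b ≠ 9 → b ≠ 10 → (qn6_O b).card = 4 := by decide

theorem qn6_prod4 (F : Fin 11 → ℝ) (a b c d : Fin 11) (h : a ∉ ({b, c, d} : Finset (Fin 11)))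
    (h2 : b ∉ ({c, d} : Finset (Fin 11))) (h3 : c ≠ d) :
    ∏ i ∈ ({a, b, c, d} : Finset (Fin 11)), F i = F a * F b * F c * F d := by
  rw [Finset.prod_insert h, Finset.prod_insert h2, Finset.prod_insert (by simpa using h3),
    Finset.prod_singleton]
  ring

theorem qn6_P1 (b : Fin 11) (hb : b ≠ 0) (hb9 : b ≠ 9) (hb10 : b ≠ 10) (F : Fin 11 → ℝ) :
    (∏ i ∈ qn6_O b, F (i - 1) * F i) * (F (qn6_o b - 1) * F (qn6_o b)) * F 10 = ∏ j, F j := by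
  rcases qn6_OO b hb hb9 hb10 with ⟨h1, h2⟩ | ⟨h1, h2⟩ | ⟨h1, h2⟩ | ⟨h1, h2⟩ | ⟨h1, h2⟩ <;>
  · rw [h1, h2, qn6_p11, qn6_prod4 _ _ _ _ _ (by decide) (by decide) (by decide)]
    simp only [Fin.reduceSub, Fin.isValue]
    ring

theorem qn6_P2 (b : Fin 11) (hb : b ≠ 0) (hb9 : b ≠ 9) (hb10 : b ≠ 10) (F : Fin 11 → ℝ) :
    (∏ i ∈ qn6_O b, F (i - 1) * F (i + 1)) * (F (qn6_o b - 1) * F (qn6_o b + 1)) *
      (F 0 * F 10) = (F 0 * F 2 * F 4 * F 6 * F 8 * F 10) ^ 2 := by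
  rcases qn6_OO b hb hb9 hb10 with ⟨h1, h2⟩ | ⟨h1, h2⟩ | ⟨h1, h2⟩ | ⟨h1, h2⟩ | ⟨h1, h2⟩ <;>
  · rw [h1, h2, qn6_prod4 _ _ _ _ _ (by decide) (by decide) (by decide)]
    simp only [Fin.reduceSub, Fin.reduceAdd, Fin.isValue]
    ring

theorem qn6_P2' (b : Fin 11) (hb : b ≠ 0) (hb9 : b ≠ 9) (hb10 : b ≠ 10) (F : Fin 11 → ℝ)
    (hF : ∀ j, 1 ≤ F j) :
    (∏ i ∈ qn6_O b, F (i - 1) * F (i + 1)) ≤ (F 0 * F 2 * F 4 * F 6 * F 8 * F 10) ^ 2 := by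
  rw [← qn6_P2 b hb hb9 hb10 F]
  have h0 : 0 ≤ ∏ i ∈ qn6_O b, F (i - 1) * F (i + 1) :=
    Finset.prod_nonneg fun i _ => mul_nonneg (zero_le_one.trans (hF _)) (zero_le_one.trans (hF _))
  have h1 : 1 ≤ F (qn6_o b - 1) * F (qn6_o b + 1) :=
    one_le_mul_of_one_le_of_one_le (hF _) (hF _)
  have h2 : 1 ≤ F 0 * F 10 := one_le_mul_of_one_le_of_one_le (hF _) (hF _)
  calc (∏ i ∈ qn6_O b, F (i - 1) * F (i + 1))
      = (∏ i ∈ qn6_O b, F (i - 1) * F (i + 1)) * 1 * 1 := by ring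
    _ ≤ _ := by
        apply mul_le_mul _ h2 zero_le_one (mul_nonneg h0 (zero_le_one.trans h1))
        exact mul_le_mul_of_nonneg_left h1 h0

/-! ### membership facts -/

theorem qn6_m0 : ∀ b : Fin 11, b ≠ 0 → b ≠ 10 → (0 : Fin 11) ∈ nb b := by decide
theorem qn6_m10 : ∀ b : Fin 11, b ≠ 9 → b ≠ 10 → (10 : Fin 11) ∈ nb b := by decide
theorem qn6_m1 : ∀ b j : Fin 11, j ∈ vx b j := by decide
theorem qn6_m2 : ∀ b j : Fin 11, j + 1 ∈ vx b j := by decide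
theorem qn6_m3 : ∀ b : Fin 11, ∀ i ∈ qn6_O b, i.val % 2 = 1 ∧ i ≠ b ∧ i ≠ b + 1 := by decide
theorem qn6_m4 : ∀ b : Fin 11, ∀ i ∈ qn6_O b, i ∈ vx b (i - 1) := by decide
theorem qn6_m5 : ∀ b j : Fin 11, ev j ∈ vx b j := by decide
theorem qn6_m6 : ∀ b : Fin 11, ∀ i ∈ qn6_O b, (ev (i - 1)).val % 2 = 0 ∧ (ev i).val % 2 = 0 := by
  decide
theorem qn6_m7 : ∀ b : Fin 11, b ∉ qn6_O b ∧ b + 1 ∉ qn6_O b ∧ 0 ∉ qn6_O b := by decide
theorem qn6_m8 : ∀ b : Fin 11, b ≠ 0 → b ≠ 9 → b ≠ 10 →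
    qn6_o b - 1 ∉ qn6_O b ∧ qn6_o b - 1 + 1 ∉ qn6_O b ∧ qn6_o b ∉ qn6_O b ∧
      qn6_o b + 1 ∉ qn6_O b := by decide
theorem qn6_m9 : ∀ b : Fin 11, b ≠ 0 → b ≠ 9 → b ≠ 10 → ∀ j : Fin 11,
    j = qn6_o b - 1 ∨ j = qn6_o b → (0 : Fin 11) ∈ vx b j ∨
      ((j = b - 1 ∧ b ≠ b - 1 ∧ (0 : Fin 11) ≠ b - 1) ∨
        (j = b + 1 ∧ b ≠ b + 1 ∧ (0 : Fin 11) ≠ b + 1)) := by decide
theorem qn6_m10' : ∀ b : Fin 11, qn6_o b - 1 ≠ qn6_o b := by decide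
theorem qn6_m11 : ∀ b : Fin 11, b ≠ 0 → b ≠ 9 → b ≠ 10 → b + 1 ≠ 0 ∧ b + 1 ≠ 10 := by decide
theorem qn6_m12 : ∀ b e : Fin 11, e ≠ b → e ≠ b + 1 → e ∈ nb b := by decide
theorem qn6_m14 : ∀ b : Fin 11, b ≠ b + 1 := by decide
theorem qn6_m13 : ∀ b : Fin 11, (0 : Fin 11) ∈ vx b b := by decide

/-! ### the numbers `g_j` -/

/-- the number `g_j` -/
noncomputable def qn6_g (b : Fin 11) (u v : PolyK 11) (j : Fin 11) : ℕ :=
  dil b u v j b * dil b u v j 0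

theorem qn6_cop (hv : IsPt q x v) (b : Fin 11) (hb : b ≠ 0) (j : Fin 11) :
    Nat.Coprime (dil b u v j b) (dil b u v j 0) :=
  Nat.Coprime.of_dvd (dil_dvd b j b u v).2 (dil_dvd b j 0 u v).2 (hv.co b 0 hb)

theorem qn6_gdvd (hv : IsPt q x v) (b : Fin 11) (hb : b ≠ 0) (j : Fin 11) :
    qn6_g b u v j ∣ dn u j :=
  Nat.Coprime.mul_dvd_of_dvd_of_dvd (qn6_cop hv b hb j) (dil_dvd b j b u v).1
    (dil_dvd b j 0 u v).1

theorem qn6_gpos (b : Fin 11) (u v : PolyK 11) (j : Fin 11) : 0 < qn6_g b u v j :=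
  Nat.mul_pos (dil_pos b j b u v) (dil_pos b j 0 u v)

theorem qn6_muldvd {a c : ℕ} (h : Nat.Coprime a c) {z : ℤ} (h1 : (a : ℤ) ∣ z)
    (h2 : (c : ℤ) ∣ z) : ((a * c : ℕ) : ℤ) ∣ z := by
  rw [Int.natCast_dvd] at h1 h2 ⊢
  exact Nat.Coprime.mul_dvd_of_dvd_of_dvd h h1 h2

theorem qn6_gdt (hv : IsPt q x v) (b : Fin 11) (hb : b ≠ 0) (j m : Fin 11) (hm : m ∈ vx b j) :
    (qn6_g b u v j : ℤ) ∣ dt (cb b u m) (cb b v 0) :=
  qn6_muldvd (qn6_cop hv b hb j) (dil_dvd_dt b j b m 0 u v hm (qn6_m13 b))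
    (dil_dvd_dt b j 0 m 0 u v hm (qn6_m1 b 0))

theorem qn6_other (hu : IsPt q x u) (hv : IsPt q x v) (b : Fin 11) (hb : b ≠ 0) (hb9 : b ≠ 9)
    (hb10 : b ≠ 10) (j : Fin 11) (hj : j = qn6_o b - 1 ∨ j = qn6_o b) :
    (qn6_g b u v j : ℤ) ∣ dt (cb b u 0) (cb b v 0) := by
  rcases qn6_m9 b hb hb9 hb10 j hj with h | h | h
  · exact qn6_gdt hv b hb j 0 h
  · have h1 : dil b u v j b = 1 := dil_one b j b u v fun p hp hC =>
      h.2.1 ((CL_spec hu hv hp b j b hC).1.mp h.1)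
    have h2 : dil b u v j 0 = 1 := dil_one b j 0 u v fun p hp hC =>
      h.2.2 ((CL_spec hu hv hp b j 0 hC).1.mp h.1)
    rw [qn6_g, h1, h2]
    simp
  · have h1 : dil b u v j b = 1 := dil_one b j b u v fun p hp hC =>
      h.2.1 ((CL_spec hu hv hp b j b hC).2.mp h.1)
    have h2 : dil b u v j 0 = 1 := dil_one b j 0 u v fun p hp hC =>
      h.2.2 ((CL_spec hu hv hp b j 0 hC).2.mp h.1)
    rw [qn6_g, h1, h2]
    simp

/-! ### non-vanishing -/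

theorem qn6_nr (a : ℤ × ℤ) : |(a.1 : ℝ)| ≤ nr a ∧ |(a.2 : ℝ)| ≤ nr a := by
  have h1 : |(a.1 : ℝ)| = (a.1.natAbs : ℝ) := by
    rw [Nat.cast_natAbs, Int.cast_abs]
  have h2 : |(a.2 : ℝ)| = (a.2.natAbs : ℝ) := by
    rw [Nat.cast_natAbs, Int.cast_abs]
  rw [h1, h2]
  unfold nr
  push_cast
  constructor <;> linarith [(Nat.cast_nonneg a.1.natAbs : (0 : ℝ) ≤ _),
    (Nat.cast_nonneg a.2.natAbs : (0 : ℝ) ≤ _)]

theorem qn6_ne (hq : q.Ok) (hn : q.Nar) (b : Fin 11) (hb : b ≠ 0) (hb9 : b ≠ 9)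
    (hb10 : b ≠ 10) (hx : 1 ≤ x) (hC : 1 / q.c3 ^ 2 + 1 ≤ x ^ q.ε) (hu : IsPt q x u)
    (hv : IsPt q x v) (h0 : cb b v 0 ≠ cb b u 0) (h10' : cb b v 0 ≠ cb b u 10)
    (h10 : cb b v 0 ≠ -cb b u 10) (e : Fin 11) :
    e.val % 2 = 0 → dt (cb b u e) (cb b v 0) ≠ 0 := by
  intro he hz
  have hbp := qn6_m11 b hb hb9 hb10
  have u2 := hu.sg 0 (b + 1) hbp.1.symm
  have v2 := hv.sg 0 (b + 1) hbp.1.symm
  have hpv := cb_prim hv b 0 (qn6_m0 b hb hb10)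
  by_cases e0 : e = 0
  · rw [e0] at hz
    rcases par_eq (cb_prim hu b 0 (qn6_m0 b hb hb10)) hpv hz with h | h
    · exact h0 h.symm
    · have h1 := congrArg Prod.fst h
      rw [cb_zero u b hb10, cb_zero v b hb10] at h1
      simp only [Prod.fst_neg] at h1
      rw [h1] at u2
      nlinarith
  by_cases e10 : e = 10
  · rw [e10] at hz
    rcases par_eq (cb_prim hu b 10 (qn6_m10 b hb9 hb10)) hpv hz with h | h
    · exact h10' h.symm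
    · apply h10
      rw [h, neg_neg]
  by_cases eb : e = b
  · rw [eb, (cb_base b hb10 u).1, cb_zero v b hb10] at hz
    have h1 : dl u b * dt (v 0) (v b) = 0 := by
      have h2 : dt (dl u b, 0) (dt (v 0) (v (b + 1)), -dt (v 0) (v b)) =
          -(dl u b * dt (v 0) (v b)) := by
        generalize dt (v 0) (v (b + 1)) = A
        generalize dt (v 0) (v b) = B
        unfold dt
        ring
      rw [h2] at hz
      linarith
    rcases mul_eq_zero.mp h1 with h | h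
    · exact (qa4_dl_ne hu b) h
    · exact dt_ne hv 0 b hb.symm h
  by_cases eb1 : e = b + 1
  · rw [eb1, (cb_base b hb10 u).2, cb_zero v b hb10] at hz
    have h1 : dl u b * dt (v 0) (v (b + 1)) = 0 := by
      have h2 : dt (0, dl u b) (dt (v 0) (v (b + 1)), -dt (v 0) (v b)) =
          -(dl u b * dt (v 0) (v (b + 1))) := by
        generalize dt (v 0) (v (b + 1)) = A
        generalize dt (v 0) (v b) = B
        unfold dt
        ring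
      rw [h2] at hz
      linarith
    rcases mul_eq_zero.mp h1 with h | h
    · exact (qa4_dl_ne hu b) h
    · exact dt_ne hv 0 (b + 1) hbp.1.symm h
  -- the other even vertices
  have hnb := qn6_m12 b e eb eb1
  have hpu := cb_prim hu b e hnb
  have habs : |((cb b u e).1 : ℝ)| = |((cb b v 0).1 : ℝ)| := by
    rcases par_eq hpu hpv hz with h | h
    · rw [h]
    · rw [h, Prod.fst_neg, Int.cast_neg, abs_neg]
  have hc := hq.c30
  have a1 : q.c3 * nr (u e) * nr (u (b + 1)) ≤ |((cb b u e).1 : ℝ)| := by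
    rw [cb_of u hb10]
    exact hu.sep e (b + 1) eb1
  have a2' : |((cb b v 0).1 : ℝ)| ≤ 1 / q.c3 * nr (v (b + 1)) :=
    (cb_le hv b 0).1.trans (mul_le_mul_of_nonneg_right (ends_le hq hv).1 (Nat.cast_nonneg _))
  have a2 : q.c3 * |((cb b v 0).1 : ℝ)| ≤ nr (v (b + 1)) := by
    have := mul_le_mul_of_nonneg_left a2' hc.le
    rw [← mul_assoc, mul_one_div_cancel hc.ne', one_mul] at this
    exact this
  have hx0 : 0 < x := by linarith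
  have a3 : (nr (v (b + 1)) : ℝ) ≤ x ^ (q.ε / 50) * x ^ q.lo (b + 1) := by
    rw [← Real.rpow_add hx0]
    refine (hv.hi (b + 1)).trans (Real.rpow_le_rpow_of_exponent_le hx ?_)
    linarith [hn (b + 1)]
  have a4 : x ^ (4 * q.ε) ≤ nr (u e) :=
    (Real.rpow_le_rpow_of_exponent_le hx (hq.pos e e0 e10)).trans (hu.lo e)
  have a5 : x ^ q.lo (b + 1) ≤ nr (u (b + 1)) := hu.lo (b + 1)
  have hL : 0 < x ^ q.lo (b + 1) := Real.rpow_pos_of_pos hx0 _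
  have a6 : q.c3 * x ^ (4 * q.ε) * x ^ q.lo (b + 1) ≤ q.c3 * nr (u e) * nr (u (b + 1)) := by
    have := hq.c30
    have h4 : 0 < x ^ (4 * q.ε) := Real.rpow_pos_of_pos hx0 _
    exact mul_le_mul (mul_le_mul_of_nonneg_left a4 this.le) a5 hL.le
      (mul_nonneg this.le (h4.le.trans a4))
  have a7 : q.c3 ^ 2 * x ^ (4 * q.ε) * x ^ q.lo (b + 1) ≤ x ^ (q.ε / 50) * x ^ q.lo (b + 1) := by
    calc q.c3 ^ 2 * x ^ (4 * q.ε) * x ^ q.lo (b + 1) =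
        q.c3 * (q.c3 * x ^ (4 * q.ε) * x ^ q.lo (b + 1)) := by ring
      _ ≤ q.c3 * |((cb b v 0).1 : ℝ)| := by
          apply mul_le_mul_of_nonneg_left _ hc.le
          linarith
      _ ≤ _ := by linarith
  have a8 : q.c3 ^ 2 * x ^ (4 * q.ε) ≤ x ^ (q.ε / 50) := le_of_mul_le_mul_right a7 hL
  have hε := hq.ε0
  have a9 : x ^ (4 * q.ε) = x ^ (4 * q.ε - q.ε / 50) * x ^ (q.ε / 50) := by
    rw [← Real.rpow_add hx0]
    ring_nf
  have hE : 0 < x ^ (q.ε / 50) := Real.rpow_pos_of_pos hx0 _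
  have b1 : q.c3 ^ 2 * x ^ (4 * q.ε - q.ε / 50) ≤ 1 := by
    rw [a9] at a8
    by_contra hcon
    push Not at hcon
    nlinarith
  have b2 : x ^ q.ε ≤ x ^ (4 * q.ε - q.ε / 50) :=
    Real.rpow_le_rpow_of_exponent_le hx (by linarith)
  have hc2 : 0 < q.c3 ^ 2 := by positivity
  have b3 : q.c3 ^ 2 * (1 / q.c3 ^ 2 + 1) ≤ 1 :=
    (mul_le_mul_of_nonneg_left (hC.trans b2) hc2.le).trans b1
  have b4 : q.c3 ^ 2 * (1 / q.c3 ^ 2 + 1) = 1 + q.c3 ^ 2 := by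
    have := hc2.ne'
    field_simp
  rw [b4] at b3
  linarith

/-! ### the data -/

theorem qn6_le_x (hq : q.Ok) (hx : 1 ≤ x) (i j : Fin 11) : x ^ q.hi i * x ^ q.hi j ≤ x := by
  have h1 : ∀ j, q.hi j ≤ 1 / 10 := by
    intro j
    refine le_trans ?_ hq.sm
    exact Finset.single_le_sum (f := fun j => q.hi j) (fun i _ => hi_nonneg hq i)
      (Finset.mem_univ j)
  have h2 := h1 i
  have h3 := h1 j
  rw [← Real.rpow_add (by linarith)]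
  calc x ^ (q.hi i + q.hi j) ≤ x ^ (1 : ℝ) := Real.rpow_le_rpow_of_exponent_le hx (by linarith)
    _ = x := Real.rpow_one x

theorem qn6_MD (hq : q.Ok) (hx : 1 ≤ x) (b : Fin 11) (hb : b ≠ 0) (hb10 : b ≠ 10)
    {I : Fin 11 → ℕ} (hI : Siz I u) (hu : IsPt q x u) (hv : IsPt q x v)
    (hne : ∀ e : Fin 11, e.val % 2 = 0 → dt (cb b u e) (cb b v 0) ≠ 0) :
    MD q x b (qn6_O b) I (u, cb b v 0, qn6_g b u v) where
  pt := hu
  siz := hI
  wp := cb_prim hv b 0 (qn6_m0 b hb hb10)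
  wb := by
    have h1 := cb_le hv b 0
    have hx0 : 0 < x := by linarith
    have k1 := mul_le_mul (hv.hi 0) (hv.hi (b + 1)) (Nat.cast_nonneg _) (by positivity)
    have k2 := mul_le_mul (hv.hi b) (hv.hi 0) (Nat.cast_nonneg _) (by positivity)
    exact ⟨h1.1.trans (k1.trans (qn6_le_x hq hx _ _)),
      h1.2.trans (k2.trans (qn6_le_x hq hx _ _))⟩
  dv := fun j => qn6_gdvd hv b hb j
  par := fun i hi => ⟨qn6_gdt hv b hb (i - 1) i (qn6_m4 b i hi),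
    qn6_gdt hv b hb i i (qn6_m1 b i)⟩
  evd := fun i hi j hj => ⟨qn6_gdt hv b hb j (ev j) (qn6_m5 b j), hne _ (by
    rcases hj with rfl | rfl
    · exact (qn6_m6 b i hi).1
    · exact (qn6_m6 b j hi).2)⟩

/-- the number of values of `w` in a fibre -/
theorem qn6_img (b : Fin 11) (hb : b ≠ 0) (hb9 : b ≠ 9) (hb10 : b ≠ 10) (hx : 1 ≤ x)
    (hq : q.Ok) (T : Finset (PolyK 11 × (ℤ × ℤ) × (Fin 11 → ℕ)))
    (hT : ∀ t ∈ T, ∃ v, t = (t.1, cb b v 0, qn6_g b t.1 v) ∧ IsPt q x t.1 ∧ IsPt q x v ∧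
      dt (cb b t.1 0) (cb b v 0) ≠ 0)
    (s : PolyK 11 × (ℤ × ℤ) × (Fin 11 → ℕ)) (hs : s ∈ T)
    (hF : ∀ t ∈ T, fE (qn6_O b) t = fE (qn6_O b) s ∧ fK (qn6_O b) t = fK (qn6_O b) s) :
    ((T.image (fun t => t.2.1)).card : ℝ) ≤
      20 * (x ^ q.hi (b + 1) / q.c3) * (x ^ q.hi b / q.c3) /
        ((s.2.2 (qn6_o b - 1) * s.2.2 (qn6_o b) : ℕ) : ℝ) := by
  have hc := hq.c30
  have hx0 : 0 < x := by linarith
  obtain ⟨v0, hs0, hu0, hv0, -⟩ := hT s hs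
  have hone : ∀ j, 1 ≤ x ^ q.hi j / q.c3 := by
    intro j
    have h2 : (1 : ℝ) ≤ x ^ q.hi j := Real.one_le_rpow hx (hi_nonneg hq j)
    rw [le_div_iff₀ hc]
    linarith [hq.c31]
  have hA : 1 ≤ ⌊x ^ q.hi (b + 1) / q.c3⌋₊ := Nat.le_floor (by exact_mod_cast hone _)
  have hB : 1 ≤ ⌊x ^ q.hi b / q.c3⌋₊ := Nat.le_floor (by exact_mod_cast hone _)
  have hm7 := qn6_m7 b
  have hm8 := qn6_m8 b hb hb9 hb10
  have hle1 : ∀ w : PolyK 11, IsPt q x w →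
      (cb b w 0).1.natAbs ≤ ⌊x ^ q.hi (b + 1) / q.c3⌋₊ := by
    intro w hw
    apply Nat.le_floor
    have h1 := (cb_le hw b 0).1
    rw [Nat.cast_natAbs, Int.cast_abs]
    have h2 := mul_le_mul (ends_le hq hw).1 (hw.hi (b + 1)) (Nat.cast_nonneg _) (by positivity)
    calc |((cb b w 0).1 : ℝ)| ≤ _ := h1
      _ ≤ _ := h2
      _ = _ := by ring
  have hle2 : ∀ w : PolyK 11, IsPt q x w → (cb b w 0).2.natAbs ≤ ⌊x ^ q.hi b / q.c3⌋₊ := by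
    intro w hw
    apply Nat.le_floor
    have h1 := (cb_le hw b 0).2
    rw [Nat.cast_natAbs, Int.cast_abs]
    have h2 := mul_le_mul (hw.hi b) (ends_le hq hw).1 (Nat.cast_nonneg _) (by positivity)
    calc |((cb b w 0).2 : ℝ)| ≤ _ := h1
      _ ≤ _ := h2
      _ = _ := by ring
  have hsq : ∀ j, Squarefree (s.2.2 j) := by
    intro j
    rw [hs0]
    exact Squarefree.squarefree_of_dvd (qn6_gdvd hv0 b hb j) (hu0.sq j)
  have hJ : Squarefree (s.2.2 (qn6_o b - 1) * s.2.2 (qn6_o b)) := by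
    rw [Nat.squarefree_mul]
    · exact ⟨hsq _, hsq _⟩
    · have h1 := hu0.co (qn6_o b - 1) (qn6_o b) (qn6_m10' b)
      rw [hs0]
      exact Nat.Coprime.of_dvd (qn6_gdvd hv0 b hb _) (qn6_gdvd hv0 b hb _) h1
  have key : ∀ w ∈ T.image (fun t => t.2.1), Int.gcd w.1 w.2 = 1 ∧
      w.1.natAbs ≤ ⌊x ^ q.hi (b + 1) / q.c3⌋₊ ∧ w.2.natAbs ≤ ⌊x ^ q.hi b / q.c3⌋₊ ∧
      (((s.2.2 (qn6_o b - 1) * s.2.2 (qn6_o b) : ℕ) : ℤ) ∣ dt (cb b s.1 0) w ∧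
        dt (cb b s.1 0) w ≠ 0) := by
    intro w hw
    rw [mem_image] at hw
    obtain ⟨t, ht, htw⟩ := hw
    obtain ⟨v, ht0, hu, hv, hne⟩ := hT t ht
    have hw' : w = cb b v 0 := by
      rw [← htw, ht0]
    obtain ⟨f1, f2⟩ := hF t ht
    have g1 : ∀ j, j ∉ qn6_O b → t.1 j = s.1 j := by
      intro j hj
      have := congrFun f1 j
      simpa [fE, hj] using this
    have g2 : ∀ j, j ∉ qn6_O b → j + 1 ∉ qn6_O b → t.2.2 j = s.2.2 j := by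
      intro j hj hj1
      have := congrFun f2 j
      simpa [fK, hj, hj1] using this
    have hz : cb b s.1 0 = cb b t.1 0 := by
      rw [cb_of _ hb10, cb_of _ hb10, g1 0 hm7.2.2, g1 b hm7.1, g1 (b + 1) hm7.2.1]
    have e1 : s.2.2 (qn6_o b - 1) = qn6_g b t.1 v (qn6_o b - 1) := by
      rw [← g2 _ hm8.1 hm8.2.1, ht0]
    have e2 : s.2.2 (qn6_o b) = qn6_g b t.1 v (qn6_o b) := by
      rw [← g2 _ hm8.2.2.1 hm8.2.2.2, ht0]
    rw [hw']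
    refine ⟨cb_prim hv b 0 (qn6_m0 b hb hb10), hle1 v hv, hle2 v hv, ?_, ?_⟩
    · rw [hz, e1, e2]
      apply qn6_muldvd
      · exact Nat.Coprime.of_dvd (qn6_gdvd hv b hb _) (qn6_gdvd hv b hb _)
          (hu.co (qn6_o b - 1) (qn6_o b) (qn6_m10' b))
      · exact qn6_other hu hv b hb hb9 hb10 _ (Or.inl rfl)
      · exact qn6_other hu hv b hb hb9 hb10 _ (Or.inr rfl)
    · rw [hz]
      exact hne
  have h1 := card_par (T.image (fun t => t.2.1)) ⌊x ^ q.hi (b + 1) / q.c3⌋₊ ⌊x ^ q.hi b / q.c3⌋₊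
    (s.2.2 (qn6_o b - 1) * s.2.2 (qn6_o b)) hA hB (cb b s.1 0)
    (cb_prim hu0 b 0 (qn6_m0 b hb hb10)) hJ (hle1 _ hu0) (hle2 _ hu0)
    (fun w hw => (key w hw).1) (fun w hw => (key w hw).2.1) (fun w hw => (key w hw).2.2.1)
    (fun w hw => (key w hw).2.2.2)
  refine h1.trans ?_
  apply div_le_div_of_nonneg_right _ (Nat.cast_nonneg _)
  have f1 : (⌊x ^ q.hi (b + 1) / q.c3⌋₊ : ℝ) ≤ x ^ q.hi (b + 1) / q.c3 :=
    Nat.floor_le (by positivity)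
  have f2 : (⌊x ^ q.hi b / q.c3⌋₊ : ℝ) ≤ x ^ q.hi b / q.c3 := Nat.floor_le (by positivity)
  exact mul_le_mul (mul_le_mul_of_nonneg_left f1 (by norm_num)) f2 (Nat.cast_nonneg _)
    (by positivity)

/-- one factor -/
theorem qn6_fac (a t c G H : ℝ) (ha : 1 ≤ a) (ht : 1 ≤ t) (hc : 1 ≤ c) (hG : 1 ≤ G)
    (hH : 1 ≤ H) (h1 : G ≤ 4 * (a * t)) (h2 : H ≤ 4 * (t * c)) :
    128 * t ^ 2 / (G * H) + 6 ≤ 224 * ((a * c) * t ^ 2 / (G * H)) := by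
  have hGH : 0 < G * H := by positivity
  have h3 : G * H ≤ 16 * ((a * c) * t ^ 2) := by
    calc G * H ≤ (4 * (a * t)) * (4 * (t * c)) :=
          mul_le_mul h1 h2 (by linarith) (by positivity)
      _ = 16 * ((a * c) * t ^ 2) := by ring
  have h4 : t ^ 2 ≤ (a * c) * t ^ 2 := by
    have : 1 ≤ a * c := one_le_mul_of_one_le_of_one_le ha hc
    nlinarith [sq_nonneg t]
  have h5 : 6 ≤ 96 * ((a * c) * t ^ 2 / (G * H)) := by
    rw [mul_div_assoc', le_div_iff₀ hGH]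
    linarith
  have h6 : 128 * t ^ 2 / (G * H) ≤ 128 * ((a * c) * t ^ 2 / (G * H)) := by
    rw [mul_div_assoc, ]
    apply mul_le_mul_of_nonneg_left _ (by norm_num)
    exact div_le_div_of_nonneg_right h4 hGH.le
  linarith

/-- the product of the factors -/
theorem qn6_facs (b : Fin 11) (hb : b ≠ 0) (hb9 : b ≠ 9) (hb10 : b ≠ 10) (U G : Fin 11 → ℝ)
    (hU : ∀ j, 1 ≤ U j) (hG : ∀ j, 1 ≤ G j) (h : ∀ j, G j ≤ 4 * (U j * U (j + 1))) :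
    ∏ i ∈ qn6_O b, (128 * U i ^ 2 / (G (i - 1) * G i) + 6) ≤
      224 ^ 4 * (U 0 * U 2 * U 4 * U 6 * U 8 * U 10) ^ 2 * (∏ i ∈ qn6_O b, U i ^ 2) /
        ∏ i ∈ qn6_O b, (G (i - 1) * G i) := by
  have hU0 : ∀ j, 0 < U j := fun j => lt_of_lt_of_le zero_lt_one (hU j)
  have hG0 : ∀ j, 0 < G j := fun j => lt_of_lt_of_le zero_lt_one (hG j)
  have h1 : ∏ i ∈ qn6_O b, (128 * U i ^ 2 / (G (i - 1) * G i) + 6) ≤
      ∏ i ∈ qn6_O b, (224 * ((U (i - 1) * U (i + 1)) * U i ^ 2 / (G (i - 1) * G i))) := by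
    apply Finset.prod_le_prod
    · intro i _
      have := hU0 i
      have := hG0 i
      have := hG0 (i - 1)
      positivity
    · intro i _
      have h2 := h (i - 1)
      rw [sub_add_cancel] at h2
      exact qn6_fac _ _ _ _ _ (hU _) (hU _) (hU _) (hG _) (hG _) h2 (h i)
  refine h1.trans ?_
  rw [Finset.prod_mul_distrib, Finset.prod_div_distrib, Finset.prod_mul_distrib,
    Finset.prod_const, qn6_card b hb hb9 hb10]
  have h3 := qn6_P2' b hb hb9 hb10 U hU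
  have h4 : 0 < ∏ i ∈ qn6_O b, (G (i - 1) * G i) :=
    Finset.prod_pos fun i _ => mul_pos (hG0 _) (hG0 _)
  have h5 : 0 ≤ ∏ i ∈ qn6_O b, U i ^ 2 := Finset.prod_nonneg fun i _ => sq_nonneg _
  rw [mul_div_assoc', mul_assoc]
  apply div_le_div_of_nonneg_right _ h4.le
  apply mul_le_mul_of_nonneg_left _ (by norm_num)
  exact mul_le_mul_of_nonneg_right h3 h5

/-- the main inequality for one `s` -/
theorem qn6_num (hq : q.Ok) (hn : q.Nar) (b : Fin 11) (hx : 1 ≤ x) (hv : IsPt q x v)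
    (hu : IsPt q x u) (hnv : ∀ l, (dn v l : ℝ) ≤ x ^ (q.ε / 10) * gl b u v l) :
    x ^ q.hi (b + 1) * x ^ q.hi b * q.c3 ^ 2 ≤
      x ^ (q.ε - q.lo 1) * ∏ j, (qn6_g b u v j : ℝ) := by
  have hx0 : 0 < x := by linarith
  have hε := hq.ε0
  have hc := hq.c30
  have hP : ∏ j, (qn6_g b u v j : ℝ) = (gl b u v b : ℝ) * gl b u v 0 := by
    rw [gl_eq hu hv b b, gl_eq hu hv b 0]
    push_cast
    rw [← Finset.prod_mul_distrib]
    refine Finset.prod_congr rfl fun j _ => ?_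
    unfold qn6_g
    push_cast
    rfl
  rw [hP]
  have h1 := hnv b
  have h2 := hnv 0
  have h3 := dn_ge_nr hv b
  have h4 := dn_ge_nr hv 0
  rw [zero_add] at h4
  have h5 : x ^ q.lo 1 ≤ nr (v 1) := hv.lo 1
  have hA : ∀ j, x ^ q.hi j ≤ x ^ (q.ε / 50) * nr (v j) := by
    intro j
    calc x ^ q.hi j ≤ x ^ (q.ε / 50 + q.lo j) :=
          Real.rpow_le_rpow_of_exponent_le hx (by linarith [hn j])
      _ = x ^ (q.ε / 50) * x ^ q.lo j := Real.rpow_add hx0 _ _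
      _ ≤ _ := mul_le_mul_of_nonneg_left (hv.lo j) (Real.rpow_nonneg hx0.le _)
  have hp : ∀ y : ℝ, 0 < x ^ y := fun y => Real.rpow_pos_of_pos hx0 y
  have n0 : ∀ j, (0 : ℝ) ≤ nr (v j) := fun j => Nat.cast_nonneg _
  have h6 : q.c3 * x ^ q.lo 1 ≤ (dn v 0 : ℝ) := by
    refine (mul_le_mul_of_nonneg_left h5 hc.le).trans (le_trans ?_ h4)
    have h51 := one_le_nr hv 0
    have h52 : q.c3 * nr (v 1) * 1 ≤ q.c3 * nr (v 1) * nr (v 0) :=
      mul_le_mul_of_nonneg_left h51 (mul_nonneg hc.le (n0 1))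
    linarith
  have h7 : x ^ q.hi (b + 1) * x ^ q.hi b * q.c3 ^ 2 * x ^ q.lo 1 ≤
      (x ^ (q.ε / 50) * x ^ (q.ε / 50) * x ^ (q.ε / 10) * x ^ (q.ε / 10)) *
        ((gl b u v b : ℝ) * gl b u v 0) := by
    calc x ^ q.hi (b + 1) * x ^ q.hi b * q.c3 ^ 2 * x ^ q.lo 1
        ≤ (x ^ (q.ε / 50) * nr (v (b + 1))) * (x ^ (q.ε / 50) * nr (v b)) * q.c3 ^ 2 *
          x ^ q.lo 1 := by
          apply mul_le_mul_of_nonneg_right _ (hp _).le
          apply mul_le_mul_of_nonneg_right _ (sq_nonneg _)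
          exact mul_le_mul (hA _) (hA _) (hp _).le (mul_nonneg (hp _).le (n0 _))
      _ = (x ^ (q.ε / 50) * x ^ (q.ε / 50)) *
          ((q.c3 * nr (v b) * nr (v (b + 1))) * (q.c3 * x ^ q.lo 1)) := by ring
      _ ≤ (x ^ (q.ε / 50) * x ^ (q.ε / 50)) * ((dn v b : ℝ) * dn v 0) := by
          apply mul_le_mul_of_nonneg_left _ (mul_pos (hp _) (hp _)).le
          exact mul_le_mul h3 h6 (mul_pos hc (hp _)).le (Nat.cast_nonneg _)
      _ ≤ (x ^ (q.ε / 50) * x ^ (q.ε / 50)) *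
          ((x ^ (q.ε / 10) * gl b u v b) * (x ^ (q.ε / 10) * gl b u v 0)) := by
          apply mul_le_mul_of_nonneg_left _ (mul_pos (hp _) (hp _)).le
          exact mul_le_mul h1 h2 (Nat.cast_nonneg _)
            (mul_nonneg (hp _).le (Nat.cast_nonneg _))
      _ = _ := by ring
  have h8 : x ^ (q.ε / 50) * x ^ (q.ε / 50) * x ^ (q.ε / 10) * x ^ (q.ε / 10) ≤ x ^ q.ε := by
    rw [← Real.rpow_add hx0, ← Real.rpow_add hx0, ← Real.rpow_add hx0]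
    exact Real.rpow_le_rpow_of_exponent_le hx (by linarith)
  have h9 : x ^ (q.ε - q.lo 1) * x ^ q.lo 1 = x ^ q.ε := by
    rw [← Real.rpow_add hx0, sub_add_cancel]
  have g0 : 0 ≤ (gl b u v b : ℝ) * gl b u v 0 := mul_nonneg (Nat.cast_nonneg _)
    (Nat.cast_nonneg _)
  refine le_of_mul_le_mul_right ?_ (hp (q.lo 1))
  calc x ^ q.hi (b + 1) * x ^ q.hi b * q.c3 ^ 2 * x ^ q.lo 1
      ≤ (x ^ (q.ε / 50) * x ^ (q.ε / 50) * x ^ (q.ε / 10) * x ^ (q.ε / 10)) *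
        ((gl b u v b : ℝ) * gl b u v 0) := h7
    _ ≤ x ^ q.ε * ((gl b u v b : ℝ) * gl b u v 0) := mul_le_mul_of_nonneg_right h8 g0
    _ = x ^ (q.ε - q.lo 1) * ((gl b u v b : ℝ) * gl b u v 0) * x ^ q.lo 1 := by
        rw [← h9]; ring

/-- BLOCK QN6 -/
theorem cnt_A (hq : q.Ok) (hn : q.Nar) (b : Fin 11) (hb : b ≠ 0) (hb9 : b ≠ 9) (hb10 : b ≠ 10) :
    ∃ x₀ : ℝ, 1 ≤ x₀ ∧ ∀ x ≥ x₀, ∀ (I : Fin 11 → ℕ) (S : Finset (PolyK 11)),
    (∀ u ∈ S, Siz I u ∧ ∃ v, NP q x b u v ∧ cb b v 0 ≠ cb b u 0 ∧ cb b v 0 ≠ cb b u 10 ∧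
      cb b v 0 ≠ -cb b u 10) →
    (S.card : ℝ) ≤ x ^ (-(2 * q.ε)) * ∏ j, ((2 : ℝ) ^ I j) ^ 2 := by
  have hε := hq.ε0
  have hc := hq.c30
  set C : ℝ := 20 * 224 ^ 4 / q.c3 ^ 4 with hC
  have hC0 : 0 ≤ C := by positivity
  obtain ⟨x₁, hx₁, hmas⟩ := master hq (half_pos hε)
  obtain ⟨x₂, hx₂, hl2⟩ := x_large hq (1 / q.c3 ^ 2 + 1) hε
  obtain ⟨x₃, hx₃, hl3⟩ := x_large hq (C * (1 / q.c3) ^ 4) (half_pos hε)
  refine ⟨max x₁ (max x₂ x₃), le_max_of_le_left hx₁, ?_⟩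
  intro x hx I S hS
  have hxx1 : x₁ ≤ x := (le_max_left _ _).trans hx
  have hxx2 : x₂ ≤ x := ((le_max_left _ _).trans (le_max_right _ _)).trans hx
  have hxx3 : x₃ ≤ x := ((le_max_right _ _).trans (le_max_right _ _)).trans hx
  have hx1 : 1 ≤ x := hx₁.trans hxx1
  have hx0 : 0 < x := by linarith
  have hp : ∀ y : ℝ, 0 < x ^ y := fun y => Real.rpow_pos_of_pos hx0 y
  have hU1 : ∀ j, (1 : ℝ) ≤ 2 ^ I j := fun j => one_le_pow₀ (by norm_num)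
  rcases S.eq_empty_or_nonempty with he | ⟨u0, hu0⟩
  · rw [he]
    simp only [card_empty, Nat.cast_zero]
    have : 0 ≤ ∏ j, ((2 : ℝ) ^ I j) ^ 2 := Finset.prod_nonneg fun j _ => sq_nonneg _
    exact mul_nonneg (hp _).le this
  choose! V hV using (fun u hu => (hS u hu).2)
  set D : PolyK 11 → PolyK 11 × (ℤ × ℤ) × (Fin 11 → ℕ) :=
    fun u => (u, cb b (V u) 0, qn6_g b u (V u)) with hD
  have hinj : Function.Injective D := fun a c h => congrArg Prod.fst h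
  have hcard : (S.image D).card = S.card := card_image_of_injective S hinj
  set E : ℝ := ((2 : ℝ) ^ I 0 * 2 ^ I 2 * 2 ^ I 4 * 2 ^ I 6 * 2 ^ I 8 * 2 ^ I 10) ^ 2 with hE
  set T : ℝ := ∏ i ∈ qn6_O b, ((2 : ℝ) ^ I i) ^ 2 with hT
  have hE0 : 0 ≤ E := sq_nonneg _
  have hT0 : 0 ≤ T := Finset.prod_nonneg fun j _ => sq_nonneg _
  have hne : ∀ u ∈ S, ∀ e : Fin 11, e.val % 2 = 0 → dt (cb b u e) (cb b (V u) 0) ≠ 0 := by
    intro u hu e he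
    obtain ⟨h1, h2, h3, h4⟩ := hV u hu
    exact qn6_ne hq hn b hb hb9 hb10 hx1 (hl2 x hxx2).1 h1.pu h1.pv h2 h3 h4 e he
  have hMD : ∀ s ∈ S.image D, MD q x b (qn6_O b) I s := by
    intro s hs
    rw [mem_image] at hs
    obtain ⟨u, hu, rfl⟩ := hs
    exact qn6_MD hq hx1 b hb hb10 (hS u hu).1 (hV u hu).1.pu (hV u hu).1.pv (hne u hu)
  have hN : ∀ s ∈ S.image D, ((((S.image D).filter (fun t => fE (qn6_O b) t = fE (qn6_O b) s ∧
      fK (qn6_O b) t = fK (qn6_O b) s)).image (fun t => t.2.1)).card : ℝ) *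
      ∏ i ∈ qn6_O b, (128 * ((2 : ℝ) ^ I i) ^ 2 / ((s.2.2 (i - 1) : ℝ) * s.2.2 i) + 6) ≤
      C * x ^ (q.ε - q.lo 1) * E * T := by
    intro s hs
    have hs' := hs
    rw [mem_image] at hs'
    obtain ⟨u, hu, hus⟩ := hs'
    have hnp := (hV u hu).1
    have i1 := qn6_img b hb hb9 hb10 hx1 hq ((S.image D).filter (fun t =>
      fE (qn6_O b) t = fE (qn6_O b) s ∧ fK (qn6_O b) t = fK (qn6_O b) s)) (by
        intro t ht
        rw [mem_filter, mem_image] at ht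
        obtain ⟨⟨u', hu', rfl⟩, -⟩ := ht
        exact ⟨V u', rfl, (hV u' hu').1.pu, (hV u' hu').1.pv, hne u' hu' 0 rfl⟩) s
      (mem_filter.mpr ⟨hs, rfl, rfl⟩) (fun t ht => (mem_filter.mp ht).2)
    have hG1 : ∀ j, (1 : ℝ) ≤ (s.2.2 j : ℝ) := by
      intro j
      rw [← hus]
      exact_mod_cast qn6_gpos b u (V u) j
    have i2 := qn6_facs b hb hb9 hb10 (fun j => (2 : ℝ) ^ I j) (fun j => (s.2.2 j : ℝ)) hU1 hG1
      (by
        intro j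
        rw [← hus]
        have h1 : (qn6_g b u (V u) j : ℝ) ≤ dn u j := by
          exact_mod_cast Nat.le_of_dvd (dn_pos hnp.pu j) (qn6_gdvd hnp.pv b hb j)
        exact h1.trans (dn_siz hnp.pu (hS u hu).1 j).2)
    have i3 := qn6_P1 b hb hb9 hb10 (fun j => (s.2.2 j : ℝ))
    have i4 := qn6_num hq hn b hx1 hnp.pv hnp.pu hnp.nv
    have i5 : (s.2.2 10 : ℝ) = 1 := by
      have h1 : qn6_g b u (V u) 10 ∣ dn u 10 := qn6_gdvd hnp.pv b hb 10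
      rw [dn_ten hnp.pu] at h1
      rw [← hus]
      exact_mod_cast Nat.dvd_one.mp h1
    have i6 : ∏ j, (qn6_g b u (V u) j : ℝ) = ∏ j, (s.2.2 j : ℝ) := by rw [← hus]
    rw [i6, ← i3, i5, mul_one] at i4
    set PP : ℝ := ∏ i ∈ qn6_O b, ((s.2.2 (i - 1) : ℝ) * s.2.2 i) with hPP
    have hPP0 : 0 < PP := Finset.prod_pos fun i _ =>
      mul_pos (lt_of_lt_of_le zero_lt_one (hG1 _)) (lt_of_lt_of_le zero_lt_one (hG1 _))
    push_cast at i1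
    set J : ℝ := (s.2.2 (qn6_o b - 1) : ℝ) * s.2.2 (qn6_o b) with hJ
    have hJ0 : 0 < J :=
      mul_pos (lt_of_lt_of_le zero_lt_one (hG1 _)) (lt_of_lt_of_le zero_lt_one (hG1 _))
    have hprod0 : 0 ≤ ∏ i ∈ qn6_O b,
        (128 * ((2 : ℝ) ^ I i) ^ 2 / ((s.2.2 (i - 1) : ℝ) * s.2.2 i) + 6) :=
      Finset.prod_nonneg fun i _ => by positivity
    refine (mul_le_mul i1 i2 hprod0 (by positivity)).trans ?_
    have e1 : 20 * (x ^ q.hi (b + 1) / q.c3) * (x ^ q.hi b / q.c3) / J * (224 ^ 4 * E * T / PP) =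
        C * (x ^ q.hi (b + 1) * x ^ q.hi b * q.c3 ^ 2) * E * T / (PP * J) := by
      rw [hC]
      field_simp
    refine (le_of_eq e1).trans ?_
    rw [div_le_iff₀ (mul_pos hPP0 hJ0)]
    calc C * (x ^ q.hi (b + 1) * x ^ q.hi b * q.c3 ^ 2) * E * T
        ≤ C * (x ^ (q.ε - q.lo 1) * (PP * J)) * E * T := by
          apply mul_le_mul_of_nonneg_right _ hT0
          apply mul_le_mul_of_nonneg_right _ hE0
          exact mul_le_mul_of_nonneg_left i4 hC0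
      _ = C * x ^ (q.ε - q.lo 1) * E * T * (PP * J) := by ring
  have hN0 : 0 ≤ C * x ^ (q.ε - q.lo 1) * E * T :=
    mul_nonneg (mul_nonneg (mul_nonneg hC0 (hp _).le) hE0) hT0
  have hfin := hmas x hxx1 b (qn6_O b) I (qn6_m3 b) (S.image D) _ hN0 hMD hN
  rw [hcard] at hfin
  have hsz := siz_bd hq hx1 (hV u0 hu0).1.pu (hS u0 hu0).1
  have hEle : E ≤ (1 / q.c3) ^ 4 * x ^ (2 * (q.hi 2 + q.hi 4 + q.hi 6 + q.hi 8)) := by
    rw [hE]
    calc ((2 : ℝ) ^ I 0 * 2 ^ I 2 * 2 ^ I 4 * 2 ^ I 6 * 2 ^ I 8 * 2 ^ I 10) ^ 2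
        ≤ ((1 / q.c3) * x ^ q.hi 2 * x ^ q.hi 4 * x ^ q.hi 6 * x ^ q.hi 8 * (1 / q.c3)) ^ 2 := by
          apply pow_le_pow_left₀ (by positivity)
          have h0 := hsz.2.1
          have h10 := hsz.2.2
          have h2 := (hsz.1 2).2
          have h4 := (hsz.1 4).2
          have h6 := (hsz.1 6).2
          have h8 := (hsz.1 8).2
          have p2 := hp (q.hi 2)
          have p4 := hp (q.hi 4)
          have p6 := hp (q.hi 6)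
          have p8 := hp (q.hi 8)
          gcongr
      _ = (1 / q.c3) ^ 4 * (x ^ q.hi 2 * x ^ q.hi 4 * x ^ q.hi 6 * x ^ q.hi 8) ^ 2 := by ring
      _ = (1 / q.c3) ^ 4 * x ^ (2 * (q.hi 2 + q.hi 4 + q.hi 6 + q.hi 8)) := by
          congr 1
          rw [← Real.rpow_add hx0, ← Real.rpow_add hx0, ← Real.rpow_add hx0,
            ← Real.rpow_natCast, ← Real.rpow_mul hx0.le]
          congr 1
          push_cast
          ring
  have htiny := hq.tiny 1 (by decide)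
  have hhi : ∀ j : Fin 11, j ≠ 0 → j ≠ 10 → 0 ≤ q.hi j := by
    intro j h0 h10
    exact hi_nonneg hq j
  have s2 := hhi 2 (by decide) (by decide)
  have s4 := hhi 4 (by decide) (by decide)
  have s6 := hhi 6 (by decide) (by decide)
  have s8 := hhi 8 (by decide) (by decide)
  have hprod : (∏ j ∈ (qn6_O b)ᶜ, ((2 : ℝ) ^ I j) ^ 2) * T = ∏ j, ((2 : ℝ) ^ I j) ^ 2 :=
    Finset.prod_compl_mul_prod (qn6_O b) fun j => ((2 : ℝ) ^ I j) ^ 2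
  have hAll0 : 0 ≤ ∏ j, ((2 : ℝ) ^ I j) ^ 2 := Finset.prod_nonneg fun j _ => sq_nonneg _
  calc (S.card : ℝ) ≤ x ^ (q.ε / 2) * (∏ j ∈ (qn6_O b)ᶜ, ((2 : ℝ) ^ I j) ^ 2) *
        (C * x ^ (q.ε - q.lo 1) * E * T) := hfin
    _ = (x ^ (q.ε / 2) * C * x ^ (q.ε - q.lo 1) * E) * ∏ j, ((2 : ℝ) ^ I j) ^ 2 := by
        rw [← hprod]; ring
    _ ≤ x ^ (-(2 * q.ε)) * ∏ j, ((2 : ℝ) ^ I j) ^ 2 := by
        apply mul_le_mul_of_nonneg_right _ hAll0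
        calc x ^ (q.ε / 2) * C * x ^ (q.ε - q.lo 1) * E
            ≤ x ^ (q.ε / 2) * C * x ^ (q.ε - q.lo 1) *
              ((1 / q.c3) ^ 4 * x ^ (2 * (q.hi 2 + q.hi 4 + q.hi 6 + q.hi 8))) :=
              mul_le_mul_of_nonneg_left hEle (by positivity)
          _ = x ^ (q.ε / 2) * (C * (1 / q.c3) ^ 4) * x ^ (q.ε - q.lo 1) *
              x ^ (2 * (q.hi 2 + q.hi 4 + q.hi 6 + q.hi 8)) := by ring
          _ ≤ x ^ (q.ε / 2) * x ^ (q.ε / 2) * x ^ (q.ε - q.lo 1) *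
              x ^ (2 * (q.hi 2 + q.hi 4 + q.hi 6 + q.hi 8)) := by
              apply mul_le_mul_of_nonneg_right _ (hp _).le
              apply mul_le_mul_of_nonneg_right _ (hp _).le
              exact mul_le_mul_of_nonneg_left (hl3 x hxx3).1 (hp _).le
          _ = x ^ (q.ε / 2 + q.ε / 2 + (q.ε - q.lo 1) +
              2 * (q.hi 2 + q.hi 4 + q.hi 6 + q.hi 8)) := by
              rw [Real.rpow_add hx0, Real.rpow_add hx0, Real.rpow_add hx0]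
          _ ≤ x ^ (-(2 * q.ε)) := by
              apply Real.rpow_le_rpow_of_exponent_le hx1
              linarith

end Pool.Agent.PNV
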