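import Pool.Agent.Lib_helper96.PNV.Defs
import Pool.Agent.Lib_helper96.PNV.L.QA4
import Pool.Agent.Lib_helper96.PNV.L.QA5
import Pool.Agent.Lib_helper96.PNV.L.QA6
import Pool.Agent.Lib_helper96.PNV.L.QA9
import Pool.Agent.Lib_helper96.PNV.L.QN4
import Pool.Agent.Lib_helper96.PNV.L.QN5
import Pool.Agent.Lib_helper96.PNV.L.QN6
import Pool.Agent.Lib_helper96.PNV.L.QN7
import Pool.Agent.Lib_helper96.PNV.L.QN8
import Pool.Agent.Lib_helper96.PNV.L.QN9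

set_option autoImplicit false

namespace Pool.Agent.PNV

open Finset Pool.Agent.PENT Pool.Agent.PENK Pool.Agent.PNI

variable {q : Prm} {x : ℝ} {u v w : PolyK 11}

/-- the counting statements -/
def qn10_C (ε : ℝ) (P : ℝ → PolyK 11 → Prop) (n : ℝ) : Prop :=
  ∃ x₀ : ℝ, 1 ≤ x₀ ∧ ∀ x ≥ x₀, ∀ (I : Fin 11 → ℕ) (S : Finset (PolyK 11)),
    (∀ u ∈ S, Siz I u ∧ P x u) →
    (S.card : ℝ) ≤ n * (x ^ (-(2 * ε)) * ∏ j, ((2 : ℝ) ^ I j) ^ 2)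

theorem qn10_or {ε : ℝ} {P Q : ℝ → PolyK 11 → Prop} {n m : ℝ} (h1 : qn10_C ε P n)
    (h2 : qn10_C ε Q m) : qn10_C ε (fun x u => P x u ∨ Q x u) (n + m) := by
  classical
  obtain ⟨x1, k1, l1⟩ := h1
  obtain ⟨x2, k2, l2⟩ := h2
  refine ⟨max x1 x2, le_max_of_le_left k1, fun x hx I S hS => ?_⟩
  have a1 := l1 x ((le_max_left _ _).trans hx) I (S.filter (fun u => P x u)) (fun u hu =>
    ⟨(hS u (Finset.mem_filter.1 hu).1).1, (Finset.mem_filter.1 hu).2⟩)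
  have a2 := l2 x ((le_max_right _ _).trans hx) I (S.filter (fun u => Q x u)) (fun u hu =>
    ⟨(hS u (Finset.mem_filter.1 hu).1).1, (Finset.mem_filter.1 hu).2⟩)
  have a3 : S ⊆ S.filter (fun u => P x u) ∪ S.filter (fun u => Q x u) := by
    intro u hu
    rcases (hS u hu).2 with h | h
    · exact Finset.mem_union_left _ (Finset.mem_filter.2 ⟨hu, h⟩)
    · exact Finset.mem_union_right _ (Finset.mem_filter.2 ⟨hu, h⟩)
  have a4 : (S.card : ℝ) ≤ ((S.filter (fun u => P x u)).card : ℝ) +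
      ((S.filter (fun u => Q x u)).card : ℝ) := by
    exact_mod_cast (Finset.card_le_card a3).trans (Finset.card_union_le _ _)
  rw [add_mul]
  linarith

theorem qn10_mono {ε : ℝ} {P Q : ℝ → PolyK 11 → Prop} {n : ℝ} (h1 : qn10_C ε Q n)
    (h : ∃ x₁ : ℝ, 1 ≤ x₁ ∧ ∀ x ≥ x₁, ∀ u, P x u → Q x u) : qn10_C ε P n := by
  obtain ⟨x1, k1, l1⟩ := h1
  obtain ⟨x2, k2, l2⟩ := h
  refine ⟨max x1 x2, le_max_of_le_left k1, fun x hx I S hS => ?_⟩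
  exact l1 x ((le_max_left _ _).trans hx) I S (fun u hu =>
    ⟨(hS u hu).1, l2 x ((le_max_right _ _).trans hx) u (hS u hu).2⟩)

theorem qn10_rf_inj : Function.Injective rf := by
  intro u v h
  rw [← rf_rf u, h, rf_rf]

/-- reflection -/
theorem qn10_refl {ε : ℝ} {P : ℝ → PolyK 11 → Prop} {n : ℝ} (h1 : qn10_C ε P n) :
    qn10_C ε (fun x u => P x (rf u)) n := by
  classical
  obtain ⟨x1, k1, l1⟩ := h1
  refine ⟨x1, k1, fun x hx I S hS => ?_⟩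
  have a1 := l1 x hx (fun j => I (10 - j)) (S.image rf) (fun u hu => by
    obtain ⟨v, hv, rfl⟩ := Finset.mem_image.1 hu
    exact ⟨rf_siz (hS v hv).1, (hS v hv).2⟩)
  rw [Finset.card_image_of_injective _ qn10_rf_inj] at a1
  have a2 : ∏ j : Fin 11, ((2 : ℝ) ^ I (10 - j)) ^ 2 = ∏ j, ((2 : ℝ) ^ I j) ^ 2 :=
    Equiv.prod_comp (Equiv.subLeft (10 : Fin 11)) (fun j => ((2 : ℝ) ^ I j) ^ 2)
  rw [a2] at a1
  exact a1

/-- the conclusion -/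
theorem qn10_fin {ε : ℝ} (hε : 0 < ε) {P : ℝ → PolyK 11 → Prop} {n : ℝ} (h1 : qn10_C ε P n) :
    ∃ x₀ : ℝ, 1 ≤ x₀ ∧ ∀ x ≥ x₀, ∀ (I : Fin 11 → ℕ) (S : Finset (PolyK 11)),
      (∀ u ∈ S, Siz I u ∧ P x u) → (S.card : ℝ) ≤ x ^ (-ε) * ∏ j, ((2 : ℝ) ^ I j) ^ 2 := by
  obtain ⟨x1, k1, l1⟩ := h1
  obtain ⟨x2, hx2⟩ := Filter.eventually_atTop.1 ((tendsto_rpow_atTop hε).eventually_ge_atTop n)
  refine ⟨max x1 x2, le_max_of_le_left k1, fun x hx I S hS => ?_⟩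
  have hx1 : x1 ≤ x := (le_max_left _ _).trans hx
  have hx0 : 0 < x := by linarith
  have a1 := l1 x hx1 I S hS
  have a2 := hx2 x ((le_max_right _ _).trans hx)
  refine a1.trans ?_
  rw [← mul_assoc]
  refine mul_le_mul_of_nonneg_right ?_ (Finset.prod_nonneg fun j _ => by positivity)
  calc n * x ^ (-(2 * ε)) ≤ x ^ ε * x ^ (-(2 * ε)) :=
        mul_le_mul_of_nonneg_right a2 (by positivity)
    _ = x ^ (-ε) := by
        rw [← Real.rpow_add hx0]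
        congr 1
        ring

/-- the base `10` -/
theorem qn10_ten (hq : q.Ok) (h8 : q.E8) :
    qn10_C q.ε (fun x u => ∃ v, v ≠ u ∧ NP q x 10 u v) 4 := by
  have c : ∀ r : Fin 11, r = 1 ∨ r = 3 ∨ r = 5 ∨ r = 7 →
      qn10_C q.ε (fun x u => ∃ v, NP q x 10 u v ∧ (∀ j < r, v j = u j) ∧ v r ≠ u r) 1 := by
    intro r hr
    obtain ⟨x1, k1, l1⟩ := cnt_P hq h8 r hr
    refine ⟨x1, k1, fun x hx I S hS => ?_⟩
    rw [one_mul]
    exact l1 x hx I S hS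
  have c4 := qn10_or (c 1 (Or.inl rfl)) (qn10_or (c 3 (Or.inr (Or.inl rfl)))
    (qn10_or (c 5 (Or.inr (Or.inr (Or.inl rfl)))) (c 7 (Or.inr (Or.inr (Or.inr rfl))))))
  have e : (1 : ℝ) + (1 + (1 + 1)) = 4 := by norm_num
  rw [e] at c4
  refine qn10_mono c4 ?_
  obtain ⟨x1, k1, l1⟩ := first_diff hq
  refine ⟨x1, k1, fun x hx u hu => ?_⟩
  obtain ⟨v, hv1, hv2⟩ := hu
  obtain ⟨r, hr, h3, h4⟩ := l1 x hx u v hv2 hv1
  rcases hr with rfl | rfl | rfl | rfl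
  · exact Or.inl ⟨v, hv2, h3, h4⟩
  · exact Or.inr (Or.inl ⟨v, hv2, h3, h4⟩)
  · exact Or.inr (Or.inr (Or.inl ⟨v, hv2, h3, h4⟩))
  · exact Or.inr (Or.inr (Or.inr ⟨v, hv2, h3, h4⟩))

theorem qn10_A (hq : q.Ok) (hn : q.Nar) (b : Fin 11) (hb : b ≠ 0) (hb9 : b ≠ 9) (hb10 : b ≠ 10) :
    qn10_C q.ε (fun x u => ∃ v, NP q x b u v ∧ cb b v 0 ≠ cb b u 0 ∧ cb b v 0 ≠ cb b u 10 ∧
      cb b v 0 ≠ -cb b u 10) 1 := by
  obtain ⟨x1, k1, l1⟩ := cnt_A hq hn b hb hb9 hb10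
  refine ⟨x1, k1, fun x hx I S hS => ?_⟩
  rw [one_mul]
  exact l1 x hx I S hS

/-- the base `0` -/
theorem qn10_zero (hq : q.Ok) (hn : q.Nar) :
    qn10_C q.ε (fun x u => ∃ v, NP q x 0 u v ∧ ¬ (cb 0 v 10 = cb 0 u 10 ∧ cb 0 v 9 = cb 0 u 9 ∧
      cb 0 v 8 = cb 0 u 8)) 3 := by
  have c1 : qn10_C q.ε (fun x u => ∃ v, NP q x 0 u v ∧ cb 0 v 10 ≠ cb 0 u 10) 1 := by
    obtain ⟨x1, k1, l1⟩ := cnt_0i hq hn
    refine ⟨x1, k1, fun x hx I S hS => ?_⟩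
    rw [one_mul]
    exact l1 x hx I S hS
  have c2 : qn10_C q.ε (fun x u => ∃ v, NP q x 0 u v ∧ cb 0 v 10 = cb 0 u 10 ∧
      cb 0 v 9 ≠ cb 0 u 9) 1 := by
    obtain ⟨x1, k1, l1⟩ := cnt_0ii hq hn
    refine ⟨x1, k1, fun x hx I S hS => ?_⟩
    rw [one_mul]
    exact l1 x hx I S hS
  have c3 : qn10_C q.ε (fun x u => ∃ v, NP q x 0 u v ∧ cb 0 v 10 = cb 0 u 10 ∧
      cb 0 v 9 = cb 0 u 9 ∧ cb 0 v 8 ≠ cb 0 u 8) 1 := by
    obtain ⟨x1, k1, l1⟩ := cnt_0iii hq hn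
    refine ⟨x1, k1, fun x hx I S hS => ?_⟩
    rw [one_mul]
    exact l1 x hx I S hS
  have c4 := qn10_or c1 (qn10_or c2 c3)
  have e : (1 : ℝ) + (1 + 1) = 3 := by norm_num
  rw [e] at c4
  refine qn10_mono c4 ⟨1, le_refl _, fun x _ u hu => ?_⟩
  obtain ⟨v, hv, hn⟩ := hu
  by_cases a1 : cb 0 v 10 = cb 0 u 10
  · by_cases a2 : cb 0 v 9 = cb 0 u 9
    · by_cases a3 : cb 0 v 8 = cb 0 u 8
      · exact absurd ⟨a1, a2, a3⟩ hn
      · exact Or.inr (Or.inr ⟨v, hv, a1, a2, a3⟩)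
    · exact Or.inr (Or.inl ⟨v, hv, a1, a2⟩)
  · exact Or.inl ⟨v, hv, a1⟩

theorem qn10_swap {a c : ℤ × ℤ} (h : (a.2, a.1) = ((c.2, c.1) : ℤ × ℤ)) : a = c :=
  Prod.ext (Prod.ext_iff.1 h).2 (Prod.ext_iff.1 h).1

theorem nf_card (hq : q.Ok) (h8 : q.E8) (b : Fin 11) (hb : b = 10 ∨ q.Nar) :
    ∃ x₀ : ℝ, 1 ≤ x₀ ∧ ∀ x ≥ x₀, ∀ (I : Fin 11 → ℕ) (S : Finset (PolyK 11)),
    (∀ u ∈ S, Siz I u ∧ ∃ v, v ≠ u ∧ NP q x b u v) →
    (S.card : ℝ) ≤ x ^ (-q.ε) * ∏ j, ((2 : ℝ) ^ I j) ^ 2 := by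
  by_cases b10 : b = 10
  · subst b10
    exact qn10_fin hq.ε0 (qn10_ten hq h8)
  have hn : q.Nar := hb.resolve_left b10
  have c10 := qn10_ten hq h8
  by_cases b0 : b = 0
  · subst b0
    refine qn10_fin hq.ε0 (n := 3 + 4) (qn10_mono (qn10_or (qn10_zero hq hn) c10)
      ⟨1, le_refl _, fun x _ u hu => ?_⟩)
    obtain ⟨v, hvu, hv⟩ := hu
    by_cases a1 : cb 0 v 10 = cb 0 u 10 ∧ cb 0 v 9 = cb 0 u 9 ∧ cb 0 v 8 = cb 0 u 8
    · right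
      obtain ⟨f1, f2⟩ := frame_zero hv.pu hv.pv a1.1 a1.2.1 a1.2.2
      exact ⟨v, hvu, NP_ten hv f1 f2⟩
    · exact Or.inl ⟨v, hv, a1⟩
  by_cases b9 : b = 9
  · subst b9
    refine qn10_fin hq.ε0 (n := 3 + 4) (qn10_mono (qn10_or
      (qn10_refl (ε := q.ε) (qn10_zero (q := q.rv) (rv_ok hq) (rv_nar hn))) c10)
      ⟨1, le_refl _, fun x _ u hu => ?_⟩)
    obtain ⟨v, hvu, hv⟩ := hu
    have hr : NP q.rv x (9 - 9) (rf u) (rf v) := rf_NP hv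
    have e99 : (9 : Fin 11) - 9 = 0 := by decide
    rw [e99] at hr
    by_cases a1 : cb 0 (rf v) 10 = cb 0 (rf u) 10 ∧ cb 0 (rf v) 9 = cb 0 (rf u) 9 ∧
        cb 0 (rf v) 8 = cb 0 (rf u) 8
    · right
      obtain ⟨f1, f2⟩ := frame_zero hr.pu hr.pv a1.1 a1.2.1 a1.2.2
      have g1 : v 10 = u 10 := qn10_swap f1
      have g2 : v 9 = u 9 := qn10_swap f2
      exact ⟨v, hvu, NP_ten hv g2 g1⟩
    · exact Or.inl ⟨rf v, hr, a1⟩
  · have hb1 : (9 : Fin 11) - b ≠ 0 := by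
      revert b0 b9 b10
      clear hb
      revert b
      decide
    have hb2 : (9 : Fin 11) - b ≠ 9 := by
      revert b0 b9 b10
      clear hb hb1
      revert b
      decide
    have hb3 : (9 : Fin 11) - b ≠ 10 := by
      revert b0 b9 b10
      clear hb hb1 hb2
      revert b
      decide
    refine qn10_fin hq.ε0 (n := 1 + (1 + 4)) (qn10_mono (qn10_or (qn10_A hq hn b b0 b9 b10)
      (qn10_or (qn10_refl (ε := q.ε) (qn10_A (q := q.rv) (rv_ok hq) (rv_nar hn) (9 - b)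
        hb1 hb2 hb3)) c10))
      ⟨1, le_refl _, fun x _ u hu => ?_⟩)
    obtain ⟨v, hvu, hv⟩ := hu
    have e3 : (10 : Fin 11) - 10 = 0 := by decide
    have e4 : (10 : Fin 11) - 0 = 10 := by decide
    have k1 := rf_cb b 10 v
    have k2 := rf_cb b 10 u
    have k3 := rf_cb b 0 u
    rw [e3] at k1 k2
    rw [e4] at k3
    by_cases a1 : cb b v 0 = cb b u 0 ∨ cb b v 0 = cb b u 10 ∨ cb b v 0 = -cb b u 10
    · by_cases a2 : cb b v 10 = cb b u 10 ∨ cb b v 10 = cb b u 0 ∨ cb b v 10 = -cb b u 0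
      · obtain ⟨f1, f2⟩ := frame_mid hv.pu hv.pv b b0 b9 b10 a1 a2
        exact Or.inr (Or.inr ⟨v, hvu, NP_ten hv f1 f2⟩)
      · refine Or.inr (Or.inl ⟨rf v, rf_NP hv, ?_, ?_, ?_⟩)
        · intro h
          rw [k1, k2] at h
          exact a2 (Or.inl (qn10_swap h))
        · intro h
          rw [k1, k3] at h
          exact a2 (Or.inr (Or.inl (qn10_swap h)))
        · intro h
          rw [k1, k3] at h
          exact a2 (Or.inr (Or.inr (qn10_swap h)))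
    · exact Or.inl ⟨v, hv, fun h => a1 (Or.inl h), fun h => a1 (Or.inr (Or.inl h)),
        fun h => a1 (Or.inr (Or.inr h))⟩

end Pool.Agent.PNV
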