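import Pool.Agent.Lib_helper96.PNV.Defs
import Pool.Agent.Lib_helper96.PNV.L.QA7
import Pool.Agent.Lib_helper96.PNV.L.QN1
import Pool.Agent.Lib_helper96.PNV.L.QN10

set_option autoImplicit false

namespace Pool.Agent.PNV

open Finset Pool.Agent.PENT Pool.Agent.PENK Pool.Agent.PNI

variable {q : Prm} {x : ℝ} {u v w : PolyK 11}

/-- the cell of a path -/
def qn11_I (u : PolyK 11) : Fin 11 → ℕ := fun j => Nat.log 2 (nr (u j))

theorem qn11_siz (hx : 1 ≤ x) (h : IsPt q x u) : Siz (qn11_I u) u := by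
  intro j
  have h0 : (0 : ℝ) < nr (u j) := lt_of_lt_of_le (Real.rpow_pos_of_pos (by linarith) _) (h.lo j)
  have h1 : nr (u j) ≠ 0 := by
    intro h2
    rw [h2] at h0
    simp at h0
  exact ⟨Nat.pow_log_le_self 2 h1, Nat.lt_pow_succ_log_self (by norm_num) _⟩

theorem qn11_hi (hq : q.Ok) (j : Fin 11) : q.hi j ≤ 1 := by
  have h0 : ∀ i, 0 ≤ q.hi i := fun i => hi_nonneg hq i
  have h1 : q.hi j ≤ ∑ i, q.hi i := Finset.single_le_sum (fun i _ => h0 i) (Finset.mem_univ j)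
  have h2 := hq.sm
  linarith

theorem qn11_le (hq : q.Ok) (hx : 1 ≤ x) (h : IsPt q x u) (j : Fin 11) :
    qn11_I u j < ⌊2 * Real.log x⌋₊ + 1 := by
  have hs := siz_bd hq hx h (qn11_siz hx h)
  have h1 := (hs.1 j).2
  have h2 : (2 : ℝ) ^ qn11_I u j ≤ x := by
    refine h1.trans ?_
    calc x ^ q.hi j ≤ x ^ (1 : ℝ) := Real.rpow_le_rpow_of_exponent_le hx (qn11_hi hq j)
      _ = x := Real.rpow_one x
  have h3 : (qn11_I u j : ℝ) * Real.log 2 ≤ Real.log x := by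
    have h4 := Real.log_le_log (by positivity) h2
    rwa [Real.log_pow] at h4
  have h5 : (1 / 2 : ℝ) ≤ Real.log 2 := by
    have := Real.log_two_gt_d9
    linarith
  have h6 : (qn11_I u j : ℝ) ≤ 2 * Real.log x := by
    have h7 : (qn11_I u j : ℝ) * (1 / 2) ≤ (qn11_I u j : ℝ) * Real.log 2 :=
      mul_le_mul_of_nonneg_left h5 (Nat.cast_nonneg _)
    linarith
  exact Nat.lt_succ_of_le (Nat.le_floor h6)

theorem qn11_cells (hq : q.Ok) (hx : 1 ≤ x) (S : Finset (PolyK 11)) (hS : ∀ u ∈ S, IsPt q x u)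
    (K : ℝ) (hK : 0 ≤ K)
    (hc : ∀ (I : Fin 11 → ℕ) (T : Finset (PolyK 11)), T ⊆ S → (∀ u ∈ T, Siz I u) →
      (T.card : ℝ) ≤ K * ∏ j, ((2 : ℝ) ^ I j) ^ 2) :
    ∑ u ∈ S, 1 / (DD u : ℝ) ≤ K / q.c3 ^ 11 * (2 * Real.log x + 1) ^ 11 := by
  classical
  set L : ℕ := ⌊2 * Real.log x⌋₊ + 1 with hL
  set P : Finset (Fin 11 → ℕ) := Fintype.piFinset (fun _ : Fin 11 => Finset.range L) with hP
  have hmap : ∀ u ∈ S, qn11_I u ∈ P := by
    intro u hu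
    rw [hP, Fintype.mem_piFinset]
    intro j
    rw [Finset.mem_range]
    exact qn11_le hq hx (hS u hu) j
  have hc3 : 0 < q.c3 ^ 11 := pow_pos hq.c30 _
  have hcell : ∀ I ∈ P, ∑ u ∈ S.filter (fun u => qn11_I u = I), 1 / (DD u : ℝ) ≤
      K / q.c3 ^ 11 := by
    intro I _
    have hprod : (0 : ℝ) < ∏ j, ((2 : ℝ) ^ I j) ^ 2 := Finset.prod_pos (fun j _ => by positivity)
    have hsz : ∀ u ∈ S.filter (fun u => qn11_I u = I), IsPt q x u ∧ Siz I u := by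
      intro u hu
      rw [Finset.mem_filter] at hu
      refine ⟨hS u hu.1, ?_⟩
      rw [← hu.2]
      exact qn11_siz hx (hS u hu.1)
    have h1 : ∀ u ∈ S.filter (fun u => qn11_I u = I), 1 / (DD u : ℝ) ≤
        1 / (q.c3 ^ 11 * ∏ j, ((2 : ℝ) ^ I j) ^ 2) := by
      intro u hu
      obtain ⟨hp, hs⟩ := hsz u hu
      exact one_div_le_one_div_of_le (mul_pos hc3 hprod) (DD_siz hq hp hs)
    have h2 := Finset.sum_le_sum h1
    rw [Finset.sum_const, nsmul_eq_mul] at h2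
    have h3 := hc I _ (Finset.filter_subset _ S) (fun u hu => (hsz u hu).2)
    calc ∑ u ∈ S.filter (fun u => qn11_I u = I), 1 / (DD u : ℝ)
        ≤ ((S.filter (fun u => qn11_I u = I)).card : ℝ) *
          (1 / (q.c3 ^ 11 * ∏ j, ((2 : ℝ) ^ I j) ^ 2)) := h2
      _ ≤ (K * ∏ j, ((2 : ℝ) ^ I j) ^ 2) * (1 / (q.c3 ^ 11 * ∏ j, ((2 : ℝ) ^ I j) ^ 2)) :=
          mul_le_mul_of_nonneg_right h3 (by positivity)
      _ = K / q.c3 ^ 11 := by
          field_simp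
  have hcard : ((P.card : ℕ) : ℝ) ≤ (2 * Real.log x + 1) ^ 11 := by
    have h1 : P.card = L ^ 11 := by
      rw [hP, Fintype.card_piFinset]
      simp
    rw [h1]
    push_cast
    have h2 : (L : ℝ) ≤ 2 * Real.log x + 1 := by
      rw [hL]
      push_cast
      have := Nat.floor_le (show 0 ≤ 2 * Real.log x by
        have := Real.log_nonneg hx
        linarith)
      linarith
    exact pow_le_pow_left₀ (Nat.cast_nonneg _) h2 11
  calc ∑ u ∈ S, 1 / (DD u : ℝ)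
      = ∑ I ∈ P, ∑ u ∈ S.filter (fun u => qn11_I u = I), 1 / (DD u : ℝ) :=
        (Finset.sum_fiberwise_of_maps_to hmap _).symm
    _ ≤ ∑ _I ∈ P, K / q.c3 ^ 11 := Finset.sum_le_sum hcell
    _ = (P.card : ℝ) * (K / q.c3 ^ 11) := by rw [Finset.sum_const, nsmul_eq_mul]
    _ ≤ (2 * Real.log x + 1) ^ 11 * (K / q.c3 ^ 11) :=
        mul_le_mul_of_nonneg_right hcard (by positivity)
    _ = K / q.c3 ^ 11 * (2 * Real.log x + 1) ^ 11 := by ring

theorem qn11_log (hq : q.Ok) (C : ℝ) (hC : 0 ≤ C) {θ : ℝ} (hθ : 0 < θ) : ∃ x₀ : ℝ, 1 ≤ x₀ ∧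
    ∀ x ≥ x₀, C * (2 * Real.log x + 1) ^ 11 ≤ x ^ θ := by
  obtain ⟨x₀, h1, h2⟩ := x_large hq (C * (2 / (θ / 22) + 1) ^ 11) (half_pos hθ)
  refine ⟨x₀, h1, fun x hx => ?_⟩
  have hx1 : 1 ≤ x := h1.trans hx
  have hx0 : 0 < x := by linarith
  have hδ : 0 < θ / 22 := by positivity
  have h3 : Real.log x ≤ x ^ (θ / 22) / (θ / 22) := Real.log_le_rpow_div hx0.le hδ
  have h4 : 1 ≤ x ^ (θ / 22) := Real.one_le_rpow hx1 hδ.le
  have h5 : 2 * Real.log x + 1 ≤ (2 / (θ / 22) + 1) * x ^ (θ / 22) := by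
    have e : (2 / (θ / 22) + 1) * x ^ (θ / 22) =
        2 * (x ^ (θ / 22) / (θ / 22)) + x ^ (θ / 22) := by ring
    rw [e]
    linarith
  have h6 : 0 ≤ 2 * Real.log x + 1 := by
    have := Real.log_nonneg hx1
    linarith
  have h7 : (2 * Real.log x + 1) ^ 11 ≤ (2 / (θ / 22) + 1) ^ 11 * x ^ (θ / 2) := by
    calc (2 * Real.log x + 1) ^ 11 ≤ ((2 / (θ / 22) + 1) * x ^ (θ / 22)) ^ 11 :=
          pow_le_pow_left₀ h6 h5 11
      _ = (2 / (θ / 22) + 1) ^ 11 * (x ^ (θ / 22)) ^ 11 := mul_pow _ _ _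
      _ = (2 / (θ / 22) + 1) ^ 11 * x ^ (θ / 2) := by
          rw [← Real.rpow_natCast (x ^ (θ / 22)) 11, ← Real.rpow_mul hx0.le]
          congr 2
          push_cast
          ring
  calc C * (2 * Real.log x + 1) ^ 11 ≤ C * ((2 / (θ / 22) + 1) ^ 11 * x ^ (θ / 2)) :=
        mul_le_mul_of_nonneg_left h7 hC
    _ = (C * (2 / (θ / 22) + 1) ^ 11) * x ^ (θ / 2) := by ring
    _ ≤ x ^ (θ / 2) * x ^ (θ / 2) :=
        mul_le_mul_of_nonneg_right (h2 x hx).1 (Real.rpow_nonneg hx0.le _)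
    _ = x ^ θ := by
        rw [← Real.rpow_add hx0]
        congr 1
        ring

theorem nf_sum (hq : q.Ok) (h8 : q.E8) (b : Fin 11) (hb : b = 10 ∨ q.Nar) :
    ∃ x₀ : ℝ, 1 ≤ x₀ ∧ ∀ x ≥ x₀, ∀ S : Finset (PolyK 11),
    (∀ u ∈ S, ∃ v, v ≠ u ∧ NP q x b u v) → ∑ u ∈ S, 1 / (DD u : ℝ) ≤ x ^ (-(q.ε / 2)) := by
  obtain ⟨x₁, h1, h2⟩ := nf_card hq h8 b hb
  have hε := hq.ε0
  have hc3 : 0 < q.c3 ^ 11 := pow_pos hq.c30 _
  obtain ⟨x₂, h3, h4⟩ := qn11_log hq (1 / q.c3 ^ 11) (by positivity) (half_pos hε)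
  refine ⟨max x₁ x₂, h1.trans (le_max_left _ _), fun x hx S hS => ?_⟩
  have hx1 : x ≥ x₁ := le_trans (le_max_left _ _) hx
  have hx2 : x ≥ x₂ := le_trans (le_max_right _ _) hx
  have hx0 : 1 ≤ x := h1.trans hx1
  have hxp : 0 < x := by linarith
  have h5 := qn11_cells hq hx0 S (fun u hu => by
    obtain ⟨v, _, hv⟩ := hS u hu
    exact hv.pu) (x ^ (-q.ε)) (Real.rpow_nonneg hxp.le _) (fun I T hT hI =>
      h2 x hx1 I T (fun u hu => ⟨hI u hu, hS u (hT hu)⟩))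
  refine h5.trans ?_
  calc x ^ (-q.ε) / q.c3 ^ 11 * (2 * Real.log x + 1) ^ 11
      = x ^ (-q.ε) * (1 / q.c3 ^ 11 * (2 * Real.log x + 1) ^ 11) := by ring
    _ ≤ x ^ (-q.ε) * x ^ (q.ε / 2) :=
        mul_le_mul_of_nonneg_left (h4 x hx2) (Real.rpow_nonneg hxp.le _)
    _ = x ^ (-(q.ε / 2)) := by
        rw [← Real.rpow_add hxp]
        congr 1
        ring

theorem inv_sum (hq : q.Ok) {θ : ℝ} (hθ : 0 < θ) : ∃ x₀ : ℝ, 1 ≤ x₀ ∧ ∀ x ≥ x₀,
    ∀ S : Finset (PolyK 11), (∀ u ∈ S, IsPt q x u) → ∑ u ∈ S, 1 / (DD u : ℝ) ≤ x ^ θ := by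
  classical
  have hc3 : 0 < q.c3 ^ 11 := pow_pos hq.c30 _
  obtain ⟨x₀, h3, h4⟩ := qn11_log hq (25 ^ 11 / q.c3 ^ 11) (by positivity) hθ
  refine ⟨x₀, h3, fun x hx S hS => ?_⟩
  have hx0 : 1 ≤ x := h3.trans hx
  have h5 := qn11_cells hq hx0 S hS (25 ^ 11) (by positivity) (fun I T _ hI => by
    have h6 : T ⊆ Fintype.piFinset (fun j => T.image (fun u => u j)) := by
      intro u hu
      rw [Fintype.mem_piFinset]
      intro j
      exact Finset.mem_image_of_mem _ hu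
    have h7 : (T.card : ℝ) ≤ ∏ j, ((T.image (fun u => u j)).card : ℝ) := by
      have h8 := Finset.card_le_card h6
      rw [Fintype.card_piFinset] at h8
      exact_mod_cast h8
    refine h7.trans ?_
    calc ∏ j, ((T.image (fun u => u j)).card : ℝ) ≤ ∏ j, (25 * ((2 : ℝ) ^ I j) ^ 2) := by
          refine Finset.prod_le_prod (fun j _ => Nat.cast_nonneg _) (fun j _ => ?_)
          refine card_vec (I j) _ (fun v hv => ?_)
          rw [Finset.mem_image] at hv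
          obtain ⟨u, hu, rfl⟩ := hv
          exact (hI u hu j).2
      _ = 25 ^ 11 * ∏ j, ((2 : ℝ) ^ I j) ^ 2 := by
          rw [Finset.prod_mul_distrib]
          simp)
  refine h5.trans (h4 x hx)

end Pool.Agent.PNV
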